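import Pool.Agent.BrE.Keyb

set_option autoImplicit false

/-!
# Blocks: many values of the products `(n - u)(n + u + j)` avoid any given value
-/

open Finset

namespace Pool.Agent.BrE

theorem windowB (q : ℕ) (hq : 1 ≤ q) (ε : ℝ) (hε : 0 < ε) (hε1 : ε ≤ 1 / 2) :
    ∃ c κ : ℝ, 0 < c ∧ c ≤ 1 / 2 ∧ 0 < κ ∧ κ ≤ 1 / 8 ∧ ∃ N0 : ℝ, 1 ≤ N0 ∧ ∀ N : ℝ, N0 ≤ N →
      ∀ f : ℕ → ℂ, RM q f → DensE f κ (N ^ (1 / 4 : ℝ)) →
      ∀ (v : ℕ → ℕ) (j : ℕ), (j : ℝ) ≤ N → Monotone v → ∀ L : ℕ, 0 < L →
      (v ⌊3 * N⌋₊ : ℝ) + L * (⌊N ^ ε⌋₊ + 1) ≤ N ^ (1 - ε) →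
      ∀ S : Finset ℕ, (∀ n ∈ S, N ≤ n ∧ (n : ℝ) ≤ 2 * N ∧ ∃ s : ℂ,
        2 * ((Ico (v n) (v n + L * (⌊N ^ ε⌋₊ + 1))).filter (fun u =>
          f ((n - u) * (n + u + j)) ≠ s)).card < L) →
      (S.card : ℝ) ≤ 2 * N ^ (1 - c) := by
  classical
  obtain ⟨c, κ, hc, hc2, hκ, hκ8, N1, hN1, hkey⟩ := keyB q hq ε hε hε1
  refine ⟨c, κ, hc, hc2, hκ, hκ8, N1, hN1, ?_⟩
  intro N hN f hf hd v j hj hv L hL hvN S hS
  have hN0 : 0 < N := by linarith
  have hNge1 : 1 ≤ N := by linarith
  have hLr : (0 : ℝ) < L := by exact_mod_cast hL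
  set T : ℕ := ⌊N ^ ε⌋₊ with hT
  have hNN : N ^ (1 - ε) ≤ N := by
    calc N ^ (1 - ε) ≤ N ^ (1 : ℝ) := Real.rpow_le_rpow_of_exponent_le hNge1 (by linarith)
      _ = N := Real.rpow_one N
  -- the blocks
  set bad : ℕ → ℕ → Prop := fun i n => ∃ s : ℂ, ∀ t ≤ T,
    f ((n - (v n + T + i * (T + 1)) + t) * (n + (v n + T + i * (T + 1)) + j - t)) = s with hbad
  have hcnt : ∀ i ∈ range L, ((S.filter (fun n => bad i n)).card : ℝ) ≤ N ^ (1 - c) := by
    intro i hi
    rw [mem_range] at hi
    apply hkey N hN f hf hd (fun n => v n + T + i * (T + 1)) j hj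
    · intro x y hxy
      have := hv hxy
      simp only []
      omega
    · refine le_trans ?_ hvN
      push_cast
      have h1 : T + i * (T + 1) ≤ L * (T + 1) := by nlinarith
      have h2 : (T : ℝ) + i * (T + 1) ≤ L * (T + 1) := by exact_mod_cast h1
      linarith
    · intro n hn
      rw [mem_filter] at hn
      obtain ⟨g1, g2, -⟩ := hS n hn.1
      exact ⟨g1, g2, hn.2⟩
  -- each n in S has at least L/2 bad blocks
  have hbadcard : ∀ n ∈ S, (L : ℝ) / 2 ≤ (((range L).filter (fun i => bad i n)).card : ℝ) := by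
    intro n hn
    obtain ⟨g1, g2, s, hs⟩ := hS n hn
    set Q : Finset ℕ := (Ico (v n) (v n + L * (T + 1))).filter (fun u =>
          f ((n - u) * (n + u + j)) ≠ s) with hQ
    have hn3 : n ≤ ⌊3 * N⌋₊ := by
      apply Nat.le_floor
      linarith
    have hvn : (v n : ℝ) + L * (T + 1) ≤ n := by
      have h1 : (v n : ℝ) ≤ v ⌊3 * N⌋₊ := by exact_mod_cast hv hn3
      linarith
    have hvn' : v n + L * (T + 1) ≤ n := by exact_mod_cast hvn
    -- good blocks inject in Q
    have hgood : ((range L).filter (fun i => ¬ bad i n)).card ≤ Q.card := by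
      have hch : ∀ i ∈ (range L).filter (fun i => ¬ bad i n), ∃ t, t ≤ T ∧
          (v n + i * (T + 1) + t) ∈ Q := by
        intro i hi
        rw [mem_filter, mem_range] at hi
        obtain ⟨hiL, hib⟩ := hi
        simp only [hbad] at hib
        push Not at hib
        obtain ⟨t, ht, hta⟩ := hib s
        refine ⟨T - t, by omega, ?_⟩
        have hiL' : (i + 1) * (T + 1) ≤ L * (T + 1) := Nat.mul_le_mul_right _ hiL
        have e0 : (i + 1) * (T + 1) = i * (T + 1) + T + 1 := by ring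
        rw [hQ, mem_filter, mem_Ico]
        refine ⟨⟨by omega, by omega⟩, ?_⟩
        rw [show n - (v n + i * (T + 1) + (T - t)) = n - (v n + T + i * (T + 1)) + t by omega,
          show n + (v n + i * (T + 1) + (T - t)) + j = n + (v n + T + i * (T + 1)) + j - t by omega]
        exact hta
      choose! t ht1 ht2 using hch
      apply card_le_card_of_injOn (fun i => v n + i * (T + 1) + t i)
      · intro i hi
        exact ht2 i hi
      · intro i hi i' hi' hii
        simp only at hii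
        have h1 := ht1 i hi
        have h2 := ht1 i' hi'
        by_contra hne
        rcases lt_or_gt_of_ne hne with hlt | hlt
        · have : (i + 1) * (T + 1) ≤ i' * (T + 1) := Nat.mul_le_mul_right _ hlt
          have e0 : (i + 1) * (T + 1) = i * (T + 1) + T + 1 := by ring
          omega
        · have : (i' + 1) * (T + 1) ≤ i * (T + 1) := Nat.mul_le_mul_right _ hlt
          have e0 : (i' + 1) * (T + 1) = i' * (T + 1) + T + 1 := by ring
          omega
    have h5 := card_filter_add_card_filter_not (s := range L) (fun i => bad i n)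
    rw [card_range] at h5
    have h6 : L ≤ 2 * ((range L).filter (fun i => bad i n)).card := by omega
    have h7 : (L : ℝ) ≤ 2 * (((range L).filter (fun i => bad i n)).card : ℝ) := by exact_mod_cast h6
    linarith
  -- double count
  have hdc : ∑ n ∈ S, (((range L).filter (fun i => bad i n)).card : ℝ)
      = ∑ i ∈ range L, ((S.filter (fun n => bad i n)).card : ℝ) := by
    have h1 : ∑ n ∈ S, ((range L).filter (fun i => bad i n)).card
        = ∑ i ∈ range L, (S.filter (fun n => bad i n)).card := by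
      simp only [card_filter]
      exact sum_comm
    exact_mod_cast h1
  have h1 : (S.card : ℝ) * (L / 2) ≤ ∑ n ∈ S, (((range L).filter (fun i => bad i n)).card : ℝ) := by
    rw [← nsmul_eq_mul, ← sum_const]
    exact sum_le_sum hbadcard
  have h2 : ∑ i ∈ range L, ((S.filter (fun n => bad i n)).card : ℝ) ≤ L * N ^ (1 - c) := by
    have := sum_le_sum hcnt
    rw [sum_const, card_range, nsmul_eq_mul] at this
    exact this
  rw [hdc] at h1
  have h3 : (S.card : ℝ) * (L / 2) ≤ (2 * N ^ (1 - c)) * (L / 2) := by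
    calc (S.card : ℝ) * (L / 2) ≤ L * N ^ (1 - c) := h1.trans h2
      _ = (2 * N ^ (1 - c)) * (L / 2) := by ring
  exact le_of_mul_le_mul_right h3 (by positivity)

end Pool.Agent.BrE
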