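import Pool.Agent.BrE.Main

set_option autoImplicit false

/-!
# Windows on which a completely multiplicative function is constant
-/

open Finset

namespace Pool.Agent.BrE

/-- completely multiplicative, values `q`-th roots of unity -/
structure RM (q : ℕ) (f : ℕ → ℂ) : Prop where
  pow : ∀ n, 0 < n → f n ^ q = 1
  mul : ∀ m n, 0 < m → 0 < n → f (m * n) = f m * f n

/-- every value is avoided often in `(x, x+4√x]` -/
def DensE (f : ℕ → ℂ) (κ X : ℝ) : Prop := ∀ s : ℂ, ∀ x : ℝ, X ≤ x →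
  x ^ (1 / 2 - κ) ≤ Set.ncard {k : ℕ | x < k ∧ (k : ℝ) ≤ x + 4 * √x ∧ f k ≠ s}

theorem DensE.mono {f : ℕ → ℂ} {κ X Y : ℝ} (h : DensE f κ X) (hXY : X ≤ Y) : DensE f κ Y :=
  fun s x hx => h s x (hXY.trans hx)

theorem RM.ne {q : ℕ} {f : ℕ → ℂ} (hf : RM q f) (hq : 1 ≤ q) (n : ℕ) (hn : 0 < n) : f n ≠ 0 := by
  intro h
  have := hf.pow n hn
  rw [h, zero_pow (by omega)] at this
  exact zero_ne_one this

theorem RM.one {q : ℕ} {f : ℕ → ℂ} (hf : RM q f) (hq : 1 ≤ q) : f 1 = 1 := by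
  have h1 := hf.mul 1 1 one_pos one_pos
  rw [mul_one] at h1
  have h2 := hf.ne hq 1 one_pos
  have h3 : f 1 * 1 = f 1 * f 1 := by rw [mul_one]; exact h1
  exact (mul_left_cancel₀ h2 h3).symm

theorem RM.map_pow {q : ℕ} {f : ℕ → ℂ} (hf : RM q f) (hq : 1 ≤ q) (m : ℕ) (hm : 0 < m) (j : ℕ) :
    f (m ^ j) = f m ^ j := by
  induction j with
  | zero => rw [pow_zero, pow_zero]; exact hf.one hq
  | succ j ih => rw [pow_succ, pow_succ, hf.mul _ _ (by positivity) hm, ih]

theorem RM.qpow {q : ℕ} {f : ℕ → ℂ} (hf : RM q f) (hq : 1 ≤ q) (m k : ℕ) (hm : 0 < m)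
    (hk : 0 < k) : f (m ^ q * k) = f k := by
  rw [hf.mul _ _ (by positivity) hk, hf.map_pow hq m hm, hf.pow m hm, one_mul]

/-- Theorem A for functions. -/
theorem thmA' (q : ℕ) (hq : 1 ≤ q) (ε : ℝ) (hε : 0 < ε) (hε1 : ε ≤ 1 / 4) :
    ∃ c κ : ℝ, 0 < c ∧ c ≤ 1 ∧ 0 < κ ∧ κ ≤ 1 / 8 ∧ ∃ X0 : ℝ, 1 ≤ X0 ∧ ∀ X : ℝ, X0 ≤ X →
      ∀ f : ℕ → ℂ, RM q f → DensE f κ (X ^ (1 / 2 : ℝ)) →
      ∀ S : Finset ℕ, (∀ y ∈ S, X ≤ y ∧ (y : ℝ) ≤ 2 * X ∧
        ∀ n ∈ Ico y (y + ⌈X ^ ε⌉₊), f n = f y) → (S.card : ℝ) ≤ X ^ (1 - c) := by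
  classical
  obtain ⟨c, κ, hc, hκ, hκ8, X0, hX0, h⟩ := thmA q hq ε hε hε1
  set c' := min c 1 with hc'
  have hc'0 : 0 < c' := by positivity
  have hc'1 : c' ≤ 1 := min_le_right _ _
  have hc'c : c' ≤ c := min_le_left _ _
  obtain ⟨X1, hX1⟩ := Filter.eventually_atTop.mp (ev_rpow (c' / 2) q (by positivity))
  refine ⟨c' / 2, κ, by positivity, by linarith, hκ, hκ8, max X0 X1, hX0.trans (le_max_left _ _),
    fun X hX f hf hd S hS => ?_⟩
  have hXX0 : X0 ≤ X := (le_max_left _ _).trans hX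
  have hXX1 : X1 ≤ X := (le_max_right _ _).trans hX
  have hX1' : 1 ≤ X := hX0.trans hXX0
  have hXp : 0 < X := by linarith
  have hpos : ∀ y ∈ S, 0 < y := by
    intro y hy
    have h1 := (hS y hy).1
    have h2 : (0 : ℝ) < y := by linarith
    exact_mod_cast h2
  have hfib : ∀ s ∈ S.image f, (((S.filter (fun y => f y = s)).card : ℕ) : ℝ) ≤ X ^ (1 - c) := by
    intro s _
    apply h X hXX0 (fun k => f k ≠ s) (by
      intro m k hm hk
      rw [hf.qpow hq m k hm hk]) (fun x hx => hd s x hx)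
    intro y hy
    rw [mem_filter] at hy
    obtain ⟨h1, h2, h3⟩ := hS y hy.1
    refine ⟨h1, h2, fun n hn => ?_⟩
    rw [not_not, h3 n hn, hy.2]
  have himg : (S.image f).card ≤ q := by
    have hsub : S.image f ⊆ (Polynomial.nthRoots q (1 : ℂ)).toFinset := by
      intro s hs
      rw [mem_image] at hs
      obtain ⟨y, hy, rfl⟩ := hs
      rw [Multiset.mem_toFinset, Polynomial.mem_nthRoots (by omega)]
      exact hf.pow y (hpos y hy)
    refine (card_le_card hsub).trans ?_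
    exact (Multiset.toFinset_card_le _).trans (Polynomial.card_nthRoots q 1)
  have hcard : (S.card : ℝ) = ∑ s ∈ S.image f, (((S.filter (fun y => f y = s)).card : ℕ) : ℝ) := by
    have := card_eq_sum_card_image f S
    exact_mod_cast this
  rw [hcard]
  have hq0 : (0 : ℝ) ≤ q := Nat.cast_nonneg q
  calc ∑ s ∈ S.image f, (((S.filter (fun y => f y = s)).card : ℕ) : ℝ)
      ≤ ∑ s ∈ S.image f, X ^ (1 - c) := sum_le_sum hfib
    _ = (S.image f).card * X ^ (1 - c) := by rw [sum_const, nsmul_eq_mul]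
    _ ≤ q * X ^ (1 - c) := by
        apply mul_le_mul_of_nonneg_right _ (by positivity)
        exact_mod_cast himg
    _ ≤ X ^ (c' / 2) * X ^ (1 - c') := by
        apply mul_le_mul (hX1 X hXX1) _ (by positivity) (by positivity)
        apply Real.rpow_le_rpow_of_exponent_le hX1'
        linarith
    _ = X ^ (1 - c' / 2) := by
        rw [← Real.rpow_add hXp]
        congr 1
        ring

/-- two constant symmetric windows with the same offset give a period. -/
theorem chainF (q : ℕ) (hq : 1 ≤ q) (f : ℕ → ℂ) (hf : RM q f) (A B k T : ℕ) (hk : 0 < k)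
    (hA : 0 < A) (hTB : T < B) (c c' : ℂ)
    (h1 : ∀ t ≤ T, f (A + t) * f (B - t) = c)
    (h2 : ∀ t ≤ T, f (A + k + t) * f (B + k - t) = c') :
    ∀ u v : ℕ, B - T ≤ u → u ≤ v → v ≤ B → 2 * k * q ∣ v - u → f u = f v := by
  have hc : c ^ q = 1 := by
    rw [← h1 0 (Nat.zero_le _), mul_pow, hf.pow _ (by omega), hf.pow _ (by omega), one_mul]
  have hc' : c' ^ q = 1 := by
    rw [← h2 0 (Nat.zero_le _), mul_pow, hf.pow _ (by omega), hf.pow _ (by omega), one_mul]
  have hc0 : c ≠ 0 := by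
    intro h
    rw [h, zero_pow (by omega)] at hc
    exact zero_ne_one hc
  have step : ∀ y, B - T ≤ y → y + k ≤ B → f (y + 2 * k) = c' / c * f y := by
    intro y hy1 hy2
    have e1 := h1 (B - y) (by omega)
    have e2 := h2 (B - y - k) (by omega)
    rw [show B - (B - y) = y by omega] at e1
    rw [show A + k + (B - y - k) = A + (B - y) by omega,
      show B + k - (B - y - k) = y + 2 * k by omega] at e2
    have h0 := hf.ne hq (A + (B - y)) (by omega)
    rw [div_mul_eq_mul_div, eq_div_iff hc0, ← e1, ← e2]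
    ring
  have iter : ∀ m y : ℕ, B - T ≤ y → y + 2 * k * m ≤ B + k → f (y + 2 * k * m) = (c' / c) ^ m * f y := by
    intro m
    induction m with
    | zero => intro y _ _; simp
    | succ m ih =>
      intro y hy1 hy2
      have e : y + 2 * k * (m + 1) = (y + 2 * k * m) + 2 * k := by ring
      rw [e] at hy2 ⊢
      rw [step (y + 2 * k * m) (by omega) (by omega), ih y hy1 (by omega), pow_succ]
      ring
  intro u v hu huv hv hdvd
  obtain ⟨l, hl⟩ := hdvd
  have e : v = u + 2 * k * (q * l) := by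
    have : 2 * k * q * l = 2 * k * (q * l) := by ring
    omega
  rw [e, iter (q * l) u hu (by rw [← e]; omega)]
  have : (c' / c) ^ (q * l) = 1 := by
    rw [pow_mul, div_pow, hc, hc', div_one, one_pow]
  rw [this, one_mul]

/-- a constant window for `f` itself -/
theorem chain_window (q : ℕ) (hq : 1 ≤ q) (f : ℕ → ℂ) (hf : RM q f) (A B k T L : ℕ) (hk : 0 < k)
    (hA : 0 < A) (hTB : T < B) (c c' : ℂ)
    (h1 : ∀ t ≤ T, f (A + t) * f (B - t) = c)
    (h2 : ∀ t ≤ T, f (A + k + t) * f (B + k - t) = c')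
    (y : ℕ) (hy1 : B - T ≤ 2 * k * q * y) (hy2 : 2 * k * q * (y + L) ≤ B + 2 * k * q) :
    ∀ n ∈ Ico y (y + L), f n = f y := by
  intro n hn
  rw [mem_Ico] at hn
  have hw : 0 < 2 * k * q := by positivity
  have hy0 : 0 < y := by
    rcases Nat.eq_zero_or_pos y with h | h
    · rw [h] at hy1
      omega
    · exact h
  have h3 : 2 * k * q * (n + 1) ≤ 2 * k * q * (y + L) := Nat.mul_le_mul_left _ (by omega)
  have h4 : 2 * k * q * (n + 1) = 2 * k * q * n + 2 * k * q := by ring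
  have h5 := chainF q hq f hf A B k T hk hA hTB c c' h1 h2 (2 * k * q * y) (2 * k * q * n) hy1
    (Nat.mul_le_mul_left _ hn.1) (by omega) (by
      rw [← Nat.mul_sub]
      exact dvd_mul_right _ _)
  rw [hf.mul _ _ hw hy0, hf.mul _ _ hw (by omega)] at h5
  exact (mul_left_cancel₀ (hf.ne hq _ hw) h5).symm

end Pool.Agent.BrE
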