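import Pool.Agent.BrE.Sides

set_option autoImplicit false

/-!
# Consecutive primes
-/

open Finset

namespace Pool.Agent.BrE

open Pool.Agent.MRE (sparse_count)

/-- the prime of index `i` -/
noncomputable def pr (i : ℕ) : ℕ := Nat.nth Nat.Prime i

theorem pr_prime (i : ℕ) : (pr i).Prime := Nat.prime_nth_prime i

theorem pr_strictMono : StrictMono pr := Nat.nth_strictMono Nat.infinite_setOfPred_prime

theorem pr_succ_le (i : ℕ) : pr (i + 1) ≤ 2 * pr i := by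
  have hp : (pr i).Prime := pr_prime i
  obtain ⟨q, hq, h1, h2⟩ := Nat.exists_prime_lt_and_le_two_mul _ hp.ne_zero
  refine le_trans ?_ h2
  by_contra hcon
  rw [not_le] at hcon
  have hqe : pr (Nat.count Nat.Prime q) = q := Nat.nth_count hq
  rw [← hqe] at h1 hcon
  have := pr_strictMono.lt_iff_lt.mp h1
  have := pr_strictMono.lt_iff_lt.mp hcon
  omega

theorem le_pr (i : ℕ) : i ≤ pr i := pr_strictMono.id_le i

/-- few values different from `s` in one of the three windows -/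
def Bad (f : ℕ → ℂ) (ε β : ℝ) (i : ℕ) : Prop := ∃ s : ℂ,
  ((Set.ncard {m : ℕ | (pr (i + 1) : ℝ) ^ 2 - (pr i : ℝ) ^ ε < m ∧
      (m : ℝ) < (pr (i + 1) : ℝ) ^ 2 ∧ f m ≠ s} : ℝ) < (pr i : ℝ) ^ (ε / 4)) ∨
  ((Set.ncard {m : ℕ | (pr i : ℝ) * pr (i + 1) - (pr i : ℝ) ^ ε < m ∧
      (m : ℝ) < (pr i : ℝ) * pr (i + 1) ∧ f m ≠ s} : ℝ) < (pr i : ℝ) ^ (ε / 4)) ∨
  ((Set.ncard {m : ℕ | (pr i : ℝ) ^ 2 + β * pr i < m ∧
      (m : ℝ) < (pr i : ℝ) ^ 2 + β * pr i + (pr i : ℝ) ^ (1 / 2 + ε) ∧ f m ≠ s} : ℝ) <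
    (pr i : ℝ) ^ (ε / 4))

theorem two_scales (φ : ℕ → ℕ) (S : Finset ℕ) (hinj : Set.InjOn φ S) (M C : ℝ) (Q1 Q2 : ℕ → Prop)
    (h1 : ∀ S' : Finset ℕ, (∀ n ∈ S', M ≤ n ∧ (n : ℝ) ≤ 2 * M ∧ Q1 n) → (S'.card : ℝ) ≤ C)
    (h2 : ∀ S' : Finset ℕ, (∀ n ∈ S', 2 * M ≤ n ∧ (n : ℝ) ≤ 2 * (2 * M) ∧ Q2 n) →
      (S'.card : ℝ) ≤ C)
    (hS : ∀ i ∈ S, M ≤ φ i ∧ (φ i : ℝ) ≤ 4 * M ∧ ((φ i : ℝ) ≤ 2 * M → Q1 (φ i)) ∧
      (2 * M ≤ φ i → Q2 (φ i))) : (S.card : ℝ) ≤ 2 * C := by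
  classical
  have hc : (S.image φ).card = S.card := card_image_of_injOn hinj
  rw [← hc]
  have e1 := h1 ((S.image φ).filter (fun n : ℕ => (n : ℝ) ≤ 2 * M)) (by
    intro n hn
    rw [mem_filter, mem_image] at hn
    obtain ⟨⟨i, hi, rfl⟩, h⟩ := hn
    obtain ⟨g1, g2, g3, g4⟩ := hS i hi
    exact ⟨g1, h, g3 h⟩)
  have e2 := h2 ((S.image φ).filter (fun n : ℕ => ¬ (n : ℝ) ≤ 2 * M)) (by
    intro n hn
    rw [mem_filter, mem_image, not_le] at hn
    obtain ⟨⟨i, hi, rfl⟩, h⟩ := hn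
    obtain ⟨g1, g2, g3, g4⟩ := hS i hi
    exact ⟨h.le, by linarith, g4 h.le⟩)
  have e3 := card_filter_add_card_filter_not (s := S.image φ) (fun n : ℕ => (n : ℝ) ≤ 2 * M)
  have e4 : ((S.image φ).card : ℝ) = (((S.image φ).filter (fun n : ℕ => (n : ℝ) ≤ 2 * M)).card : ℝ)
      + (((S.image φ).filter (fun n : ℕ => ¬ (n : ℝ) ≤ 2 * M)).card : ℝ) := by
    exact_mod_cast e3.symm
  linarith

/-- windows are finite -/
theorem win_fin (f : ℕ → ℂ) (s : ℂ) (a b : ℝ) :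
    Set.Finite {m : ℕ | a < m ∧ (m : ℝ) < b ∧ f m ≠ s} := by
  apply Set.Finite.subset (Set.finite_Icc 0 ⌈b⌉₊)
  intro m hm
  obtain ⟨-, h2, -⟩ := hm
  refine ⟨Nat.zero_le _, ?_⟩
  have := Nat.le_ceil b
  have h3 : (m : ℝ) ≤ (⌈b⌉₊ : ℝ) := by linarith
  exact_mod_cast h3

theorem win_mono (f : ℕ → ℂ) (s : ℂ) (a a' b : ℝ) (h : a ≤ a') :
    Set.ncard {m : ℕ | a' < m ∧ (m : ℝ) < b ∧ f m ≠ s} ≤
      Set.ncard {m : ℕ | a < m ∧ (m : ℝ) < b ∧ f m ≠ s} := by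
  apply Set.ncard_le_ncard _ (win_fin f s a b)
  intro m hm
  obtain ⟨h1, h2, h3⟩ := hm
  exact ⟨by linarith, h2, h3⟩

/-- large gaps are rare -/
theorem large_gaps (M : ℝ) (hM : 1 ≤ M) (G : ℕ) (S : Finset ℕ)
    (hS : ∀ i ∈ S, M ≤ pr i ∧ (pr i : ℝ) ≤ 2 * M ∧ 2 * G < pr (i + 1) - pr i) :
    (S.card : ℝ) ≤ M / (2 * G + 1) + 1 := by
  classical
  have hM0 : 0 < M := by linarith
  set a : ℕ := ⌈M⌉₊ with ha
  set b : ℕ := ⌊2 * M⌋₊ with hb
  have haM : M ≤ a := Nat.le_ceil _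
  have hbM : (b : ℝ) ≤ 2 * M := Nat.floor_le (by positivity)
  have hab : a ≤ b := by
    have h1 : (a : ℝ) < M + 1 := Nat.ceil_lt_add_one hM0.le
    have h2 : 2 * M < b + 1 := Nat.lt_floor_add_one _
    have : (a : ℝ) < b + 1 := by linarith
    exact Nat.lt_succ_iff.mp (by exact_mod_cast this)
  have hc : (S.image pr).card = S.card := card_image_of_injective S pr_strictMono.injective
  have h1 := sparse_count (S.image pr) a b (2 * G) (by
    intro n hn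
    rw [mem_image] at hn
    obtain ⟨i, hi, rfl⟩ := hn
    obtain ⟨g1, g2, -⟩ := hS i hi
    exact ⟨Nat.ceil_le.mpr g1, Nat.le_floor g2⟩) (by
    intro n hn k hk1 hk2 hcon
    rw [mem_image] at hn hcon
    obtain ⟨i, hi, rfl⟩ := hn
    obtain ⟨l, hl, hle⟩ := hcon
    obtain ⟨-, -, g3⟩ := hS i hi
    have h2 : i < l := by
      apply pr_strictMono.lt_iff_lt.mp
      omega
    have h3 : pr (i + 1) ≤ pr l := pr_strictMono.monotone h2
    omega)
  rw [hc] at h1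
  have h2 : (2 * G + 1) * S.card + a ≤ b + 2 * G + 1 := by omega
  have h3 : (((2 * G + 1) * S.card + a : ℕ) : ℝ) ≤ ((b + 2 * G + 1 : ℕ) : ℝ) := by exact_mod_cast h2
  push_cast at h3
  have h4 : (S.card : ℝ) ≤ (M + (2 * G + 1)) / (2 * G + 1) := by
    rw [le_div_iff₀ (by positivity)]
    linarith
  have h5 : (M + (2 * (G : ℝ) + 1)) / (2 * G + 1) = M / (2 * G + 1) + 1 := by
    field_simp
  linarith

/-- all bad primes at one scale -/
theorem prime_scale (q : ℕ) (hq : 1 ≤ q) (ε : ℝ) (hε : 0 < ε) (hε1 : ε ≤ 1) :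
    ∃ c κ : ℝ, 0 < c ∧ c ≤ 1 / 2 ∧ 0 < κ ∧ κ ≤ 1 / 8 ∧ ∀ β : ℝ, 0 ≤ β → ∃ M0 : ℝ, 1 ≤ M0 ∧
      ∀ M : ℝ, M0 ≤ M → ∀ f : ℕ → ℂ, RM q f → DensE f κ (M ^ (1 / 4 : ℝ)) →
      ∀ S : Finset ℕ, (∀ i ∈ S, M ≤ pr i ∧ (pr i : ℝ) ≤ 2 * M ∧ Bad f ε β i) →
        (S.card : ℝ) ≤ M ^ (1 - c) := by
  classical
  obtain ⟨c, κ, hc, hc2, hκ, hκ8, hsc⟩ := scale_both q hq ε hε hε1
  set c' : ℝ := min c (ε / 8) with hc'
  have hc'0 : 0 < c' := by positivity
  have hc'c : c' ≤ c := min_le_left _ _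
  have hc'ε : c' ≤ ε / 8 := min_le_right _ _
  refine ⟨c' / 2, κ, by positivity, by linarith, hκ, hκ8, fun β hβ => ?_⟩
  obtain ⟨N0, hN0, hboth⟩ := hsc β hβ
  obtain ⟨N1, hN1⟩ := Filter.eventually_atTop.mp ((ev_rpow (c' / 2) 22 (by positivity)).and
    (Filter.eventually_ge_atTop (3 : ℝ)))
  refine ⟨max N0 N1, hN0.trans (le_max_left _ _), ?_⟩
  intro M hM f hf hd S hS
  have hMN0 : N0 ≤ M := (le_max_left _ _).trans hM
  obtain ⟨h21, hM3⟩ := hN1 M ((le_max_right _ _).trans hM)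
  have hM0 : 0 < M := by linarith
  have hM1 : 1 ≤ M := by linarith
  have hpow : ∀ x y : ℝ, x ≤ y → M ^ x ≤ M ^ y := fun x y hxy =>
    Real.rpow_le_rpow_of_exponent_le hM1 hxy
  obtain ⟨r1, l1⟩ := hboth M hMN0 f hf hd
  obtain ⟨r2, -⟩ := hboth (2 * M) (by linarith) f hf (hd.mono (by
    apply Real.rpow_le_rpow hM0.le (by linarith) (by norm_num)))
  set G : ℕ := ⌊M ^ (ε / 8)⌋₊ with hG
  have hG2 : M ^ (ε / 8) < G + 1 := Nat.lt_floor_add_one _
  have hGG : G ≤ ⌊(2 * M) ^ (ε / 8)⌋₊ := by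
    apply Nat.floor_le_floor
    apply Real.rpow_le_rpow hM0.le (by linarith) (by positivity)
  have hGGr : (G : ℝ) ^ 2 ≤ (⌊(2 * M) ^ (ε / 8)⌋₊ : ℝ) ^ 2 := by
    apply pow_le_pow_left₀ (Nat.cast_nonneg _)
    exact_mod_cast hGG
  set C : ℝ := 4 * M ^ (1 - c) with hC
  have hC1 : 2 * M ^ (1 - c) ≤ C := by
    rw [hC]
    have : 0 < M ^ (1 - c) := by positivity
    linarith
  have hC2 : 2 * (2 * M) ^ (1 - c) ≤ C := by
    rw [hC, Real.mul_rpow (by norm_num) hM0.le]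
    have h1 : (2 : ℝ) ^ (1 - c) ≤ 2 := by
      calc (2 : ℝ) ^ (1 - c) ≤ 2 ^ (1 : ℝ) :=
            Real.rpow_le_rpow_of_exponent_le (by norm_num) (by linarith)
        _ = 2 := Real.rpow_one 2
    have h2 : 0 < M ^ (1 - c) := by positivity
    nlinarith
  have hth : ∀ i ∈ S, (pr i : ℝ) ^ (ε / 4) ≤ (2 * M) ^ (ε / 4) := by
    intro i hi
    exact Real.rpow_le_rpow (Nat.cast_nonneg _) (hS i hi).2.1 (by positivity)
  have hth2 : (2 * M) ^ (ε / 4) ≤ (2 * (2 * M)) ^ (ε / 4) :=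
    Real.rpow_le_rpow (by positivity) (by linarith) (by positivity)
  have hlen1 : ∀ i ∈ S, (M / 2) ^ ε ≤ (pr i : ℝ) ^ ε := by
    intro i hi
    exact Real.rpow_le_rpow (by positivity) (by linarith [(hS i hi).1]) hε.le
  have hlen2 : ∀ i ∈ S, (2 * M / 2) ^ ε ≤ (pr i : ℝ) ^ ε := by
    intro i hi
    exact Real.rpow_le_rpow (by positivity) (by linarith [(hS i hi).1]) hε.le
  -- the four subsets
  set A1 := S.filter (fun i => ∃ s : ℂ,
    (Set.ncard {m : ℕ | (pr (i + 1) : ℝ) ^ 2 - (pr i : ℝ) ^ ε < m ∧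
      (m : ℝ) < (pr (i + 1) : ℝ) ^ 2 ∧ f m ≠ s} : ℝ) < (pr i : ℝ) ^ (ε / 4)) with hA1
  set A2 := S.filter (fun i => 2 * G < pr (i + 1) - pr i) with hA2
  set A3 := S.filter (fun i => pr (i + 1) - pr i ≤ 2 * G ∧ ∃ s : ℂ,
    (Set.ncard {m : ℕ | (pr i : ℝ) * pr (i + 1) - (pr i : ℝ) ^ ε < m ∧
      (m : ℝ) < (pr i : ℝ) * pr (i + 1) ∧ f m ≠ s} : ℝ) < (pr i : ℝ) ^ (ε / 4)) with hA3
  set A4 := S.filter (fun i => ∃ s : ℂ,
    (Set.ncard {m : ℕ | (pr i : ℝ) ^ 2 + β * pr i < m ∧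
      (m : ℝ) < (pr i : ℝ) ^ 2 + β * pr i + (pr i : ℝ) ^ (1 / 2 + ε) ∧ f m ≠ s} : ℝ) <
    (pr i : ℝ) ^ (ε / 4)) with hA4
  have hnext : ∀ i ∈ S, M ≤ pr (i + 1) ∧ (pr (i + 1) : ℝ) ≤ 4 * M ∧ pr i < pr (i + 1) := by
    intro i hi
    obtain ⟨g1, g2, -⟩ := hS i hi
    have h1 : pr i < pr (i + 1) := pr_strictMono (Nat.lt_succ_self i)
    have h2 : (pr i : ℝ) < pr (i + 1) := by exact_mod_cast h1
    have h3 : (pr (i + 1) : ℝ) ≤ 2 * pr i := by exact_mod_cast pr_succ_le i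
    exact ⟨by linarith, by linarith, h1⟩
  have b1 : (A1.card : ℝ) ≤ 2 * C := by
    apply two_scales (fun i => pr (i + 1)) A1 (by
      intro x _ y _ hxy
      have := pr_strictMono.injective hxy
      omega) M C _ _ (fun S' hS' => (r1 S' hS').trans hC1) (fun S' hS' => (r2 S' hS').trans hC2)
    intro i hi
    rw [hA1, mem_filter] at hi
    obtain ⟨hiS, s, hs⟩ := hi
    obtain ⟨g1, g2, g3⟩ := hnext i hiS
    refine ⟨g1, g2, fun _ => ?_, fun _ => ?_⟩
    · refine ⟨(pr (i + 1) : ℝ) ^ 2, ?_, le_rfl, s, ?_⟩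
      · have : (0 : ℝ) ≤ (⌊M ^ (ε / 8)⌋₊ : ℝ) ^ 2 := by positivity
        linarith
      · refine lt_of_le_of_lt ?_ (hs.trans_le (hth i hiS))
        exact Nat.cast_le.mpr (win_mono f s _ _ _ (by linarith [hlen1 i hiS]))
    · refine ⟨(pr (i + 1) : ℝ) ^ 2, ?_, le_rfl, s, ?_⟩
      · have : (0 : ℝ) ≤ (⌊(2 * M) ^ (ε / 8)⌋₊ : ℝ) ^ 2 := by positivity
        linarith
      · refine lt_of_le_of_lt ?_ (hs.trans_le ((hth i hiS).trans hth2))
        exact Nat.cast_le.mpr (win_mono f s _ _ _ (by linarith [hlen2 i hiS]))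
  have b2 : (A2.card : ℝ) ≤ M ^ (1 - ε / 8) + 1 := by
    have h1 := large_gaps M hM1 G A2 (by
      intro i hi
      rw [hA2, mem_filter] at hi
      exact ⟨(hS i hi.1).1, (hS i hi.1).2.1, hi.2⟩)
    refine h1.trans ?_
    have h2 : M / (2 * G + 1) ≤ M ^ (1 - ε / 8) := by
      rw [Real.rpow_sub hM0, Real.rpow_one]
      apply div_le_div_of_nonneg_left hM0.le (by positivity)
      have : 1 ≤ M ^ (ε / 8) := Real.one_le_rpow hM1 (by positivity)
      linarith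
    linarith
  have b3 : (A3.card : ℝ) ≤ 2 * C := by
    have hodd : ∀ i ∈ A3, 2 * ((pr i + pr (i + 1)) / 2) = pr i + pr (i + 1) := by
      intro i hi
      rw [hA3, mem_filter] at hi
      have h1 := (hS i hi.1).1
      have h2 : (2 : ℝ) < pr i := by linarith
      have h3 : 2 < pr i := by exact_mod_cast h2
      have h4 := (hnext i hi.1).2.2
      have o1 := (pr_prime i).odd_of_ne_two (by omega)
      have o2 := (pr_prime (i + 1)).odd_of_ne_two (by omega)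
      have := o1.add_odd o2
      exact Nat.mul_div_cancel' this.two_dvd
    apply two_scales (fun i => (pr i + pr (i + 1)) / 2) A3 (by
      intro x hx y hy hxy
      simp only at hxy
      have hx' := hodd x hx
      have hy' := hodd y hy
      by_contra hne
      rcases lt_or_gt_of_ne hne with h | h
      · have e1 := pr_strictMono h
        have e2 := pr_strictMono (show x + 1 < y + 1 by omega)
        omega
      · have e1 := pr_strictMono h
        have e2 := pr_strictMono (show y + 1 < x + 1 by omega)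
        omega) M C _ _ (fun S' hS' => (r1 S' hS').trans hC1) (fun S' hS' => (r2 S' hS').trans hC2)
    intro i hi
    have hev := hodd i hi
    rw [hA3, mem_filter] at hi
    obtain ⟨hiS, hgap, s, hs⟩ := hi
    obtain ⟨g1, g2, g3⟩ := hnext i hiS
    obtain ⟨k1, k2, -⟩ := hS i hiS
    set n := (pr i + pr (i + 1)) / 2 with hn
    have hnr : 2 * (n : ℝ) = pr i + pr (i + 1) := by exact_mod_cast hev
    have hg3r : (pr i : ℝ) < pr (i + 1) := by exact_mod_cast g3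
    have hgapr : (pr (i + 1) : ℝ) - pr i ≤ 2 * G := by
      have : pr (i + 1) ≤ 2 * G + pr i := by omega
      have : ((pr (i + 1) : ℕ) : ℝ) ≤ 2 * G + pr i := by exact_mod_cast this
      linarith
    have hx : (pr i : ℝ) * pr (i + 1) = (n : ℝ) ^ 2 - (((pr (i + 1) : ℝ) - pr i) / 2) ^ 2 := by
      have : (n : ℝ) = (pr i + pr (i + 1)) / 2 := by linarith
      rw [this]
      ring
    have hsq : (((pr (i + 1) : ℝ) - pr i) / 2) ^ 2 ≤ (G : ℝ) ^ 2 := by
      apply pow_le_pow_left₀ (by linarith)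
      linarith
    have hsq0 : 0 ≤ (((pr (i + 1) : ℝ) - pr i) / 2) ^ 2 := by positivity
    refine ⟨?_, ?_, fun _ => ?_, fun _ => ?_⟩
    · show M ≤ (n : ℝ)
      linarith
    · show (n : ℝ) ≤ 4 * M
      linarith
    · refine ⟨(pr i : ℝ) * pr (i + 1), ?_, ?_, s, ?_⟩
      · show (n : ℝ) ^ 2 - _ ≤ _
        rw [hx]
        linarith
      · show _ ≤ (n : ℝ) ^ 2
        rw [hx]
        linarith
      · refine lt_of_le_of_lt ?_ (hs.trans_le (hth i hiS))
        exact Nat.cast_le.mpr (win_mono f s _ _ _ (by linarith [hlen1 i hiS]))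
    · refine ⟨(pr i : ℝ) * pr (i + 1), ?_, ?_, s, ?_⟩
      · show (n : ℝ) ^ 2 - _ ≤ _
        rw [hx]
        linarith
      · show _ ≤ (n : ℝ) ^ 2
        rw [hx]
        linarith
      · refine lt_of_le_of_lt ?_ (hs.trans_le ((hth i hiS).trans hth2))
        exact Nat.cast_le.mpr (win_mono f s _ _ _ (by linarith [hlen2 i hiS]))
  have b4 : (A4.card : ℝ) ≤ C := by
    have hc : (A4.image pr).card = A4.card := card_image_of_injective A4 pr_strictMono.injective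
    rw [← hc]
    refine (l1 (A4.image pr) ?_).trans hC1
    intro n hn
    rw [mem_image] at hn
    obtain ⟨i, hi, rfl⟩ := hn
    rw [hA4, mem_filter] at hi
    obtain ⟨hiS, s, hs⟩ := hi
    obtain ⟨k1, k2, -⟩ := hS i hiS
    exact ⟨k1, k2, s, hs.trans_le (hth i hiS)⟩
  have hcov : S ⊆ ((A1 ∪ A2) ∪ A3) ∪ A4 := by
    intro i hi
    obtain ⟨-, -, s, hs⟩ := hS i hi
    rw [mem_union, mem_union, mem_union]
    rcases hs with h | h | h
    · left; left; left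
      rw [hA1, mem_filter]
      exact ⟨hi, s, h⟩
    · by_cases hg : 2 * G < pr (i + 1) - pr i
      · left; left; right
        rw [hA2, mem_filter]
        exact ⟨hi, hg⟩
      · left; right
        rw [hA3, mem_filter]
        exact ⟨hi, by omega, s, h⟩
    · right
      rw [hA4, mem_filter]
      exact ⟨hi, s, h⟩
  have hle := (card_le_card hcov).trans ((card_union_le _ _).trans (Nat.add_le_add_right
    ((card_union_le _ _).trans (Nat.add_le_add_right (card_union_le _ _) _)) _))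
  have hle' : (S.card : ℝ) ≤ (A1.card : ℝ) + A2.card + A3.card + A4.card := by exact_mod_cast hle
  have e1 : M ^ (1 - c) ≤ M ^ (1 - c') := hpow _ _ (by linarith)
  have e2 : M ^ (1 - ε / 8) ≤ M ^ (1 - c') := hpow _ _ (by linarith)
  have e3 : 1 ≤ M ^ (1 - c') := Real.one_le_rpow hM1 (by linarith)
  calc (S.card : ℝ) ≤ 21 * M ^ (1 - c') + M ^ (1 - c') := by
        rw [hC] at b1 b3 b4
        linarith
    _ = 22 * M ^ (1 - c') := by ring
    _ ≤ M ^ (c' / 2) * M ^ (1 - c') := mul_le_mul_of_nonneg_right h21 (by positivity)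
    _ = M ^ (1 - c' / 2) := by
        rw [← Real.rpow_add hM0]
        congr 1
        ring

/-- from scales to an initial segment -/
theorem dyad (g : ℕ → ℕ) (hg : ∀ i, i ≤ g i) (P : ℕ → Prop) (N C : ℝ) (hN : 4 ≤ N) (hC : 0 ≤ C)
    (h : ∀ M : ℝ, √N / 2 ≤ M → M ≤ N → ∀ S : Finset ℕ,
      (∀ i ∈ S, M ≤ g i ∧ (g i : ℝ) ≤ 2 * M ∧ P i) → (S.card : ℝ) ≤ C)
    (S : Finset ℕ) (hS : ∀ i ∈ S, (g i : ℝ) ≤ N ∧ P i) :
    (S.card : ℝ) ≤ (Real.log N + 1) * C + √N + 1 := by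
  classical
  have hN0 : 0 < N := by linarith
  have hind : ∀ k : ℕ, √N / 2 ≤ N / 2 ^ k → ∀ S : Finset ℕ,
      (∀ i ∈ S, N / 2 ^ k < g i ∧ (g i : ℝ) ≤ N ∧ P i) → (S.card : ℝ) ≤ k * C := by
    intro k
    induction k with
    | zero =>
      intro _ S hS
      have : S = ∅ := by
        rw [Finset.eq_empty_iff_forall_notMem]
        intro i hi
        obtain ⟨g1, g2, -⟩ := hS i hi
        rw [pow_zero, div_one] at g1
        linarith
      rw [this]
      simp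
    | succ k ih =>
      intro hk S hS
      have hk0 : (0 : ℝ) < 2 ^ k := by positivity
      have e0 : N / 2 ^ k = 2 * (N / 2 ^ (k + 1)) := by
        rw [pow_succ]
        field_simp
      have hpos : 0 < N / 2 ^ (k + 1) := by positivity
      have h1 := ih (by linarith) (S.filter (fun i => N / 2 ^ k < (g i : ℝ))) (by
        intro i hi
        rw [mem_filter] at hi
        obtain ⟨g1, g2, g3⟩ := hS i hi.1
        exact ⟨hi.2, g2, g3⟩)
      have h2 := h (N / 2 ^ (k + 1)) hk (by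
        apply div_le_self hN0.le
        exact one_le_pow₀ (by norm_num)) (S.filter (fun i => ¬ N / 2 ^ k < (g i : ℝ))) (by
        intro i hi
        rw [mem_filter, not_lt] at hi
        obtain ⟨g1, g2, g3⟩ := hS i hi.1
        exact ⟨g1.le, by linarith [hi.2], g3⟩)
      have h3 := card_filter_add_card_filter_not (s := S) (fun i => N / 2 ^ k < (g i : ℝ))
      have h4 : (S.card : ℝ) = ((S.filter (fun i => N / 2 ^ k < (g i : ℝ))).card : ℝ)
          + ((S.filter (fun i => ¬ N / 2 ^ k < (g i : ℝ))).card : ℝ) := by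
        exact_mod_cast h3.symm
      rw [h4]
      push_cast
      linarith
  have hs0 : 0 < √N := Real.sqrt_pos.mpr hN0
  have hss : √N * √N = N := Real.mul_self_sqrt hN0.le
  have hs2 : 2 ≤ √N := by
    apply Real.le_sqrt_of_sq_le
    linarith
  have hex : ∃ k : ℕ, √N ≤ 2 ^ k := by
    obtain ⟨k, hk⟩ := pow_unbounded_of_one_lt √N (show (1 : ℝ) < 2 by norm_num)
    exact ⟨k, hk.le⟩
  set k := Nat.find hex with hk
  have hk1 : √N ≤ 2 ^ k := Nat.find_spec hex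
  have hkpos : 0 < k := by
    rcases Nat.eq_zero_or_pos k with h0 | h0
    · rw [h0, pow_zero] at hk1
      linarith
    · exact h0
  have hk2 : (2 : ℝ) ^ (k - 1) < √N := by
    have := Nat.find_min hex (show k - 1 < k by omega)
    rw [not_le] at this
    exact this
  have hk3 : (2 : ℝ) ^ k < 2 * √N := by
    have e : k = (k - 1) + 1 := by omega
    rw [e, pow_succ]
    linarith
  have hk0 : (0 : ℝ) < 2 ^ k := by positivity
  have hlow : √N / 2 ≤ N / 2 ^ k := by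
    rw [div_le_div_iff₀ (by norm_num) hk0]
    nlinarith
  have hup : N / 2 ^ k ≤ √N := by
    rw [div_le_iff₀ hk0]
    nlinarith
  have hklog : (k : ℝ) ≤ Real.log N + 1 := by
    have h1 : Real.log ((2 : ℝ) ^ (k - 1)) ≤ Real.log √N := Real.log_le_log (by positivity) hk2.le
    rw [Real.log_pow, Real.log_sqrt hN0.le] at h1
    have h2 : (0.5 : ℝ) < Real.log 2 := by
      have := Real.log_two_gt_d9
      linarith
    have h3 : (0 : ℝ) ≤ ((k - 1 : ℕ) : ℝ) := Nat.cast_nonneg _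
    have h4 : ((k - 1 : ℕ) : ℝ) = k - 1 := by
      rw [Nat.cast_sub hkpos]
      push_cast
      ring
    rw [h4] at h1 h3
    nlinarith
  have h1 := hind k hlow (S.filter (fun i => N / 2 ^ k < (g i : ℝ))) (by
    intro i hi
    rw [mem_filter] at hi
    obtain ⟨g1, g2⟩ := hS i hi.1
    exact ⟨hi.2, g1, g2⟩)
  have h2 : ((S.filter (fun i => ¬ N / 2 ^ k < (g i : ℝ))).card : ℝ) ≤ √N + 1 := by
    have hsub : S.filter (fun i => ¬ N / 2 ^ k < (g i : ℝ)) ⊆ range (⌊√N⌋₊ + 1) := by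
      intro i hi
      rw [mem_filter, not_lt] at hi
      rw [mem_range, Nat.lt_succ_iff]
      apply Nat.le_floor
      have : (i : ℝ) ≤ g i := by exact_mod_cast hg i
      linarith [hi.2]
    have h3 := card_le_card hsub
    rw [card_range] at h3
    have h4 := Nat.floor_le hs0.le
    have h5 : ((S.filter (fun i => ¬ N / 2 ^ k < (g i : ℝ))).card : ℝ) ≤ (⌊√N⌋₊ : ℝ) + 1 := by
      exact_mod_cast h3
    linarith
  have h3 := card_filter_add_card_filter_not (s := S) (fun i => N / 2 ^ k < (g i : ℝ))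
  have h4 : (S.card : ℝ) = ((S.filter (fun i => N / 2 ^ k < (g i : ℝ))).card : ℝ)
      + ((S.filter (fun i => ¬ N / 2 ^ k < (g i : ℝ))).card : ℝ) := by
    exact_mod_cast h3.symm
  have h5 : (k : ℝ) * C ≤ (Real.log N + 1) * C := mul_le_mul_of_nonneg_right hklog hC
  rw [h4]
  linarith

/-- few bad primes -/
theorem fin (q : ℕ) (hq : 1 ≤ q) (ε : ℝ) (hε : 0 < ε) (hε1 : ε ≤ 1) :
    ∃ c κ : ℝ, 0 < c ∧ c ≤ 1 / 2 ∧ 0 < κ ∧ κ ≤ 1 / 8 ∧ ∀ β : ℝ, 0 ≤ β → ∃ N0 : ℝ, 1 ≤ N0 ∧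
      ∀ N : ℝ, N0 ≤ N → ∀ f : ℕ → ℂ, RM q f → DensE f κ (N ^ (1 / 10 : ℝ)) →
      ∀ S : Finset ℕ, (∀ i ∈ S, (pr i : ℝ) ≤ N ∧ Bad f ε β i) → (S.card : ℝ) ≤ N ^ (1 - c) := by
  obtain ⟨c, κ, hc, hc2, hκ, hκ8, hsc⟩ := prime_scale q hq ε hε hε1
  refine ⟨c / 2, κ, by positivity, by linarith, hκ, hκ8, fun β hβ => ?_⟩
  obtain ⟨M0, hM0, hps⟩ := hsc β hβ
  obtain ⟨N1, hN1⟩ := Filter.eventually_atTop.mp ((ev_log 1 (c / 2) 1 (by positivity)
    (by norm_num)).and (((ev_rpow (1 / 2) (2 * M0) (by norm_num)).and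
    (ev_rpow (1 / 10) 2 (by norm_num))).and (Filter.eventually_ge_atTop (1000 : ℝ))))
  refine ⟨max N1 1, le_max_right _ _, ?_⟩
  intro N hN f hf hd S hS
  obtain ⟨k1, ⟨k2, k3⟩, k4⟩ := hN1 N ((le_max_left _ _).trans hN)
  have hN0 : 0 < N := by linarith
  have hNge1 : 1 ≤ N := by linarith
  rw [one_mul, pow_one] at k1
  have hsq : √N = N ^ (1 / 2 : ℝ) := Real.sqrt_eq_rpow N
  have h1 := dyad pr le_pr (Bad f ε β) N (N ^ (1 - c)) (by linarith) (by positivity) (by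
    intro M hM1 hM2 S' hS'
    have hMM0 : M0 ≤ M := by
      rw [hsq] at hM1
      linarith
    have hMp : 0 < M := by linarith
    have hd' : DensE f κ (M ^ (1 / 4 : ℝ)) := by
      apply hd.mono
      have e1 : N ^ (2 / 5 : ℝ) ≤ M := by
        refine le_trans ?_ hM1
        rw [hsq, le_div_iff₀ (by norm_num)]
        calc N ^ (2 / 5 : ℝ) * 2 ≤ N ^ (2 / 5 : ℝ) * N ^ (1 / 10 : ℝ) := by gcongr
          _ = N ^ (1 / 2 : ℝ) := by
              rw [← Real.rpow_add hN0]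
              norm_num
      calc N ^ (1 / 10 : ℝ) = (N ^ (2 / 5 : ℝ)) ^ (1 / 4 : ℝ) := by
            rw [← Real.rpow_mul hN0.le]
            norm_num
        _ ≤ M ^ (1 / 4 : ℝ) := Real.rpow_le_rpow (by positivity) e1 (by norm_num)
    refine (hps M hMM0 f hf hd' S' hS').trans ?_
    exact Real.rpow_le_rpow hMp.le hM2 (by linarith)) S hS
  refine h1.trans ?_
  have e1 : √N ≤ N ^ (1 - c) := by
    rw [hsq]
    exact Real.rpow_le_rpow_of_exponent_le hNge1 (by linarith)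
  have e2 : 1 ≤ N ^ (1 - c) := Real.one_le_rpow hNge1 (by linarith)
  have e3 : (3 : ℝ) ≤ Real.log N := by
    have h2 : Real.exp 1 < 2.7182818286 := Real.exp_one_lt_d9
    have h3 : Real.exp 3 ≤ N := by
      have h4 : Real.exp 3 = Real.exp 1 ^ 3 := by
        rw [← Real.exp_nat_mul]
        norm_num
      rw [h4]
      have h5 : Real.exp 1 ^ 3 ≤ 2.7182818286 ^ 3 :=
        pow_le_pow_left₀ (Real.exp_pos 1).le h2.le 3
      have h6 : (2.7182818286 : ℝ) ^ 3 ≤ 1000 := by norm_num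
      linarith
    calc (3 : ℝ) = Real.log (Real.exp 3) := (Real.log_exp 3).symm
      _ ≤ Real.log N := Real.log_le_log (Real.exp_pos 3) h3
  calc (Real.log N + 1) * N ^ (1 - c) + √N + 1
      ≤ (Real.log N + 1) * N ^ (1 - c) + N ^ (1 - c) + N ^ (1 - c) := by linarith
    _ = (Real.log N + 3) * N ^ (1 - c) := by ring
    _ ≤ N ^ (c / 2) * N ^ (1 - c) := by
        apply mul_le_mul_of_nonneg_right _ (by positivity)
        linarith
    _ = N ^ (1 - c / 2) := by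
        rw [← Real.rpow_add hN0]
        congr 1
        ring

end Pool.Agent.BrE
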