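import Pool.Agent.BrE.GWin
import Pool.Agent.BrE.Fin

set_option autoImplicit false

/-!
# A non-trivial function is not constant too often in square-root windows
-/

open Finset

namespace Pool.Agent.BrE

theorem dens (q : ℕ) (hq : 1 ≤ q) (κ : ℝ) (hκ : 0 < κ) (hκ8 : κ ≤ 1 / 8) :
    ∃ X0 : ℝ, 1 ≤ X0 ∧ ∀ X : ℝ, X0 ≤ X → ∀ f : ℕ → ℂ, RM q f → ∀ r : ℕ, 1 ≤ r →
      (r : ℝ) ≤ X ^ (κ / 2) → f r ≠ 1 → DensE f κ X := by
  obtain ⟨x0, hx0, hint⟩ := ginterval q hq (c := 4) (ε := κ / 2) (by norm_num) (by positivity)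
    (by linarith)
  refine ⟨x0, hx0, ?_⟩
  intro X hX f hf r hr hrX hfr s x hx
  have hX1 : 1 ≤ X := hx0.trans hX
  have hx1 : 1 ≤ x := hX1.trans hx
  have hxpos : 0 < x := by linarith
  have hr0 : (0 : ℝ) < r := by exact_mod_cast hr
  have hrx : (r : ℝ) ≤ x ^ (κ / 2) :=
    hrX.trans (Real.rpow_le_rpow (by linarith) hx (by positivity))
  have h1 := hint x (hX.trans hx) f hf r hr hfr (hrx.trans
    (Real.rpow_le_rpow_of_exponent_le hx1 (by linarith))) s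
  have h2 : x ^ (1 / 2 - κ) ≤ x ^ (1 / 2 - κ / 2) / r := by
    rw [le_div_iff₀ hr0]
    calc x ^ (1 / 2 - κ) * r ≤ x ^ (1 / 2 - κ) * x ^ (κ / 2) := by gcongr
      _ = x ^ (1 / 2 - κ / 2) := by
          rw [← Real.rpow_add hxpos]
          congr 1
          ring
  refine h2.trans (h1.trans ?_)
  have h3 : ((valSet f x 4 s : Finset ℕ) : Set ℕ) ⊆
      {k : ℕ | x < k ∧ (k : ℝ) ≤ x + 4 * √x ∧ f k ≠ s} := by
    intro m hm
    rw [valSet, mem_coe, mem_filter, mem_Icc] at hm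
    refine ⟨hm.2.1, ?_, hm.2.2⟩
    exact (by exact_mod_cast hm.1.2 : (m : ℝ) ≤ (⌊x + 4 * √x⌋₊ : ℕ)).trans
      (Nat.floor_le (by positivity))
  have h4 : Set.Finite {k : ℕ | x < k ∧ (k : ℝ) ≤ x + 4 * √x ∧ f k ≠ s} := by
    apply Set.Finite.subset (Set.finite_Icc 0 ⌊x + 4 * √x⌋₊)
    intro m hm
    exact ⟨Nat.zero_le _, Nat.le_floor hm.2.1⟩
  have h5 := Set.ncard_le_ncard h3 h4
  rw [Set.ncard_coe_finset] at h5
  exact_mod_cast h5

end Pool.Agent.BrE
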