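import Mathlib

set_option autoImplicit false

/-!
# Inequalities valid for large `X`
-/

open Filter

namespace Pool.Agent.BrE

theorem ev_log (n : ℕ) (s C : ℝ) (hs : 0 < s) (hC : 0 < C) :
    ∀ᶠ X : ℝ in atTop, C * (2 * Real.log X) ^ n ≤ X ^ s := by
  have h := (isLittleO_log_rpow_rpow_atTop (n : ℝ) hs).bound
    (show 0 < 1 / (C * 2 ^ n) by positivity)
  filter_upwards [h, eventually_ge_atTop (1 : ℝ)] with X hX hX1
  have hl : 0 ≤ Real.log X := Real.log_nonneg hX1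
  rw [Real.norm_of_nonneg (by positivity), Real.norm_of_nonneg (by positivity),
    Real.rpow_natCast] at hX
  rw [one_div, inv_mul_eq_div, le_div_iff₀ (by positivity)] at hX
  calc C * (2 * Real.log X) ^ n = Real.log X ^ n * (C * 2 ^ n) := by rw [mul_pow]; ring
    _ ≤ _ := hX

theorem ev_rpow (s C : ℝ) (hs : 0 < s) : ∀ᶠ X : ℝ in atTop, C ≤ X ^ s :=
  (tendsto_rpow_atTop hs).eventually_ge_atTop C

theorem ev_exp (ε C : ℝ) (hε : 0 < ε) (hC : 0 < C) :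
    ∀ᶠ X : ℝ in atTop, C * X ^ 3 * Real.exp (-X ^ ε / 288) ≤ 1 := by
  have h1 := tendsto_rpow_mul_exp_neg_mul_atTop_nhds_zero (3 / ε) (1 / 288) (by norm_num)
  have h2 := h1.comp (tendsto_rpow_atTop hε)
  have h3 := h2.eventually (gt_mem_nhds (show (0 : ℝ) < 1 / C by positivity))
  filter_upwards [h3, eventually_ge_atTop (1 : ℝ)] with X hX hX1
  simp only [Function.comp] at hX
  rw [← Real.rpow_mul (by linarith), mul_div_cancel₀ _ hε.ne'] at hX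
  have e : X ^ (3 : ℝ) = X ^ (3 : ℕ) := by
    rw [← Real.rpow_natCast]
    norm_num
  rw [e] at hX
  have e2 : -(1 / 288) * X ^ ε = -X ^ ε / 288 := by ring
  rw [e2] at hX
  rw [lt_div_iff₀ hC] at hX
  linarith

/-- all the conditions on `X` -/
theorem params (q : ℕ) (hq : 1 ≤ q) (ε η : ℝ) (hε : 0 < ε) (hε1 : ε ≤ 1 / 4) (hη : 0 < η) :
    ∀ᶠ X : ℝ in atTop, 65536 ≤ X ∧ 8 ≤ X ^ (ε / (8 * q)) ∧ 100 ≤ X ^ ε ∧
      (4 * X ^ (ε / (8 * q))) ^ q ≤ X ^ (1 / 2 : ℝ) ∧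
      32 * X ^ 3 * Real.exp (-X ^ ε / 288) ≤ 1 / 2 ∧
      (8 * 4 * 64 * 640 * 256 * 16 ^ q) ≤ X ^ (η * (ε / (8 * q)) / 2) := by
  have hqr : (1 : ℝ) ≤ q := by exact_mod_cast hq
  have hδ : 0 < ε / (8 * q) := by positivity
  have h4 : ∀ᶠ X : ℝ in atTop, (4 * X ^ (ε / (8 * q))) ^ q ≤ X ^ (1 / 2 : ℝ) := by
    filter_upwards [ev_rpow (1 / 2 - ε / 8) (4 ^ q) (by linarith), eventually_ge_atTop (1 : ℝ)]
      with X h1 h2
    have hX : 0 < X := by linarith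
    rw [mul_pow, ← Real.rpow_natCast (X ^ (ε / (8 * q))) q, ← Real.rpow_mul hX.le]
    have e : ε / (8 * q) * q = ε / 8 := by
      field_simp
    rw [e]
    calc 4 ^ q * X ^ (ε / 8) ≤ X ^ (1 / 2 - ε / 8) * X ^ (ε / 8) := by gcongr
      _ = X ^ (1 / 2 : ℝ) := by
          rw [← Real.rpow_add hX]
          congr 1
          ring
  filter_upwards [eventually_ge_atTop (65536 : ℝ), ev_rpow (ε / (8 * q)) 8 hδ, ev_rpow ε 100 hε, h4,
    ev_exp ε 64 hε (by norm_num),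
    ev_rpow (η * (ε / (8 * q)) / 2) (8 * 4 * 64 * 640 * 256 * 16 ^ q) (by positivity)]
    with X g1 g2 g3 g4 g7 g8
  refine ⟨g1, g2, g3, g4, ?_, g8⟩
  linarith

end Pool.Agent.BrE
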