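import Pool.Agent.BrE.Cst
import Pool.Agent.SqrtParity.Chain

set_option autoImplicit false

/-!
# Changes of completely multiplicative functions whose values are roots of unity
(adapted from SqrtParity.Chain)
-/

namespace Pool.Agent.BrE

open Real
open Pool.Agent.SqrtParity (lsum lsum_nil lsum_cons lsum_append lsum_swap tprod_cons St
  tprod_bounds log_tprod Ok IsL approx)

/-- no sign change in the window around `x` -/
def Clean (f : ℕ → ℂ) (η x : ℝ) : Prop :=
  ∀ s : ℕ, x * (1 - η) ≤ s → (s : ℝ) ≤ x * (1 + η) → f s = f (s + 1)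

theorem Clean.const {f : ℕ → ℂ} {η x : ℝ} (h : Clean f η x) {m : ℕ} (hm : x * (1 - η) ≤ m) :
    ∀ d : ℕ, ((m + d : ℕ) : ℝ) ≤ x * (1 + η) → f m = f (m + d) := by
  intro d
  induction d with
  | zero => intro _; rfl
  | succ d ih =>
    intro hd
    have h1 : ((m + d : ℕ) : ℝ) ≤ x * (1 + η) := le_trans (by push_cast; linarith) hd
    rw [ih h1]
    have := h (m + d) (by push_cast; linarith [(Nat.cast_nonneg d : (0 : ℝ) ≤ d)]) h1
    rw [this]; rfl

theorem Clean.eq {f : ℕ → ℂ} {η x : ℝ} (h : Clean f η x) {m m' : ℕ} (hm : x * (1 - η) ≤ m)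
    (hm2 : (m : ℝ) ≤ x * (1 + η)) (hm' : x * (1 - η) ≤ m') (hm2' : (m' : ℝ) ≤ x * (1 + η)) :
    f m = f m' := by
  rcases le_total m m' with h1 | h1
  · obtain ⟨d, rfl⟩ := Nat.exists_eq_add_of_le h1
    exact h.const hm d hm2'
  · obtain ⟨d, rfl⟩ := Nat.exists_eq_add_of_le h1
    exact (h.const hm' d hm2).symm

theorem clean_step {f : ℕ → ℂ} {q : ℕ} (hq : 1 ≤ q) (hf : RM q f) {η x : ℝ} (hη : η ≤ 1) (hη0 : 0 < η) {a b : ℕ}
    (ha : 1 ≤ a) (hb : 1 ≤ b) (hbx : (b : ℝ) ≤ η * x) (h1 : Clean f η x)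
    (h2 : Clean f η (x * (a / b))) :
    f ⌊x * (a / b)⌋₊ = f a / f b * f ⌊x⌋₊ := by
  have hb0 : (0 : ℝ) < b := by exact_mod_cast hb
  have hb1 : (1 : ℝ) ≤ b := by exact_mod_cast hb
  have ha1 : (1 : ℝ) ≤ a := by exact_mod_cast ha
  have hx0 : 0 < x := by
    by_contra hx
    push Not at hx
    nlinarith
  have hbx' : (b : ℝ) ≤ x := by nlinarith
  obtain ⟨w, hw⟩ : ∃ w : ℕ, w = ⌊x / b⌋₊ := ⟨_, rfl⟩
  have hw1 : (w : ℝ) ≤ x / b := by rw [hw]; exact Nat.floor_le (by positivity)
  have hw2 : x / b < w + 1 := by rw [hw]; exact Nat.lt_floor_add_one _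
  have hw3 : 1 ≤ w := by
    rw [hw]; apply Nat.le_floor; rw [Nat.cast_one, le_div_iff₀ hb0]; linarith
  have hwb : (b * w : ℕ) ≤ x := by
    push_cast
    rw [le_div_iff₀ hb0] at hw1; linarith
  have hwb2 : x - b < (b * w : ℕ) := by
    push_cast
    rw [div_lt_iff₀ hb0] at hw2; linarith
  have hwa : ((a * w : ℕ) : ℝ) ≤ x * (a / b) := by
    push_cast
    calc (a : ℝ) * w ≤ a * (x / b) := by gcongr
      _ = _ := by ring
  have hwa2 : x * (a / b) - a < (a * w : ℕ) := by
    push_cast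
    have : (a : ℝ) * (x / b) < a * (w + 1) := by gcongr
    have e : x * ((a : ℝ) / b) = a * (x / b) := by ring
    rw [e]; linarith
  -- windows
  have e1 : x * (a / b) * (1 - η) ≤ x * (a / b) - a := by
    have : (a : ℝ) ≤ x * (a / b) * η := by
      have : x * (a / b) * η = a * ((η * x) / b) := by ring
      rw [this]
      have h3 : 1 ≤ η * x / b := by rw [le_div_iff₀ hb0]; linarith
      nlinarith
    linarith
  have hxa : 0 < x * (a / b) := by positivity
  have k1 : f ⌊x⌋₊ = f (b * w) := by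
    apply h1.eq
    · have := Nat.lt_floor_add_one x
      linarith
    · have := Nat.floor_le hx0.le
      nlinarith
    · linarith
    · nlinarith
  have k2 : f ⌊x * (a / b)⌋₊ = f (a * w) := by
    apply h2.eq
    · have := Nat.lt_floor_add_one (x * ((a : ℝ) / b))
      linarith
    · have := Nat.floor_le hxa.le
      nlinarith
    · linarith
    · nlinarith
  rw [k1, k2, hf.mul a w ha hw3, hf.mul b w hb hw3]
  have := hf.ne hq b hb
  field_simp

/-- product of the values -/
noncomputable def sprod (f : ℕ → ℂ) (l : List (ℕ × ℕ)) : ℂ := (l.map (fun v => f v.1 / f v.2)).prod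

theorem sprod_cons (f : ℕ → ℂ) (v : ℕ × ℕ) (l : List (ℕ × ℕ)) :
    sprod f (v :: l) = f v.1 / f v.2 * sprod f l := by simp [sprod]

theorem sprod_append (f : ℕ → ℂ) (l l' : List (ℕ × ℕ)) :
    sprod f (l ++ l') = sprod f l * sprod f l' := by simp [sprod]

theorem gchain {f : ℕ → ℂ} {q : ℕ} (hq : 1 ≤ q) (hf : RM q f) {η D : ℝ} (hη : η ≤ 1) (hη0 : 0 < η)
    (hD : 0 ≤ D) : ∀ (l : List (ℕ × ℕ)) (x : ℝ), 0 < x → (∀ v ∈ l, St D v) →
    4 ^ l.length * D ≤ η * x →
    (∀ l' ∈ l.inits, Clean f η (x * SqrtParity.tprod l')) →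
    f ⌊x * SqrtParity.tprod l⌋₊ = sprod f l * f ⌊x⌋₊ := by
  intro l
  induction l with
  | nil => intro x _ _ _ _; simp [SqrtParity.tprod, sprod]
  | cons v l ih =>
    intro x hx0 hl hx hcl
    have hv := hl v List.mem_cons_self
    obtain ⟨hr1, hr2⟩ := hv.ratio
    have hc1 : Clean f η x := by
      have := hcl [] (by simp)
      simpa [SqrtParity.tprod] using this
    have hc2 : ∀ l' ∈ l.inits, Clean f η (x * (v.1 / v.2) * SqrtParity.tprod l') := by
      intro l' hl'
      have := hcl (v :: l') (by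
        rw [List.mem_inits] at hl' ⊢
        exact List.cons_prefix_cons.2 ⟨rfl, hl'⟩)
      rw [tprod_cons] at this
      rw [mul_assoc]; exact this
    have hc3 : Clean f η (x * (v.1 / v.2)) := by
      have := hc2 [] (by simp)
      simpa [SqrtParity.tprod] using this
    rw [List.length_cons, pow_succ] at hx
    have hpow : (1 : ℝ) ≤ 4 ^ l.length := one_le_pow₀ (by norm_num)
    have hb : (v.2 : ℝ) ≤ η * x := by
      calc (v.2 : ℝ) ≤ D := hv.2.2.2.2
        _ ≤ 4 ^ l.length * 4 * D := by nlinarith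
        _ ≤ _ := hx
    have h1 := clean_step hq hf hη hη0 hv.1 hv.2.1 hb hc1 hc3
    have h2 := ih (x * (v.1 / v.2)) (by positivity) (fun w hw => hl w (List.mem_cons_of_mem _ hw))
      (by
        calc 4 ^ l.length * D = (4 ^ l.length * 4 * D) * (1 / 4) := by ring
          _ ≤ η * x * (1 / 4) := by gcongr
          _ ≤ η * x * (v.1 / v.2) := by gcongr
          _ = _ := by ring) hc2
    rw [tprod_cons, sprod_cons, ← mul_assoc x, h2, h1]
    ring

/-- the closing step -/
theorem gchain_close {f : ℕ → ℂ} {q : ℕ} (hq : 1 ≤ q) (hf : RM q f) {η D : ℝ} (hη : η ≤ 1) (hη0 : 0 < η)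
    (hD : 1 ≤ D) (l : List (ℕ × ℕ)) (n : ℕ) (hn : 1 ≤ n) (hl : ∀ v ∈ l, St D v)
    (hx : 4 ^ l.length * D ≤ η * n) (hlog : |lsum l| ≤ η / 4) (hs : sprod f l ≠ 1) :
    ∃ l' ∈ l.inits, ¬ Clean f η (n * SqrtParity.tprod l') := by
  by_contra hcon
  push Not at hcon
  have hn0 : (0 : ℝ) < n := by exact_mod_cast hn
  have h1 := gchain hq hf hη hη0 (by linarith) l n hn0 hl hx hcon
  rw [Nat.floor_natCast] at h1
  have h2 := hcon l (by rw [List.mem_inits])
  have hT0 : 0 < SqrtParity.tprod l := lt_of_lt_of_le (by positivity) (tprod_bounds l hl).1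
  have hT : SqrtParity.tprod l = Real.exp (lsum l) := by rw [← log_tprod l hl, Real.exp_log hT0]
  rw [abs_le] at hlog
  have hT1 : SqrtParity.tprod l ≤ 1 + η / 2 := by
    rw [hT]
    have h3 : Real.exp (lsum l) ≤ Real.exp (η / 4) := Real.exp_le_exp.2 hlog.2
    have h4 := Real.exp_bound' (x := η / 4) (by positivity) (by linarith) (n := 1) (by norm_num)
    simp at h4
    linarith
  have hT2 : 1 - η / 4 ≤ SqrtParity.tprod l := by
    rw [hT]
    have := Real.add_one_le_exp (lsum l)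
    linarith
  have h3 : f n = f ⌊n * SqrtParity.tprod l⌋₊ := by
    apply h2.eq
    · calc n * SqrtParity.tprod l * (1 - η) ≤ n * (1 + η / 2) * (1 - η) := by gcongr
        _ ≤ n := by nlinarith [mul_pos hn0 hη0]
    · calc (n : ℝ) ≤ n * (1 - η / 4) * (1 + η) := by nlinarith [mul_pos hn0 hη0]
        _ ≤ n * SqrtParity.tprod l * (1 + η) := by gcongr
    · have := Nat.lt_floor_add_one (n * SqrtParity.tprod l)
      have h5 : (1 : ℝ) ≤ n * SqrtParity.tprod l * η := by
        have h6 := (tprod_bounds l hl).1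
        have h7 : (4 : ℝ) ^ l.length * (1 / 4) ^ l.length = 1 := by
          rw [← mul_pow]; norm_num
        calc (1 : ℝ) ≤ D := hD
          _ = (4 ^ l.length * D) * (1 / 4) ^ l.length := by
              calc D = ((4 : ℝ) ^ l.length * (1 / 4) ^ l.length) * D := by rw [h7, one_mul]
                _ = _ := by ring
          _ ≤ (η * n) * SqrtParity.tprod l := by gcongr
          _ = _ := by ring
      linarith
    · have := Nat.floor_le (by positivity : 0 ≤ n * SqrtParity.tprod l)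
      have : 0 < n * SqrtParity.tprod l * η := by positivity
      linarith
  rw [← h3] at h1
  have h9 := hf.ne hq n hn
  apply hs
  have h10 : 1 * f n = sprod f l * f n := by rw [one_mul]; exact h1
  exact (mul_right_cancel₀ h9 h10).symm

end Pool.Agent.BrE
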