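import Pool.Agent.BrE.GSigns
import Pool.Agent.SqrtParity.SignChanges

set_option autoImplicit false

/-!
# Many changes (adapted from SqrtParity.SignChanges)
-/

namespace Pool.Agent.BrE

open Real
open Pool.Agent.SqrtParity (lsum lsum_nil lsum_cons lsum_append lsum_swap St Ok IsL approx)

theorem sprod_pow {q : ℕ} {f : ℕ → ℂ} (hf : RM q f) (l : List (ℕ × ℕ))
    (hl : ∀ v ∈ l, 1 ≤ v.1 ∧ 1 ≤ v.2) : sprod f l ^ q = 1 := by
  induction l with
  | nil => simp [sprod]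
  | cons v l ih =>
    rw [sprod_cons, mul_pow, div_pow, hf.pow _ (hl v List.mem_cons_self).1,
      hf.pow _ (hl v List.mem_cons_self).2, ih (fun w hw => hl w (List.mem_cons_of_mem _ hw))]
    simp

theorem flat_props (q : ℕ) (l : List (ℕ × ℕ)) (f : ℕ → ℂ) :
    (List.replicate q l).flatten.length = q * l.length ∧
    lsum (List.replicate q l).flatten = q * lsum l ∧
    sprod f (List.replicate q l).flatten = sprod f l ^ q ∧
    ∀ v ∈ (List.replicate q l).flatten, v ∈ l := by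
  induction q with
  | zero => simp [lsum_nil, sprod]
  | succ q ih =>
    obtain ⟨h1, h2, h3, h4⟩ := ih
    rw [List.replicate_succ, List.flatten_cons]
    refine ⟨?_, ?_, ?_, ?_⟩
    · rw [List.length_append, h1]; ring
    · rw [lsum_append, h2]; push_cast; ring
    · rw [sprod_append, h3, pow_succ]; ring
    · intro v hv
      rcases List.mem_append.1 hv with h | h
      · exact h
      · exact h4 v h

theorem gexists_list (q : ℕ) (hq : 1 ≤ q) (r : ℕ) : ∃ (k : ℕ) (c A0 : ℝ), 0 < c ∧ 1 ≤ A0 ∧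
    ∀ A, A0 ≤ A → ∀ p : ℕ, 1 ≤ p → ∃ l : List (ℕ × ℕ), l.length ≤ k ∧
      (∀ v ∈ l, St (p * A) v) ∧ |lsum l| ≤ c / A ^ r ∧ ∀ f, RM q f → sprod f l = f p := by
  obtain ⟨k, c, A0, hc, hA0, h⟩ := approx r
  have hqr : (1 : ℝ) ≤ q := by exact_mod_cast hq
  have hq0 : (0 : ℝ) < q := by linarith
  refine ⟨q * k + q + 1, q * c, A0, by positivity, hA0, ?_⟩
  intro A hA p hp
  have hA1 : 1 ≤ A := hA0.trans hA
  have hp1 : (1 : ℝ) ≤ p := by exact_mod_cast hp
  have hpA : A ≤ p * A := by nlinarith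
  obtain ⟨e, he⟩ : ∃ e, e = Nat.log 2 p := ⟨_, rfl⟩
  have he1 : 2 ^ e ≤ p := by rw [he]; exact Nat.pow_log_le_self 2 (by omega)
  have he2 : p < 2 ^ (e + 1) := by rw [he]; exact Nat.lt_pow_succ_log_self (by norm_num) p
  have hdm : q * (e / q) + e % q = e := Nat.div_add_mod e q
  have hmod : e % q < q := Nat.mod_lt _ (by omega)
  have hdmr : (q : ℝ) * ((e / q : ℕ) : ℝ) + ((e % q : ℕ) : ℝ) = e := by exact_mod_cast hdm
  have hmodr : ((e % q : ℕ) : ℝ) + 1 ≤ q := by exact_mod_cast hmod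
  have hmod0 : (0 : ℝ) ≤ ((e % q : ℕ) : ℝ) := Nat.cast_nonneg _
  have hlog2 : 0 < Real.log 2 := Real.log_pos (by norm_num)
  have hlog2' : Real.log 2 ≤ 1 := by
    have := Real.log_two_lt_d9
    linarith
  have hle1 : (e : ℝ) * Real.log 2 ≤ Real.log p := by
    rw [← Real.log_pow]
    apply Real.log_le_log (by positivity)
    exact_mod_cast he1
  have hle2 : Real.log p ≤ ((e : ℝ) + 1) * Real.log 2 := by
    have h1 : Real.log p ≤ Real.log ((2 : ℝ) ^ (e + 1)) := by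
      apply Real.log_le_log (by positivity)
      exact_mod_cast he2.le
    rw [Real.log_pow] at h1
    push_cast at h1
    exact h1
  obtain ⟨φ, hφ⟩ : ∃ φ : ℝ, φ = (Real.log p - q * ((e / q : ℕ) : ℝ) * Real.log 2) / q := ⟨_, rfl⟩
  have hqφ : q * φ = Real.log p - q * ((e / q : ℕ) : ℝ) * Real.log 2 := by
    rw [hφ]
    field_simp
  have hφ0 : 0 ≤ φ := by
    rw [hφ]
    apply div_nonneg _ hq0.le
    nlinarith
  have hφ1 : φ ≤ 1 := by
    rw [hφ, div_le_one hq0]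
    nlinarith
  obtain ⟨ψ, ⟨l, hl1, hl2, hl3⟩, hψ⟩ := h A hA φ (by rw [abs_of_nonneg hφ0]; exact hφ1)
  refine ⟨(p, 2 ^ e) :: (List.replicate (e % q) (2, 1) ++
    (List.replicate q (l.map Prod.swap)).flatten), ?_, ?_, ?_, ?_⟩
  · obtain ⟨h1, -⟩ := flat_props q (l.map Prod.swap) (fun _ => 1)
    rw [List.length_cons, List.length_append, List.length_replicate, h1, List.length_map]
    have : q * l.length ≤ q * k := Nat.mul_le_mul_left q hl1
    omega
  · intro v hv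
    rw [List.mem_cons] at hv
    rcases hv with hv | hv
    · rw [hv]
      refine ⟨hp, Nat.one_le_pow _ _ (by norm_num), ?_, ?_, ?_⟩
      · show p ≤ 4 * 2 ^ e
        rw [pow_succ] at he2; omega
      · show 2 ^ e ≤ 4 * p
        omega
      · have h1 : ((2 ^ e : ℕ) : ℝ) ≤ p := by exact_mod_cast he1
        show ((2 ^ e : ℕ) : ℝ) ≤ p * A
        nlinarith
    · rcases List.mem_append.1 hv with hv | hv
      · rw [List.eq_of_mem_replicate hv]
        refine ⟨by norm_num, by norm_num, by norm_num, by norm_num, ?_⟩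
        show ((1 : ℕ) : ℝ) ≤ p * A
        push_cast
        nlinarith
      · have hv' := (flat_props q (l.map Prod.swap) (fun _ => 1)).2.2.2 v hv
        rw [List.mem_map] at hv'
        obtain ⟨w, hw, rfl⟩ := hv'
        exact (hl2 w hw).swap.st hpA
  · have h2 : lsum (List.replicate (e % q) ((2 : ℕ), (1 : ℕ))) = ((e % q : ℕ) : ℝ) * Real.log 2 := by
      generalize e % q = i
      induction i with
      | zero => simp [lsum_nil]
      | succ i ih => rw [List.replicate_succ, lsum_cons, ih]; push_cast; simp; ring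
    obtain ⟨-, h3, -⟩ := flat_props q (l.map Prod.swap) (fun _ => 1)
    rw [lsum_cons, lsum_append, h2, h3, lsum_swap, hl3]
    have h4 : Real.log (((p, 2 ^ e) : ℕ × ℕ).1 : ℝ) - Real.log (((p, 2 ^ e) : ℕ × ℕ).2 : ℝ)
        = Real.log p - e * Real.log 2 := by
      simp only
      push_cast
      rw [Real.log_pow]
    rw [h4]
    have e1 : Real.log (p : ℝ) - e * Real.log 2 + (((e % q : ℕ) : ℝ) * Real.log 2 + q * -ψ)
        = q * (φ - ψ) := by
      rw [mul_sub, hqφ, ← hdmr]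
      ring
    rw [e1, abs_mul, abs_of_pos hq0, mul_div_assoc]
    gcongr
  · intro f hf
    have h2 : sprod f (List.replicate (e % q) ((2 : ℕ), (1 : ℕ))) = f 2 ^ (e % q) := by
      generalize e % q = i
      induction i with
      | zero => simp [sprod]
      | succ i ih => rw [List.replicate_succ, sprod_cons, ih, pow_succ, hf.one hq]; simp; ring
    obtain ⟨-, -, h3, -⟩ := flat_props q (l.map Prod.swap) f
    have h4 := sprod_pow hf (l.map Prod.swap) (by
      intro v hv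
      rw [List.mem_map] at hv
      obtain ⟨w, hw, rfl⟩ := hv
      exact ⟨(hl2 w hw).2.1, (hl2 w hw).1⟩)
    rw [sprod_cons, sprod_append, h2, h3, h4, mul_one]
    show f p / f (2 ^ e) * f 2 ^ (e % q) = f p
    have h5 : f (2 ^ e) = f 2 ^ (e % q) := by
      rw [hf.map_pow hq 2 (by norm_num)]
      conv_lhs => rw [← hdm]
      rw [pow_add, pow_mul, hf.pow 2 (by norm_num), one_pow, one_mul]
    rw [h5]
    have h6 := hf.ne hq 2 (by norm_num)
    field_simp

/-- a completely multiplicative `f` with `f p ≠ 1` has at least `X ^ (1 - ε) / p` sign changes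
between `X / W` and `W X` -/
theorem gsign_changes (q : ℕ) (hq : 1 ≤ q) {ε : ℝ} (hε : 0 < ε) : ∃ W X0 : ℕ, 1 ≤ W ∧ ∀ X : ℕ, X0 ≤ X →
    ∀ f, RM q f → ∀ p : ℕ, 1 ≤ p → f p ≠ 1 → (p : ℝ) ≤ (X : ℝ) ^ (1 - ε) →
      (X : ℝ) ^ (1 - ε) / p ≤ ((signSet f W X).card : ℝ) := by
  obtain ⟨r, hr⟩ : ∃ r : ℕ, r = ⌈4 / ε⌉₊ := ⟨_, rfl⟩
  have hr1 : 4 / ε ≤ r := by rw [hr]; exact Nat.le_ceil _
  obtain ⟨K, c, A0, hc, hA0, hlist⟩ := gexists_list q hq r
  obtain ⟨M, hM⟩ : ∃ M : ℝ, M = A0 + 4 * c + 9 * (K + 1) * 4 ^ K := ⟨_, rfl⟩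
  have h4K : (1 : ℝ) ≤ 4 ^ K := one_le_pow₀ (by norm_num)
  have hKpos : (0 : ℝ) ≤ K := by positivity
  have hM9 : 9 * ((K : ℝ) + 1) * 4 ^ K ≤ M := by rw [hM]; linarith
  have hMA : A0 ≤ M := by
    rw [hM]
    have : 0 ≤ 9 * ((K : ℝ) + 1) * 4 ^ K := by positivity
    linarith
  have hMc : 4 * c ≤ M := by
    rw [hM]
    have : 0 ≤ 9 * ((K : ℝ) + 1) * 4 ^ K := by positivity
    linarith
  have hM1 : 9 ≤ M := by
    refine le_trans ?_ hM9
    nlinarith
  have hM4 : 2 * (4 : ℝ) ^ K ≤ M := by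
    refine le_trans ?_ hM9
    nlinarith
  refine ⟨3 * 4 ^ K, ⌈M ^ (4 / ε)⌉₊ + 1, by
    have : 1 ≤ 4 ^ K := Nat.one_le_pow _ _ (by norm_num)
    omega, ?_⟩
  intro X hX f hf p hp hfp hpX
  have hX1 : 1 ≤ X := by omega
  have hX0 : (0 : ℝ) < X := by exact_mod_cast hX1
  have hX1' : (1 : ℝ) ≤ X := by exact_mod_cast hX1
  have hp0 : (0 : ℝ) < p := by exact_mod_cast hp
  have hp1 : (1 : ℝ) ≤ p := by exact_mod_cast hp
  obtain ⟨Q, hQ⟩ : ∃ Q : ℝ, Q = (X : ℝ) ^ (ε / 4) := ⟨_, rfl⟩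
  have hQM : M ≤ Q := by
    have h1 : M ^ (4 / ε) ≤ X := by
      calc M ^ (4 / ε) ≤ (⌈M ^ (4 / ε)⌉₊ : ℕ) := Nat.le_ceil _
        _ ≤ X := by exact_mod_cast (by omega)
    calc M = (M ^ (4 / ε)) ^ (ε / 4) := by
          rw [← Real.rpow_mul (by linarith)]
          have : 4 / ε * (ε / 4) = 1 := by field_simp
          rw [this, Real.rpow_one]
      _ ≤ (X : ℝ) ^ (ε / 4) := by
          apply Real.rpow_le_rpow (by positivity) h1 (by positivity)
      _ = Q := hQ.symm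
  have hQ1 : 1 ≤ Q := by linarith
  have hQ0 : 0 < Q := by linarith
  have hQ4 : (X : ℝ) ^ (1 - ε) * Q ^ 4 = X := by
    rw [hQ, ← Real.rpow_natCast, ← Real.rpow_mul hX0.le, ← Real.rpow_add hX0]
    have : 1 - ε + ε / 4 * (4 : ℕ) = 1 := by push_cast; ring
    rw [this, Real.rpow_one]
  have hQr : (X : ℝ) ≤ Q ^ r := by
    rw [hQ, ← Real.rpow_natCast, ← Real.rpow_mul hX0.le]
    calc (X : ℝ) = (X : ℝ) ^ (1 : ℝ) := (Real.rpow_one _).symm
      _ ≤ _ := by
          apply Real.rpow_le_rpow_of_exponent_le hX1'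
          calc (1 : ℝ) = ε / 4 * (4 / ε) := by field_simp
            _ ≤ ε / 4 * r := by gcongr
  have hpQ : (p : ℝ) * Q ^ 4 ≤ X := by
    rw [← hQ4]; gcongr
  obtain ⟨η, hη⟩ : ∃ η : ℝ, η = 4 ^ K * (p * Q) / X := ⟨_, rfl⟩
  have hηX : 4 ^ K * (p * Q) = η * X := by rw [hη]; field_simp
  have hη0 : 0 < η := by rw [hη]; positivity
  have hηhalf : η ≤ 1 / 2 := by
    rw [hη, div_le_iff₀ hX0]
    have h1 : 2 * 4 ^ K ≤ Q := hM4.trans hQM
    have h2 : (p : ℝ) * Q ^ 2 ≤ p * Q ^ 4 := by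
      have : Q ^ 2 ≤ Q ^ 4 := pow_le_pow_right₀ hQ1 (by norm_num)
      gcongr
    nlinarith [mul_pos hp0 hQ0]
  obtain ⟨l, hl1, hl2, hl3, hl4⟩ := hlist Q (hMA.trans hQM) p hp
  have hraw := sign_raw hq hf hηhalf hη0 (D := p * Q) (by nlinarith) l X K hX1 hl1 hl2 hηX.le
    (by
      refine hl3.trans ?_
      rw [hη]
      have h1 : c / Q ^ r ≤ c / X := by gcongr
      refine h1.trans ?_
      rw [div_div, div_le_div_iff₀ hX0 (by positivity)]
      have h2 : 4 * c ≤ Q := hMc.trans hQM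
      have h3 : 1 * (1 * Q) ≤ 4 ^ K * (p * Q) := by gcongr
      nlinarith)
    (by rw [hl4 f hf]; exact hfp)
  -- conclusion
  rw [hη] at hraw
  have hS0 : (0 : ℝ) ≤ ((signSet f (3 * 4 ^ K) X).card : ℝ) := Nat.cast_nonneg _
  generalize ((signSet f (3 * 4 ^ K) X).card : ℝ) = S at hraw hS0 ⊢
  have h1 : (X : ℝ) ≤ (K + 1) * S * (9 * (4 ^ K * (p * Q))) := by
    calc (X : ℝ) = X * 1 := (mul_one _).symm
      _ ≤ X * ((K + 1) * S * (9 * (4 ^ K * (p * Q) / X))) := by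
          gcongr
      _ = _ := by field_simp
  rw [div_le_iff₀ hp0]
  have h2 : (X : ℝ) ^ (1 - ε) * Q ^ 4 ≤ (S * p) * Q ^ 4 := by
    rw [hQ4]
    calc (X : ℝ) ≤ (K + 1) * S * (9 * (4 ^ K * (p * Q))) := h1
      _ = (S * p) * (Q * (9 * (K + 1) * 4 ^ K)) := by ring
      _ ≤ (S * p) * (Q * Q) := by
          gcongr
          exact hM9.trans hQM
      _ ≤ (S * p) * Q ^ 4 := by
          gcongr
          calc Q * Q = Q ^ 2 := by ring
            _ ≤ Q ^ 4 := pow_le_pow_right₀ hQ1 (by norm_num)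
  exact le_of_mul_le_mul_right h2 (by positivity)

end Pool.Agent.BrE
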