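import Pool.Agent.BrE.GChange
import Pool.Agent.FareyParity.Count

set_option autoImplicit false

/-!
# From changes to products in a short interval (adapted from SqrtParity.Window and Interval)
-/

namespace Pool.Agent.BrE

open Real Filter
open Pool.Agent

theorem gexists_change {f : ℕ → ℂ} {a : ℕ} : ∀ {d : ℕ}, f a ≠ f (a + d) →
    ∃ s, a ≤ s ∧ s < a + d ∧ f s ≠ f (s + 1) := by
  intro d
  induction d with
  | zero => intro h; exact absurd rfl h
  | succ d ih =>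
    intro h
    by_cases h1 : f a = f (a + d)
    · exact ⟨a + d, by omega, by omega, by rw [← h1]; exact h⟩
    · obtain ⟨s, h2, h3, h4⟩ := ih h1
      exact ⟨s, h2, by omega, h4⟩

theorem glocal_step {f : ℕ → ℂ} {q : ℕ} (hq : 1 ≤ q) (hf : RM q f) {s k : ℕ} (hs : 1 ≤ s) (hk : 1 ≤ k)
    (h : f s ≠ f (s + 1)) : ∃ s', k * s ≤ s' ∧ s' < k * (s + 1) ∧ f s' ≠ f (s' + 1) := by
  have h1 : f (k * s) ≠ f (k * s + k) := by
    have : k * s + k = k * (s + 1) := by ring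
    rw [this, hf.mul k s hk hs, hf.mul k (s + 1) hk (by omega)]
    intro h2
    apply h
    exact mul_left_cancel₀ (hf.ne hq k hk) h2
  obtain ⟨s', h2, h3, h4⟩ := gexists_change h1
  exact ⟨s', h2, by rw [mul_add, mul_one]; exact h3, h4⟩

open Classical in
/-- the integers in `(x, x + c √x]` with `f m ≠ e` -/
noncomputable def valSet (f : ℕ → ℂ) (x c : ℝ) (e : ℂ) : Finset ℕ :=
  (Finset.Icc 1 ⌊x + c * √x⌋₊).filter (fun m => x < m ∧ f m ≠ e)

/-- a sign change near `√x` gives products of both signs in `(x, x + c √x]` -/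
theorem ghyperbola {f : ℕ → ℂ} {q : ℕ} (hq : 1 ≤ q) (hf : RM q f) {x c κ : ℝ} (hx : 1 ≤ √x) (hκ : κ ^ 2 ≤ (c - 2) / 2)
    (hY : 1 ≤ (c - 2) / 2 * √x) {s : ℕ} (hs1 : √x ≤ s) (hs2 : (s : ℝ) ≤ (1 + κ) * √x)
    (h : f s ≠ f (s + 1)) (e : ℂ) :
    ∃ m ∈ valSet f x c e, s ∣ m ∨ s + 1 ∣ m := by
  have hx0 : 0 ≤ x := by
    by_contra hcon
    push Not at hcon
    rw [Real.sqrt_eq_zero_of_nonpos hcon.le] at hx
    linarith
  have hsq : √x * √x = x := Real.mul_self_sqrt hx0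
  have hs0 : (0 : ℝ) < s := by linarith
  have hs3 : 1 ≤ s := by exact_mod_cast (show (1 : ℝ) ≤ s by linarith)
  obtain ⟨R, hR⟩ : ∃ R : ℕ, R = ⌊x / s⌋₊ + 1 := ⟨_, rfl⟩
  have hR1 : x / s < R := by rw [hR]; push_cast; exact Nat.lt_floor_add_one _
  have hR2 : (R : ℝ) ≤ x / s + 1 := by
    rw [hR]; push_cast
    have := Nat.floor_le (by positivity : 0 ≤ x / s)
    linarith
  have hR3 : 1 ≤ R := by omega
  rw [div_lt_iff₀ hs0] at hR1
  have hup : (R : ℝ) * (s + 1) ≤ x + c * √x := by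
    have hβ : x / s + s ≤ (2 + κ ^ 2) * √x := by
      have e1 : x / s + s = 2 * √x + (s - √x) ^ 2 / s := by
        field_simp
        nlinarith
      rw [e1]
      have e2 : ((s : ℝ) - √x) ^ 2 / s ≤ κ ^ 2 * √x := by
        rw [div_le_iff₀ hs0]
        have h1 : ((s : ℝ) - √x) ^ 2 ≤ (κ * √x) ^ 2 := by
          apply pow_le_pow_left₀ (by linarith)
          linarith
        calc ((s : ℝ) - √x) ^ 2 ≤ (κ * √x) ^ 2 := h1
          _ = κ ^ 2 * √x * √x := by ring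
          _ ≤ κ ^ 2 * √x * s := by gcongr
      linarith
    have e3 : x / s * (s + 1) = x + x / s := by field_simp
    calc (R : ℝ) * (s + 1) ≤ (x / s + 1) * (s + 1) := by gcongr
      _ = x + (x / s + s) + 1 := by rw [add_mul, e3]; ring
      _ ≤ x + (2 + κ ^ 2) * √x + (c - 2) / 2 * √x := by linarith
      _ ≤ x + (2 + (c - 2) / 2) * √x + (c - 2) / 2 * √x := by gcongr
      _ = _ := by ring
  have mem : ∀ t : ℕ, (t = s ∨ t = s + 1) → f (R * t) ≠ e → R * t ∈ valSet f x c e := by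
    intro t ht hfe
    have ht1 : (s : ℝ) ≤ t := by
      have : s ≤ t := by omega
      exact_mod_cast this
    have ht2 : (t : ℝ) ≤ s + 1 := by
      have : t ≤ s + 1 := by omega
      exact_mod_cast this
    rw [valSet, Finset.mem_filter, Finset.mem_Icc]
    refine ⟨⟨?_, ?_⟩, ?_, hfe⟩
    · have : 1 ≤ t := by omega
      calc 1 = 1 * 1 := rfl
        _ ≤ R * t := Nat.mul_le_mul hR3 this
    · apply Nat.le_floor
      push_cast
      calc (R : ℝ) * t ≤ R * (s + 1) := by gcongr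
        _ ≤ _ := hup
    · push_cast
      calc x < R * s := hR1
        _ ≤ R * t := by gcongr
  have hm1 := hf.mul R s hR3 hs3
  have hm2 := hf.mul R (s + 1) hR3 (by omega)
  have hne : f (R * s) ≠ e ∨ f (R * (s + 1)) ≠ e := by
    by_contra hcon
    push Not at hcon
    rw [hm1, hm2] at hcon
    apply h
    have h5 : f R * f s = f R * f (s + 1) := hcon.1.trans hcon.2.symm
    exact mul_left_cancel₀ (hf.ne hq R hR3) h5
  rcases hne with h1 | h1
  · exact ⟨R * s, mem s (Or.inl rfl) h1, Or.inl (dvd_mul_left _ _)⟩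
  · exact ⟨R * (s + 1), mem (s + 1) (Or.inr rfl) h1, Or.inr (dvd_mul_left _ _)⟩

theorem gtransfer {f : ℕ → ℂ} {q : ℕ} (hq : 1 ≤ q) (hf : RM q f) {x c κ : ℝ} {W X k0 Dm : ℕ} (hx : 1 ≤ √x)
    (hκ0 : 0 < κ) (hκ : κ ^ 2 ≤ (c - 2) / 2) (hY : 1 ≤ (c - 2) / 2 * √x)
    (h1 : (W * X : ℝ) ≤ κ * √x / 4) (h2 : κ * √x ≤ 8 * W * X)
    (h3 : 8 * (W : ℝ) ^ 2 / κ + 1 ≤ k0) (h4 : (k0 : ℝ) ≤ κ * √x / 4)
    (hD : ∀ m : ℕ, 1 ≤ m → (m : ℝ) ≤ x + c * √x → m.divisors.card ≤ Dm)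
    (e : ℂ) :
    (signSet f W X).card ≤ (valSet f x c e).card * (Dm * (k0 * 2)) := by
  classical
  have hx0 : 0 ≤ x := by
    by_contra hcon
    push Not at hcon
    rw [Real.sqrt_eq_zero_of_nonpos hcon.le] at hx
    linarith
  have hc : 0 ≤ c := by
    have : 0 ≤ κ ^ 2 := by positivity
    linarith
  have key : signSet f W X ⊆ (valSet f x c e).biUnion (fun m =>
      (m.divisors ×ˢ (Finset.Icc 1 k0 ×ˢ Finset.range 2)).image
        (fun q => (q.1 - q.2.2) / q.2.1)) := by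
    intro s hs
    rw [signSet, Finset.mem_filter, Finset.mem_Icc] at hs
    obtain ⟨⟨hs1, hs2⟩, hs3, hs4⟩ := hs
    have hs0 : (0 : ℝ) < s := by exact_mod_cast hs1
    have hs2' : (s : ℝ) ≤ κ * √x / 4 := by
      calc (s : ℝ) ≤ W * X := by exact_mod_cast hs2
        _ ≤ _ := h1
    have hs3' : √x / s ≤ 8 * (W : ℝ) ^ 2 / κ := by
      rw [div_le_div_iff₀ hs0 hκ0]
      have : (X : ℝ) ≤ W * s := by exact_mod_cast hs3
      calc √x * κ = κ * √x := by ring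
        _ ≤ 8 * W * X := h2
        _ ≤ 8 * W * (W * s) := by gcongr
        _ = _ := by ring
    obtain ⟨k, hk⟩ : ∃ k : ℕ, k = ⌈√x / s⌉₊ := ⟨_, rfl⟩
    have hk1 : √x / s ≤ k := by rw [hk]; exact Nat.le_ceil _
    have hk2 : (k : ℝ) < √x / s + 1 := by rw [hk]; exact Nat.ceil_lt_add_one (by positivity)
    have hk3 : 1 ≤ k := by
      rw [hk]; exact Nat.one_le_ceil_iff.2 (by positivity)
    have hk4 : k ≤ k0 := by
      have : (k : ℝ) < k0 := by linarith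
      exact_mod_cast this.le
    rw [div_le_iff₀ hs0] at hk1
    obtain ⟨s', ha, hb, hc'⟩ := glocal_step hq hf hs1 hk3 hs4
    have ha' : √x ≤ s' := by
      calc √x ≤ k * s := hk1
        _ ≤ s' := by exact_mod_cast ha
    have hb' : (s' : ℝ) ≤ (1 + κ) * √x := by
      have e1 : (s' : ℝ) ≤ k * (s + 1) := by exact_mod_cast hb.le
      have e2 : (k : ℝ) * s ≤ √x + s := by
        calc (k : ℝ) * s ≤ (√x / s + 1) * s := by gcongr
          _ = _ := by field_simp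
      have e3 : (k : ℝ) ≤ k0 := by exact_mod_cast hk4
      nlinarith
    obtain ⟨m, hm1, hm2⟩ := ghyperbola hq hf hx hκ hY ha' hb' hc' e
    rw [Finset.mem_biUnion]
    refine ⟨m, hm1, ?_⟩
    rw [valSet, Finset.mem_filter, Finset.mem_Icc] at hm1
    have hdiv : s' / k = s := by
      apply Nat.div_eq_of_lt_le
      · rw [mul_comm]; exact ha
      · rw [mul_comm]; exact hb
    rw [Finset.mem_image]
    rcases hm2 with h | h
    · refine ⟨(s', k, 0), ?_, by simpa using hdiv⟩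
      simp only [Finset.mem_product, Nat.mem_divisors, Finset.mem_Icc, Finset.mem_range]
      exact ⟨⟨h, by omega⟩, ⟨hk3, hk4⟩, by omega⟩
    · refine ⟨(s' + 1, k, 1), ?_, by simpa using hdiv⟩
      simp only [Finset.mem_product, Nat.mem_divisors, Finset.mem_Icc, Finset.mem_range]
      exact ⟨⟨h, by omega⟩, ⟨hk3, hk4⟩, by omega⟩
  refine (Finset.card_le_card key).trans ?_
  refine Finset.card_biUnion_le_card_mul _ _ _ ?_
  intro m hm
  rw [valSet, Finset.mem_filter, Finset.mem_Icc] at hm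
  refine Finset.card_image_le.trans ?_
  rw [Finset.card_product, Finset.card_product, Nat.card_Icc, Finset.card_range]
  have hfl : (m : ℝ) ≤ x + c * √x := by
    calc (m : ℝ) ≤ (⌊x + c * √x⌋₊ : ℕ) := by exact_mod_cast hm.1.2
      _ ≤ _ := Nat.floor_le (by positivity)
  have := hD m hm.1.1 hfl
  simp only [Nat.add_sub_cancel]
  gcongr


theorem ginterval (q : ℕ) (hq : 1 ≤ q) {c ε : ℝ} (hc : 2 < c) (hε : 0 < ε) (hε1 : ε < 1) : ∃ x0 : ℝ, 1 ≤ x0 ∧
    ∀ x, x0 ≤ x → ∀ f, RM q f → ∀ p : ℕ, 1 ≤ p → f p ≠ 1 → (p : ℝ) ≤ x ^ (1 / 2 - ε) →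
      ∀ e : ℂ, x ^ (1 / 2 - ε) / p ≤ ((valSet f x c e).card : ℝ) := by
  obtain ⟨W, X0, hW, hsign⟩ := gsign_changes q hq (ε := ε / 2) (by positivity)
  obtain ⟨Cd, hCd, hdiv⟩ := FareyParity.divisor_bound (ε := ε / 2) (by positivity)
  obtain ⟨κ, hκdef⟩ : ∃ κ : ℝ, κ = min 1 ((c - 2) / 2) := ⟨_, rfl⟩
  have hκ0 : 0 < κ := by rw [hκdef]; apply lt_min one_pos; linarith
  have hκ1 : κ ≤ 1 := by rw [hκdef]; exact min_le_left _ _
  have hκ2 : κ ≤ (c - 2) / 2 := by rw [hκdef]; exact min_le_right _ _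
  have hκ : κ ^ 2 ≤ (c - 2) / 2 := by nlinarith
  have hW0 : (0 : ℝ) < W := by exact_mod_cast hW
  obtain ⟨κ', hκ'⟩ : ∃ κ' : ℝ, κ' = κ / (8 * W) := ⟨_, rfl⟩
  have hκ'0 : 0 < κ' := by rw [hκ']; positivity
  obtain ⟨k0, hk0⟩ : ∃ k0 : ℕ, k0 = ⌈8 * (W : ℝ) ^ 2 / κ + 1⌉₊ := ⟨_, rfl⟩
  have hk0' : 8 * (W : ℝ) ^ 2 / κ + 1 ≤ k0 := by rw [hk0]; exact Nat.le_ceil _
  obtain ⟨L, hL⟩ : ∃ L : ℝ, L = κ' ^ (1 - ε / 2) := ⟨_, rfl⟩
  have hL0 : 0 < L := by rw [hL]; positivity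
  obtain ⟨G, hG⟩ : ∃ G : ℝ, G = 2 * k0 * (Cd * (1 + c) ^ (ε / 2)) := ⟨_, rfl⟩
  have hG0 : 0 ≤ G := by rw [hG]; positivity
  have ev1 : ∀ᶠ x : ℝ in atTop, (G + 1) / L ≤ x ^ (ε / 4) :=
    (tendsto_rpow_atTop (by positivity)).eventually_ge_atTop _
  have ev2 : ∀ᶠ x : ℝ in atTop,
      1 + 4 * (k0 : ℝ) / κ + 2 / (c - 2) + 1 / κ' + (X0 : ℝ) / κ' ≤ √x :=
    tendsto_sqrt_atTop.eventually_ge_atTop _
  obtain ⟨x0, hx0⟩ := eventually_atTop.1 (ev1.and (ev2.and (eventually_ge_atTop 1)))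
  refine ⟨max x0 1, le_max_right _ _, ?_⟩
  intro x hx f hf p hp hfp hpx e
  obtain ⟨h1, h2, h3⟩ := hx0 x ((le_max_left _ _).trans hx)
  have hxpos : 0 < x := by linarith
  have hp0 : (0 : ℝ) < p := by exact_mod_cast hp
  have hc2 : 0 < c - 2 := by linarith
  have t1 : 0 ≤ 4 * (k0 : ℝ) / κ := by positivity
  have t2 : 0 ≤ 2 / (c - 2) := by positivity
  have t3 : 0 ≤ 1 / κ' := by positivity
  have t4 : 0 ≤ (X0 : ℝ) / κ' := by positivity
  have hY1 : 1 ≤ √x := by linarith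
  have hY2 : 4 * (k0 : ℝ) / κ ≤ √x := by linarith
  have hY3 : 2 / (c - 2) ≤ √x := by linarith
  have hY4 : 1 / κ' ≤ √x := by linarith
  have hY5 : (X0 : ℝ) / κ' ≤ √x := by linarith
  obtain ⟨X, hX⟩ : ∃ X : ℕ, X = ⌊κ * √x / (4 * W)⌋₊ := ⟨_, rfl⟩
  have hX1 : (X : ℝ) ≤ κ * √x / (4 * W) := by rw [hX]; exact Nat.floor_le (by positivity)
  have hX2 : κ * √x / (4 * W) < X + 1 := by rw [hX]; exact Nat.lt_floor_add_one _
  have hX3 : κ' * √x ≤ X := by
    have e1 : κ * √x / (4 * W) = 2 * (κ' * √x) := by rw [hκ']; field_simp; ring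
    have e2 : 1 ≤ κ' * √x := by
      rw [div_le_iff₀ hκ'0] at hY4; linarith
    linarith
  have hX4 : X0 ≤ X := by
    have : (X0 : ℝ) ≤ X := by
      rw [div_le_iff₀ hκ'0] at hY5
      linarith
    exact_mod_cast this
  have hsx : √x = x ^ ((1 : ℝ) / 2) := Real.sqrt_eq_rpow x
  -- the power of X
  have hXpow : L * x ^ (1 / 2 - ε / 4) ≤ (X : ℝ) ^ (1 - ε / 2) := by
    calc L * x ^ (1 / 2 - ε / 4) = (κ' * √x) ^ (1 - ε / 2) := by
          rw [Real.mul_rpow hκ'0.le (Real.sqrt_nonneg x), hL, hsx, ← Real.rpow_mul hxpos.le]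
          congr 2; ring
      _ ≤ (X : ℝ) ^ (1 - ε / 2) := by
          apply Real.rpow_le_rpow (by positivity) hX3 (by linarith)
  have hbig : (G + 1) * x ^ (1 / 2 - ε) * x ^ (ε / 2) ≤ L * x ^ (1 / 2 - ε / 4) := by
    rw [div_le_iff₀ hL0] at h1
    calc (G + 1) * x ^ (1 / 2 - ε) * x ^ (ε / 2)
        ≤ (x ^ (ε / 4) * L) * x ^ (1 / 2 - ε) * x ^ (ε / 2) := by gcongr
      _ = L * (x ^ (ε / 4) * x ^ (1 / 2 - ε) * x ^ (ε / 2)) := by ring
      _ = L * x ^ (1 / 2 - ε / 4) := by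
          rw [← Real.rpow_add hxpos, ← Real.rpow_add hxpos]
          congr 2; ring
  have hxe : 1 ≤ x ^ (ε / 2) := Real.one_le_rpow h3 (by positivity)
  have hpX : (p : ℝ) ≤ (X : ℝ) ^ (1 - ε / 2) := by
    calc (p : ℝ) ≤ x ^ (1 / 2 - ε) := hpx
      _ ≤ (G + 1) * x ^ (1 / 2 - ε) * x ^ (ε / 2) := by
          have : 0 ≤ x ^ (1 / 2 - ε) := by positivity
          calc x ^ (1 / 2 - ε) = 1 * x ^ (1 / 2 - ε) * 1 := by ring
            _ ≤ _ := by gcongr; linarith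
      _ ≤ _ := hbig.trans hXpow
  have hS := hsign X hX4 f hf p hp hfp hpX
  obtain ⟨Dm, hDm⟩ : ∃ Dm : ℕ, Dm = ⌊Cd * ((1 + c) * x) ^ (ε / 2)⌋₊ := ⟨_, rfl⟩
  have hDm1 : (Dm : ℝ) ≤ Cd * ((1 + c) * x) ^ (ε / 2) := by
    rw [hDm]; exact Nat.floor_le (by positivity)
  have htr := gtransfer hq hf (x := x) (c := c) (κ := κ) (W := W) (X := X) (k0 := k0) (Dm := Dm)
    hY1 hκ0 hκ (by
      rw [div_le_iff₀ hc2] at hY3; linarith) (by
      calc (W * X : ℝ) ≤ W * (κ * √x / (4 * W)) := by gcongr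
        _ = _ := by field_simp) (by
      calc κ * √x = 8 * W * (κ' * √x) := by rw [hκ']; field_simp
        _ ≤ 8 * W * X := by gcongr) hk0' (by
      rw [div_le_iff₀ hκ0] at hY2; linarith) (by
      intro m hm1 hm2
      rw [hDm]
      apply Nat.le_floor
      calc (m.divisors.card : ℝ) ≤ Cd * (m : ℝ) ^ (ε / 2) := hdiv m (by omega)
        _ ≤ Cd * ((1 + c) * x) ^ (ε / 2) := by
            gcongr
            have : √x ≤ x := by
              calc √x = √x * 1 := (mul_one _).symm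
                _ ≤ √x * √x := by gcongr
                _ = x := Real.mul_self_sqrt hxpos.le
            nlinarith) e
  have htr' : ((signSet f W X).card : ℝ) ≤ ((valSet f x c e).card : ℝ) * (Dm * (k0 * 2)) := by
    exact_mod_cast htr
  generalize ((signSet f W X).card : ℝ) = S at hS htr'
  have hV0 : (0 : ℝ) ≤ ((valSet f x c e).card : ℝ) := Nat.cast_nonneg _
  generalize ((valSet f x c e).card : ℝ) = V at htr' hV0 ⊢
  rw [div_le_iff₀ hp0] at hS ⊢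
  have hfin : x ^ (1 / 2 - ε) * ((G + 1) * x ^ (ε / 2)) ≤ (V * p) * ((G + 1) * x ^ (ε / 2)) := by
    calc x ^ (1 / 2 - ε) * ((G + 1) * x ^ (ε / 2))
        = (G + 1) * x ^ (1 / 2 - ε) * x ^ (ε / 2) := by ring
      _ ≤ (X : ℝ) ^ (1 - ε / 2) := hbig.trans hXpow
      _ ≤ S * p := hS
      _ ≤ (V * (Dm * (k0 * 2))) * p := by gcongr
      _ ≤ (V * (Cd * ((1 + c) * x) ^ (ε / 2) * (k0 * 2))) * p := by gcongr
      _ = (V * p) * (G * x ^ (ε / 2)) := by
          rw [Real.mul_rpow (by linarith) hxpos.le, hG]; ring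
      _ ≤ (V * p) * ((G + 1) * x ^ (ε / 2)) := by
          gcongr
          linarith
  exact le_of_mul_le_mul_right hfin (by positivity)

end Pool.Agent.BrE
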