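import Pool.Agent.BrE.Scale

set_option autoImplicit false

/-!
# Windows near products `(n-h)(n+h+j)`, shifted by a monotone amount, at one scale
-/

open Finset

namespace Pool.Agent.BrE

/-- products `(n-u)(n+u+j)` in a window below `x`. -/
theorem gen_inj (f : ℕ → ℂ) (s : ℂ) (n j v U : ℕ) (x R : ℝ) (hv : 1 ≤ v) (hvU : v + U ≤ n)
    (hx1 : (n : ℝ) ^ 2 + j * n - v * (v + j) < x)
    (hx2 : x - R ≤ (n : ℝ) ^ 2 + j * n - (v + U) * (v + U + j)) :
    ((Ico v (v + U)).filter (fun u => f ((n - u) * (n + u + j)) ≠ s)).card ≤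
    Set.ncard {m : ℕ | x - R < m ∧ (m : ℝ) < x ∧ f m ≠ s} := by
  classical
  have hfin : Set.Finite {m : ℕ | x - R < m ∧ (m : ℝ) < x ∧ f m ≠ s} := by
    apply Set.Finite.subset (Set.finite_Icc 0 ⌈x⌉₊)
    intro m hm
    obtain ⟨-, h2, -⟩ := hm
    refine ⟨Nat.zero_le _, ?_⟩
    have := Nat.le_ceil x
    have h3 : (m : ℝ) ≤ (⌈x⌉₊ : ℝ) := by linarith
    exact_mod_cast h3
  rw [← Set.ncard_coe_finset]
  apply Set.ncard_le_ncard_of_injOn (ht := hfin) (fun u => (n - u) * (n + u + j))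
  · intro u hu
    rw [coe_filter, Set.mem_ofPred_eq, mem_Ico] at hu
    obtain ⟨⟨h1, h2⟩, h3⟩ := hu
    have hun : u ≤ n := by omega
    have hcast : (((n - u) * (n + u + j) : ℕ) : ℝ) = (n : ℝ) ^ 2 + j * n - u * (u + j) := by
      push_cast [Nat.cast_sub hun]
      ring
    have hu1 : (v : ℝ) ≤ u := by exact_mod_cast h1
    have hu2 : (u : ℝ) < v + U := by exact_mod_cast h2
    have hv1 : (1 : ℝ) ≤ v := by exact_mod_cast hv
    have hj0 : (0 : ℝ) ≤ j := Nat.cast_nonneg j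
    refine ⟨?_, ?_, h3⟩
    · rw [hcast]
      have : (u : ℝ) * (u + j) < (v + U) * (v + U + j) := by nlinarith
      linarith
    · rw [hcast]
      have : (v : ℝ) * (v + j) ≤ u * (u + j) := by nlinarith
      linarith
  · intro u hu u' hu' huu
    rw [coe_filter, Set.mem_ofPred_eq, mem_Ico] at hu hu'
    simp only at huu
    have e1 : (((n - u) * (n + u + j) : ℕ) : ℝ) = (n : ℝ) ^ 2 + j * n - u * (u + j) := by
      push_cast [Nat.cast_sub (by omega : u ≤ n)]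
      ring
    have e2 : (((n - u') * (n + u' + j) : ℕ) : ℝ) = (n : ℝ) ^ 2 + j * n - u' * (u' + j) := by
      push_cast [Nat.cast_sub (by omega : u' ≤ n)]
      ring
    rw [huu, e2] at e1
    have hu1 : (1 : ℝ) ≤ u := by exact_mod_cast hv.trans hu.1.1
    have hu1' : (1 : ℝ) ≤ u' := by exact_mod_cast hv.trans hu'.1.1
    have hj0 : (0 : ℝ) ≤ j := Nat.cast_nonneg j
    have e3 : ((u : ℝ) - u') * (u + u' + j) = 0 := by linarith
    rcases mul_eq_zero.mp e3 with h | h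
    · have : (u : ℝ) = u' := by linarith
      exact_mod_cast this
    · linarith

/-- parameters at one scale -/
theorem gen_params (ε : ℝ) (hε : 0 < ε) (hε1 : ε ≤ 1) :
    ∀ᶠ N : ℝ in Filter.atTop, 16 ≤ N ∧ 4 ≤ N ^ (ε / 3) ∧
      (N ^ (ε / 8) + 2 + N ^ (ε / 3) * (N ^ (ε / 16) + 1)) *
        (N ^ (ε / 8) + 2 + N ^ (ε / 3) * (N ^ (ε / 16) + 1) + 1) ≤ (N / 2) ^ ε ∧
      √(8 * N) + (N ^ (ε / 8) + 2 + N ^ (ε / 3) * (N ^ (ε / 16) + 1)) ≤ N ^ (1 - ε / 16) ∧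
      8 * (2 * N) ^ (ε / 4) ≤ N ^ (ε / 3) := by
  have key : ∀ a b C : ℝ, 0 ≤ C → a < b → ∀ᶠ N : ℝ in Filter.atTop, C * N ^ a ≤ N ^ b := by
    intro a b C hC hab
    filter_upwards [ev_rpow (b - a) C (by linarith), Filter.eventually_gt_atTop (0 : ℝ)]
      with N h1 h2
    calc C * N ^ a ≤ N ^ (b - a) * N ^ a := by gcongr
      _ = N ^ b := by
          rw [← Real.rpow_add h2]
          congr 1
          ring
  filter_upwards [Filter.eventually_ge_atTop (16 : ℝ), ev_rpow (ε / 3) 4 (by positivity),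
    key (19 * ε / 48 * 2) ε (30 * 2 ^ ε) (by positivity) (by linarith),
    key (19 * ε / 48) (1 - ε / 16) 10 (by norm_num) (by linarith),
    key (ε / 4) (ε / 3) (8 * 2 ^ (ε / 4)) (by positivity) (by linarith),
    key (1 / 2) (1 - ε / 16) 8 (by norm_num) (by linarith)]
    with N g1 g2 g3 g4 g5 g7
  have hN0 : 0 < N := by linarith
  have hN1 : 1 ≤ N := by linarith
  have hp : ∀ x y : ℝ, x ≤ y → N ^ x ≤ N ^ y := fun x y hxy =>
    Real.rpow_le_rpow_of_exponent_le hN1 hxy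
  have h1 : N ^ (ε / 3) * (N ^ (ε / 16) + 1) ≤ 2 * N ^ (19 * ε / 48) := by
    have e1 : N ^ (ε / 3) * N ^ (ε / 16) = N ^ (19 * ε / 48) := by
      rw [← Real.rpow_add hN0]
      congr 1
      ring
    have e2 : N ^ (ε / 3) ≤ N ^ (19 * ε / 48) := hp _ _ (by linarith)
    linarith
  have h2 : N ^ (ε / 8) ≤ N ^ (19 * ε / 48) := hp _ _ (by linarith)
  have h3 : 1 ≤ N ^ (19 * ε / 48) := Real.one_le_rpow hN1 (by positivity)
  have h4 : N ^ (ε / 8) + 2 + N ^ (ε / 3) * (N ^ (ε / 16) + 1) ≤ 5 * N ^ (19 * ε / 48) := by linarith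
  have h0 : 0 ≤ N ^ (ε / 3) * (N ^ (ε / 16) + 1) := by positivity
  have h00 : 0 < N ^ (19 * ε / 48) := by positivity
  refine ⟨g1, g2, ?_, ?_, ?_⟩
  · calc (N ^ (ε / 8) + 2 + N ^ (ε / 3) * (N ^ (ε / 16) + 1)) *
        (N ^ (ε / 8) + 2 + N ^ (ε / 3) * (N ^ (ε / 16) + 1) + 1)
        ≤ (5 * N ^ (19 * ε / 48)) * (6 * N ^ (19 * ε / 48)) := by
          apply mul_le_mul h4 (by linarith) (by positivity) (by positivity)
      _ = 30 * N ^ (19 * ε / 48 * 2) := by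
          rw [show 19 * ε / 48 * 2 = 19 * ε / 48 + 19 * ε / 48 by ring, Real.rpow_add hN0]
          ring
      _ ≤ (N / 2) ^ ε := by
          rw [Real.div_rpow hN0.le (by norm_num), le_div_iff₀ (by positivity)]
          calc 30 * N ^ (19 * ε / 48 * 2) * 2 ^ ε = 30 * 2 ^ ε * N ^ (19 * ε / 48 * 2) := by ring
            _ ≤ _ := g3
  · have e1 : √(8 * N) ≤ 4 * N ^ (1 / 2 : ℝ) := by
      rw [← Real.sqrt_eq_rpow, Real.sqrt_le_left (by positivity), mul_pow, Real.sq_sqrt hN0.le]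
      linarith
    linarith
  · calc 8 * (2 * N) ^ (ε / 4) = 8 * 2 ^ (ε / 4) * N ^ (ε / 4) := by
          rw [Real.mul_rpow (by norm_num) hN0.le]
          ring
      _ ≤ _ := g5

/-- windows below products, shifted by a monotone amount -/
theorem gen_scale (q : ℕ) (hq : 1 ≤ q) (ε : ℝ) (hε : 0 < ε) (hε1 : ε ≤ 1) :
    ∃ c κ : ℝ, 0 < c ∧ c ≤ 1 / 2 ∧ 0 < κ ∧ κ ≤ 1 / 8 ∧ ∃ N0 : ℝ, 1 ≤ N0 ∧
      ∀ N : ℝ, N0 ≤ N → ∀ f : ℕ → ℂ, RM q f → DensE f κ (N ^ (1 / 4 : ℝ)) →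
      ∀ E : ℕ → ℝ, Monotone E → (∀ n, 0 ≤ E n) → E ⌊3 * N⌋₊ ≤ 8 * N → ∀ j : ℕ, j ≤ 1 →
      ∀ S : Finset ℕ, (∀ n ∈ S, N ≤ n ∧ (n : ℝ) ≤ 2 * N ∧
        ∃ h : ℕ, h ≤ ⌊N ^ (ε / 8)⌋₊ ∧ ∃ s : ℂ,
          (Set.ncard {m : ℕ | (n : ℝ) ^ 2 + j * n - h * (h + j) - E n -
              (1 + √(E n)) * (N / 2) ^ ε < m ∧
            (m : ℝ) < (n : ℝ) ^ 2 + j * n - h * (h + j) - E n ∧ f m ≠ s} : ℝ) <
            (2 * N) ^ (ε / 4)) → (S.card : ℝ) ≤ 2 * N ^ (1 - c) := by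
  classical
  obtain ⟨c, κ, hc, hc2, hκ, hκ8, N1, hN1, hwin⟩ := windowB q hq (ε / 16) (by positivity)
    (by linarith)
  obtain ⟨N2, hN2⟩ := Filter.eventually_atTop.mp (gen_params ε hε hε1)
  refine ⟨c, κ, hc, hc2, hκ, hκ8, max N1 N2, hN1.trans (le_max_left _ _),
    fun N hN f hf hd E hE hE0 hEN j hj S hS => ?_⟩
  have hNN1 : N1 ≤ N := (le_max_left _ _).trans hN
  obtain ⟨p1, p2, p3, p4, p5⟩ := hN2 N ((le_max_right _ _).trans hN)
  have hN0 : 0 < N := by linarith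
  have hNge1 : 1 ≤ N := by linarith
  set T : ℕ := ⌊N ^ (ε / 16)⌋₊ with hT
  set L : ℕ := ⌊N ^ (ε / 3)⌋₊ with hL
  set G : ℕ := ⌊N ^ (ε / 8)⌋₊ with hG
  have hT1 : (T : ℝ) ≤ N ^ (ε / 16) := Nat.floor_le (by positivity)
  have hL1 : (L : ℝ) ≤ N ^ (ε / 3) := Nat.floor_le (by positivity)
  have hL2 : N ^ (ε / 3) < L + 1 := Nat.lt_floor_add_one _
  have hG1 : (G : ℝ) ≤ N ^ (ε / 8) := Nat.floor_le (by positivity)
  have hLpos : 0 < L := by
    have : (0 : ℝ) < L := by linarith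
    exact_mod_cast this
  have hL0 : (0 : ℝ) ≤ L := Nat.cast_nonneg L
  have hT0 : (0 : ℝ) ≤ T := Nat.cast_nonneg T
  have hG0 : (0 : ℝ) ≤ G := Nat.cast_nonneg G
  have hU : (L : ℝ) * (T + 1) ≤ N ^ (ε / 3) * (N ^ (ε / 16) + 1) := by gcongr
  have hUc : ((L * (T + 1) : ℕ) : ℝ) = L * (T + 1) := by push_cast; ring
  have hU0 : 0 ≤ (L : ℝ) * (T + 1) := by positivity
  set W : ℝ := G + 2 + L * (T + 1) with hW
  have hW2 : 2 ≤ W := by linarith
  have hWle : W ≤ N ^ (ε / 8) + 2 + N ^ (ε / 3) * (N ^ (ε / 16) + 1) := by linarith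
  have hWW : W * (W + 1) ≤ (N / 2) ^ ε := by
    refine le_trans ?_ p3
    apply mul_le_mul hWle (by linarith) (by linarith) (by linarith)
  have hNpow : N ^ (1 - ε / 16) ≤ N := by
    calc N ^ (1 - ε / 16) ≤ N ^ (1 : ℝ) := Real.rpow_le_rpow_of_exponent_le hNge1 (by linarith)
      _ = N := Real.rpow_one N
  have hsmall : ∀ x : ℕ, (x : ℝ) < (2 * N) ^ (ε / 4) → 2 * x < L := by
    intro x hx
    have h1 : (0 : ℝ) < (2 * N) ^ (ε / 4) := by positivity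
    have h2 : 2 * (x : ℝ) < L := by linarith
    exact_mod_cast h2
  set v : ℕ → ℕ := fun n => ⌈√(E n)⌉₊ + G + 1 with hv
  have hvmono : Monotone v := by
    intro x y hxy
    simp only [hv]
    have : ⌈√(E x)⌉₊ ≤ ⌈√(E y)⌉₊ := Nat.ceil_le_ceil (Real.sqrt_le_sqrt (hE hxy))
    omega
  have hvup : ∀ n, (v n : ℝ) + L * (T + 1) ≤ √(E n) + W := by
    intro n
    have h1 : (⌈√(E n)⌉₊ : ℝ) < √(E n) + 1 := Nat.ceil_lt_add_one (Real.sqrt_nonneg _)
    simp only [hv]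
    push_cast
    linarith
  have hvlow : ∀ n, √(E n) + G + 1 ≤ v n := by
    intro n
    have h1 : √(E n) ≤ (⌈√(E n)⌉₊ : ℝ) := Nat.le_ceil _
    simp only [hv]
    push_cast
    linarith
  have hv3N : (v ⌊3 * N⌋₊ : ℝ) + L * (T + 1) ≤ N ^ (1 - ε / 16) := by
    have h1 := hvup ⌊3 * N⌋₊
    have h2 : √(E ⌊3 * N⌋₊) ≤ √(8 * N) := Real.sqrt_le_sqrt hEN
    linarith
  have hjr : (j : ℝ) ≤ 1 := by exact_mod_cast hj
  have hj0 : (0 : ℝ) ≤ j := Nat.cast_nonneg j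
  apply hwin N hNN1 f hf hd v j (by linarith) hvmono L hLpos (by rw [← hT]; exact hv3N)
  intro n hn
  obtain ⟨h1, h2, h, hh, s, h5⟩ := hS n hn
  refine ⟨h1, h2, s, ?_⟩
  apply hsmall
  refine lt_of_le_of_lt ?_ h5
  rw [← hT]
  have hn3 : n ≤ ⌊3 * N⌋₊ := by
    apply Nat.le_floor
    linarith
  have hvUn : v n + L * (T + 1) ≤ n := by
    have h6 : (v n : ℝ) ≤ v ⌊3 * N⌋₊ := by exact_mod_cast hvmono hn3
    have : ((v n + L * (T + 1) : ℕ) : ℝ) ≤ n := by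
      push_cast
      linarith
    exact_mod_cast this
  have hhG : (h : ℝ) ≤ G := by exact_mod_cast hh
  have hh0 : (0 : ℝ) ≤ h := Nat.cast_nonneg h
  have hsE : √(E n) ^ 2 = E n := Real.sq_sqrt (hE0 n)
  have hsE0 : 0 ≤ √(E n) := Real.sqrt_nonneg _
  have hlow := hvlow n
  have hup := hvup n
  have h6 := gen_inj f s n j (v n) (L * (T + 1))
    ((n : ℝ) ^ 2 + j * n - h * (h + j) - E n) ((1 + √(E n)) * (N / 2) ^ ε) (by simp only [hv]; omega)
    hvUn (by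
      have e1 : (h : ℝ) * (h + j) + E n < v n * (v n + j) := by
        have e2 : √(E n) + h + 1 ≤ v n := by linarith
        have e3 : (√(E n) + h + 1) * (√(E n) + h + 1 + j) ≤ v n * (v n + j) := by
          apply mul_le_mul e2 (by linarith) (by linarith) (by linarith)
        have e4 : (h : ℝ) * (h + j) + √(E n) ^ 2 < (√(E n) + h + 1) * (√(E n) + h + 1 + j) := by
          have g1 := mul_nonneg hsE0 hh0
          have g2 := mul_nonneg hsE0 hj0
          have g3 : (√(E n) + h + 1) * (√(E n) + h + 1 + j) = h * (h + j) + √(E n) ^ 2 +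
              2 * (√(E n) * h) + √(E n) * j + 2 * √(E n) + 2 * h + j + 1 := by ring
          rw [g3]
          linarith
        linarith
      linarith) (by
      rw [hUc]
      have e1 : ((v n : ℝ) + L * (T + 1)) * (v n + L * (T + 1) + j) ≤
          (√(E n) + W) * (√(E n) + W + 1) := by
        apply mul_le_mul hup (by linarith) (by positivity) (by linarith)
      have e2 : (√(E n) + W) * (√(E n) + W + 1) = E n + √(E n) * (2 * W + 1) + W * (W + 1) := by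
        calc (√(E n) + W) * (√(E n) + W + 1) = √(E n) ^ 2 + √(E n) * (2 * W + 1) + W * (W + 1) := by
              ring
          _ = _ := by rw [hsE]
      have e3 : 2 * W + 1 ≤ (N / 2) ^ ε := by nlinarith
      have e4 : √(E n) * (2 * W + 1) ≤ √(E n) * (N / 2) ^ ε :=
        mul_le_mul_of_nonneg_left e3 hsE0
      have e5 : 0 ≤ (h : ℝ) * (h + j) := by positivity
      have e6 : (1 + √(E n)) * (N / 2) ^ ε = (N / 2) ^ ε + √(E n) * (N / 2) ^ ε := by ring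
      rw [e6]
      linarith)
  exact_mod_cast h6

end Pool.Agent.BrE
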