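import Pool.Agent.BrE.GenA
import Pool.Agent.BrE.Fin

set_option autoImplicit false

/-!
# All products of two integers between consecutive primes, one scale
-/

open Finset

namespace Pool.Agent.BrE

theorem count_eq (i n : ℕ) (h1 : pr i < n) (h2 : n ≤ pr (i + 1)) :
    Nat.count Nat.Prime n = i + 1 := by
  have e1 : i < Nat.count Nat.Prime n :=
    (Nat.lt_nth_iff_count_lt Nat.infinite_setOfPred_prime).mpr h1
  have e2 : Nat.count Nat.Prime n ≤ i + 1 :=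
    (Nat.count_le_iff_le_nth Nat.infinite_setOfPred_prime).mpr h2
  omega

/-- the last prime before `n` -/
noncomputable def lp (n : ℕ) : ℕ := pr (Nat.count Nat.Prime n - 1)

theorem lp_mono : Monotone lp := by
  intro x y hxy
  apply pr_strictMono.monotone
  have := Nat.count_monotone Nat.Prime hxy
  omega

theorem lp_eq (i n : ℕ) (h1 : pr i < n) (h2 : n ≤ pr (i + 1)) : lp n = pr i := by
  rw [lp, count_eq i n h1 h2, Nat.add_sub_cancel]

theorem lp_lt (n : ℕ) (hn : 3 ≤ n) : lp n < n := by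
  apply Nat.nth_lt_of_lt_count
  have h1 : 0 < Nat.count Nat.Prime 3 := by decide
  have h2 := Nat.count_monotone Nat.Prime hn
  omega

/-- one parity of the sum of the factors -/
theorem prime_half (q : ℕ) (hq : 1 ≤ q) (ε : ℝ) (hε : 0 < ε) (hε1 : ε ≤ 1) :
    ∃ c κ : ℝ, 0 < c ∧ c ≤ 1 / 2 ∧ 0 < κ ∧ κ ≤ 1 / 8 ∧ ∃ M0 : ℝ, 16 ≤ M0 ∧
      ∀ M : ℝ, M0 ≤ M → ∀ f : ℕ → ℂ, RM q f → DensE f κ (M ^ (1 / 4 : ℝ)) →
      ∀ D : ℕ → ℝ, Monotone D → (∀ n, 0 ≤ D n ∧ D n ≤ 2 * n) → ∀ j : ℕ, j ≤ 1 →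
      ∀ S : Finset ℕ, (∀ i ∈ S, M ≤ pr i ∧ (pr i : ℝ) ≤ 2 * M ∧ ∃ n h : ℕ, pr i < n + j ∧
        n + j ≤ pr (i + 1) ∧ h ≤ ⌊M ^ (ε / 8)⌋₊ ∧ ∃ s : ℂ,
          (Set.ncard {m : ℕ | (n : ℝ) ^ 2 + j * n - h * (h + j) - D (pr i) -
              (1 + √(D (pr i))) * (pr i : ℝ) ^ ε < m ∧
            (m : ℝ) < (n : ℝ) ^ 2 + j * n - h * (h + j) - D (pr i) ∧ f m ≠ s} : ℝ) <
            (pr i : ℝ) ^ (ε / 4)) → (S.card : ℝ) ≤ 8 * M ^ (1 - c) := by
  classical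
  obtain ⟨c, κ, hc, hc2, hκ, hκ8, N0, hN0, hgen⟩ := gen_scale q hq ε hε hε1
  refine ⟨c, κ, hc, hc2, hκ, hκ8, max N0 16, le_max_right _ _, ?_⟩
  intro M hM f hf hd D hD hDb j hj S hS
  have hMN0 : N0 ≤ M := (le_max_left _ _).trans hM
  have hM16 : 16 ≤ M := (le_max_right _ _).trans hM
  have hM0 : 0 < M := by linarith
  have hM1 : 1 ≤ M := by linarith
  set E : ℕ → ℝ := fun n => D (lp (n + j)) with hE
  have hEmono : Monotone E := fun x y hxy => hD (lp_mono (Nat.add_le_add_right hxy j))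
  have hE0 : ∀ n, 0 ≤ E n := fun n => (hDb _).1
  have hEN : ∀ N : ℝ, 16 ≤ N → E ⌊3 * N⌋₊ ≤ 8 * N := by
    intro N hN
    have h1 : (E ⌊3 * N⌋₊ : ℝ) ≤ 2 * (lp (⌊3 * N⌋₊ + j) : ℝ) := (hDb _).2
    have h3 : 3 ≤ ⌊3 * N⌋₊ := by
      apply Nat.le_floor
      push_cast
      linarith
    have h2 : lp (⌊3 * N⌋₊ + j) < ⌊3 * N⌋₊ + j := lp_lt _ (by omega)
    have h4 : lp (⌊3 * N⌋₊ + j) ≤ ⌊3 * N⌋₊ + 1 := by omega
    have h5 : (lp (⌊3 * N⌋₊ + j) : ℝ) ≤ (⌊3 * N⌋₊ : ℝ) + 1 := by exact_mod_cast h4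
    have h6 : (⌊3 * N⌋₊ : ℝ) ≤ 3 * N := Nat.floor_le (by positivity)
    linarith
  have r1 := hgen M hMN0 f hf hd E hEmono hE0 (hEN M hM16) j hj
  have r2 := hgen (2 * M) (by linarith) f hf (hd.mono (by
    apply Real.rpow_le_rpow hM0.le (by linarith) (by norm_num))) E hEmono hE0
    (hEN (2 * M) (by linarith)) j hj
  set C : ℝ := 4 * M ^ (1 - c) with hC
  have hC1 : 2 * M ^ (1 - c) ≤ C := by
    rw [hC]
    have : 0 < M ^ (1 - c) := by positivity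
    linarith
  have hC2 : 2 * (2 * M) ^ (1 - c) ≤ C := by
    rw [hC, Real.mul_rpow (by norm_num) hM0.le]
    have h1 : (2 : ℝ) ^ (1 - c) ≤ 2 := by
      calc (2 : ℝ) ^ (1 - c) ≤ 2 ^ (1 : ℝ) :=
            Real.rpow_le_rpow_of_exponent_le (by norm_num) (by linarith)
        _ = 2 := Real.rpow_one 2
    have h2 : 0 < M ^ (1 - c) := by positivity
    nlinarith
  have hGG : ⌊M ^ (ε / 8)⌋₊ ≤ ⌊(2 * M) ^ (ε / 8)⌋₊ := by
    apply Nat.floor_le_floor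
    apply Real.rpow_le_rpow hM0.le (by linarith) (by positivity)
  choose! n h g1 g2 g3 s g4 using fun i hi => (hS i hi).2.2
  have hinj : Set.InjOn n S := by
    intro x hx y hy hxy
    have e1 := count_eq x (n x + j) (g1 x hx) (g2 x hx)
    have e2 := count_eq y (n y + j) (g1 y hy) (g2 y hy)
    rw [hxy] at e1
    omega
  have hfin := two_scales n S hinj M C _ _ (fun S' hS' => (r1 S' hS').trans hC1)
    (fun S' hS' => (r2 S' hS').trans hC2) (by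
    intro i hi
    obtain ⟨k1, k2, -⟩ := hS i hi
    have hg1 := g1 i hi
    have hg2 := g2 i hi
    have hg3 := g3 i hi
    have hg4 := g4 i hi
    have hsucc : (pr (i + 1) : ℝ) ≤ 2 * pr i := by exact_mod_cast pr_succ_le i
    have hlpe : lp (n i + j) = pr i := lp_eq i _ hg1 hg2
    have hEe : E (n i) = D (pr i) := by rw [hE]; simp only; rw [hlpe]
    have hnl : pr i ≤ n i := by omega
    have hnlr : (pr i : ℝ) ≤ n i := by exact_mod_cast hnl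
    have hnu : n i ≤ pr (i + 1) := by omega
    have hnur : (n i : ℝ) ≤ pr (i + 1) := by exact_mod_cast hnu
    have hsD : 0 ≤ √(D (pr i)) := Real.sqrt_nonneg _
    have hth : (pr i : ℝ) ^ (ε / 4) ≤ (2 * M) ^ (ε / 4) :=
      Real.rpow_le_rpow (Nat.cast_nonneg _) k2 (by positivity)
    have hth2 : (2 * M) ^ (ε / 4) ≤ (2 * (2 * M)) ^ (ε / 4) :=
      Real.rpow_le_rpow (by positivity) (by linarith) (by positivity)
    refine ⟨by linarith, by linarith, fun _ => ?_, fun _ => ?_⟩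
    · refine ⟨h i, hg3, s i, ?_⟩
      rw [hEe]
      refine lt_of_le_of_lt ?_ (hg4.trans_le hth)
      refine Nat.cast_le.mpr (win_mono f (s i) _ _ _ ?_)
      have : (M / 2) ^ ε ≤ (pr i : ℝ) ^ ε :=
        Real.rpow_le_rpow (by positivity) (by linarith) hε.le
      nlinarith
    · refine ⟨h i, hg3.trans hGG, s i, ?_⟩
      rw [hEe]
      refine lt_of_le_of_lt ?_ (hg4.trans_le (hth.trans hth2))
      refine Nat.cast_le.mpr (win_mono f (s i) _ _ _ ?_)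
      have : (2 * M / 2) ^ ε ≤ (pr i : ℝ) ^ ε :=
        Real.rpow_le_rpow (by positivity) (by linarith) hε.le
      nlinarith)
  refine hfin.trans (le_of_eq ?_)
  rw [hC]
  ring

/-- few values different from `s` below some product of two integers of `[p, p']` -/
def BadA (f : ℕ → ℂ) (ε : ℝ) (D : ℕ → ℝ) (i : ℕ) : Prop := ∃ a b : ℕ, pr i ≤ a ∧ a ≤ b ∧
  b ≤ pr (i + 1) ∧ pr i < b ∧ ∃ s : ℂ,
    (Set.ncard {m : ℕ | (a : ℝ) * b - D (pr i) - (1 + √(D (pr i))) * (pr i : ℝ) ^ ε < m ∧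
      (m : ℝ) < (a : ℝ) * b - D (pr i) ∧ f m ≠ s} : ℝ) < (pr i : ℝ) ^ (ε / 4)

/-- products of two integers between consecutive primes with a small gap -/
theorem prime_prod (q : ℕ) (hq : 1 ≤ q) (ε : ℝ) (hε : 0 < ε) (hε1 : ε ≤ 1) :
    ∃ c κ : ℝ, 0 < c ∧ c ≤ 1 / 2 ∧ 0 < κ ∧ κ ≤ 1 / 8 ∧ ∃ M0 : ℝ, 16 ≤ M0 ∧
      ∀ M : ℝ, M0 ≤ M → ∀ f : ℕ → ℂ, RM q f → DensE f κ (M ^ (1 / 4 : ℝ)) →
      ∀ D : ℕ → ℝ, Monotone D → (∀ n, 0 ≤ D n ∧ D n ≤ 2 * n) →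
      ∀ S : Finset ℕ, (∀ i ∈ S, M ≤ pr i ∧ (pr i : ℝ) ≤ 2 * M ∧
        pr (i + 1) - pr i ≤ 2 * ⌊M ^ (ε / 8)⌋₊ ∧ BadA f ε D i) →
        (S.card : ℝ) ≤ 16 * M ^ (1 - c) := by
  classical
  obtain ⟨c, κ, hc, hc2, hκ, hκ8, M0, hM0, hhalf⟩ := prime_half q hq ε hε hε1
  refine ⟨c, κ, hc, hc2, hκ, hκ8, M0, hM0, ?_⟩
  intro M hM f hf hd D hD hDb S hS
  have key := hhalf M hM f hf hd D hD hDb
  set Bj : ℕ → ℕ → Prop := fun j i => ∃ n h : ℕ, pr i < n + j ∧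
        n + j ≤ pr (i + 1) ∧ h ≤ ⌊M ^ (ε / 8)⌋₊ ∧ ∃ s : ℂ,
          (Set.ncard {m : ℕ | (n : ℝ) ^ 2 + j * n - h * (h + j) - D (pr i) -
              (1 + √(D (pr i))) * (pr i : ℝ) ^ ε < m ∧
            (m : ℝ) < (n : ℝ) ^ 2 + j * n - h * (h + j) - D (pr i) ∧ f m ≠ s} : ℝ) <
            (pr i : ℝ) ^ (ε / 4) with hBj
  have b0 := key 0 (by norm_num) (S.filter (Bj 0)) (by
    intro i hi
    rw [mem_filter] at hi
    exact ⟨(hS i hi.1).1, (hS i hi.1).2.1, hi.2⟩)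
  have b1 := key 1 le_rfl (S.filter (Bj 1)) (by
    intro i hi
    rw [mem_filter] at hi
    exact ⟨(hS i hi.1).1, (hS i hi.1).2.1, hi.2⟩)
  have hcov : S ⊆ S.filter (Bj 0) ∪ S.filter (Bj 1) := by
    intro i hi
    obtain ⟨-, -, hgap, a, b, ha, hab, hb, hpb, s, hs⟩ := hS i hi
    rw [mem_union, mem_filter, mem_filter]
    rcases Nat.even_or_odd' (b - a) with ⟨h, hh | hh⟩
    · left
      refine ⟨hi, a + h, h, by omega, by omega, by omega, s, ?_⟩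
      have hbb : b = a + 2 * h := by omega
      have e : (((a + h : ℕ) : ℝ)) ^ 2 + ((0 : ℕ) : ℝ) * ((a + h : ℕ) : ℝ) - h * (h + ((0 : ℕ) : ℝ))
          = (a : ℝ) * b := by
        rw [hbb]
        push_cast
        ring
      rw [e]
      exact hs
    · right
      refine ⟨hi, a + h, h, by omega, by omega, by omega, s, ?_⟩
      have hbb : b = a + (2 * h + 1) := by omega
      have e : (((a + h : ℕ) : ℝ)) ^ 2 + ((1 : ℕ) : ℝ) * ((a + h : ℕ) : ℝ) - h * (h + ((1 : ℕ) : ℝ))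
          = (a : ℝ) * b := by
        rw [hbb]
        push_cast
        ring
      rw [e]
      exact hs
  have hle := (card_le_card hcov).trans (card_union_le _ _)
  have hle' : (S.card : ℝ) ≤ ((S.filter (Bj 0)).card : ℝ) + (S.filter (Bj 1)).card := by
    exact_mod_cast hle
  linarith

end Pool.Agent.BrE
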