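import Pool.Agent.BrE.GenB

set_option autoImplicit false

/-!
# Exceptional starting points between the squares of consecutive primes
-/

open Finset

namespace Pool.Agent.BrE

theorem y_params (ε X0 : ℝ) (hε : 0 < ε) (hε1 : ε ≤ 1) :
    ∀ᶠ M : ℝ in Filter.atTop, 16 ≤ M ∧ X0 ≤ M ∧
      1 + (2 * (2 * M) ^ (ε / 4) + 2) * ((8 * M ^ 2) ^ (ε / 16) + 1) < M ^ ε ∧
      2 * M ^ (ε / 8) ≤ M := by
  have key : ∀ a b C : ℝ, 0 ≤ C → a < b → ∀ᶠ N : ℝ in Filter.atTop, C * N ^ a ≤ N ^ b := by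
    intro a b C hC hab
    filter_upwards [ev_rpow (b - a) C (by linarith), Filter.eventually_gt_atTop (0 : ℝ)]
      with N h1 h2
    calc C * N ^ a ≤ N ^ (b - a) * N ^ a := by gcongr
      _ = N ^ b := by
          rw [← Real.rpow_add h2]
          congr 1
          ring
  filter_upwards [Filter.eventually_ge_atTop (16 : ℝ), Filter.eventually_ge_atTop X0,
    key (3 * ε / 8) ε 26 (by norm_num) (by linarith),
    key (ε / 8) 1 2 (by norm_num) (by linarith)] with M g1 g2 g3 g4
  have hM0 : 0 < M := by linarith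
  have hM1 : 1 ≤ M := by linarith
  refine ⟨g1, g2, ?_, ?_⟩
  · have a1 : (2 * M) ^ (ε / 4) ≤ 2 * M ^ (ε / 4) := by
      rw [Real.mul_rpow (by norm_num) hM0.le]
      apply mul_le_mul_of_nonneg_right _ (by positivity)
      calc (2 : ℝ) ^ (ε / 4) ≤ 2 ^ (1 : ℝ) :=
            Real.rpow_le_rpow_of_exponent_le (by norm_num) (by linarith)
        _ = 2 := Real.rpow_one 2
    have a2 : (8 * M ^ 2) ^ (ε / 16) ≤ 2 * M ^ (ε / 8) := by
      rw [Real.mul_rpow (by norm_num) (by positivity)]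
      have e1 : ((M : ℝ) ^ 2) ^ (ε / 16) = M ^ (ε / 8) := by
        rw [← Real.rpow_natCast M 2, ← Real.rpow_mul hM0.le]
        congr 1
        push_cast
        ring
      rw [e1]
      apply mul_le_mul_of_nonneg_right _ (by positivity)
      calc (8 : ℝ) ^ (ε / 16) ≤ 8 ^ (1 / 3 : ℝ) :=
            Real.rpow_le_rpow_of_exponent_le (by norm_num) (by linarith)
        _ = 2 := by
            rw [show (8 : ℝ) = 2 ^ (3 : ℝ) by norm_num, ← Real.rpow_mul (by norm_num)]
            norm_num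
    have b1 : 1 ≤ M ^ (ε / 4) := Real.one_le_rpow hM1 (by positivity)
    have b2 : 1 ≤ M ^ (ε / 8) := Real.one_le_rpow hM1 (by positivity)
    have b3 : M ^ (ε / 4) * M ^ (ε / 8) = M ^ (3 * ε / 8) := by
      rw [← Real.rpow_add hM0]
      congr 1
      ring
    have b4 : 1 ≤ M ^ (3 * ε / 8) := Real.one_le_rpow hM1 (by positivity)
    calc 1 + (2 * (2 * M) ^ (ε / 4) + 2) * ((8 * M ^ 2) ^ (ε / 16) + 1)
        ≤ 1 + (2 * (2 * M ^ (ε / 4)) + 2 * M ^ (ε / 4)) * (2 * M ^ (ε / 8) + M ^ (ε / 8)) := by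
          gcongr
          linarith
      _ = 1 + 18 * (M ^ (ε / 4) * M ^ (ε / 8)) := by ring
      _ = 1 + 18 * M ^ (3 * ε / 8) := by rw [b3]
      _ < 26 * M ^ (3 * ε / 8) := by linarith
      _ ≤ M ^ ε := g3
  · rw [Real.rpow_one] at g4
    exact g4

/-- few exceptional starting points -/
theorem almost_y (q : ℕ) (hq : 1 ≤ q) (ε : ℝ) (hε : 0 < ε) (hε1 : ε ≤ 1) :
    ∃ c κ : ℝ, 0 < c ∧ c ≤ 1 ∧ 0 < κ ∧ κ ≤ 1 / 8 ∧ ∃ M0 : ℝ, 16 ≤ M0 ∧
      ∀ M : ℝ, M0 ≤ M → ∀ f : ℕ → ℂ, RM q f → DensE f κ M →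
      ∀ S : Finset ℕ, (∀ y ∈ S, M ^ 2 ≤ y ∧ (y : ℝ) ≤ 9 * M ^ 2 ∧ ∃ s : ℂ,
        (Set.ncard {m : ℕ | (y : ℝ) < m ∧ (m : ℝ) < y + M ^ ε ∧ f m ≠ s} : ℝ) <
          (2 * M) ^ (ε / 4)) → (S.card : ℝ) ≤ 64 * (M ^ 2) ^ (1 - c) := by
  classical
  obtain ⟨c, κ, hc, hc1, hκ, hκ8, X0, hX0, hA⟩ := thmA' q hq (ε / 16) (by positivity) (by linarith)
  obtain ⟨M1, hM1⟩ := Filter.eventually_atTop.mp (y_params ε X0 hε hε1)
  refine ⟨c, κ, hc, hc1, hκ, hκ8, max M1 16, le_max_right _ _, ?_⟩
  intro M hM f hf hd S hS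
  obtain ⟨p1, p2, p3, p4⟩ := hM1 M ((le_max_left _ _).trans hM)
  have hM0 : 0 < M := by linarith
  have hMge1 : 1 ≤ M := by linarith
  set X : ℝ := M ^ 2 with hX
  have hXM : M ≤ X := by rw [hX]; nlinarith
  have hX0' : 0 < X := by positivity
  set T : ℕ := ⌈(8 * X) ^ (ε / 16)⌉₊ with hT
  have hT1 : (T : ℝ) < (8 * X) ^ (ε / 16) + 1 := Nat.ceil_lt_add_one (by positivity)
  have hTpos : 0 < T := Nat.ceil_pos.mpr (by positivity)
  set J : ℕ := ⌊(2 * M) ^ (ε / 4)⌋₊ + 1 with hJ
  have hJ1 : (J : ℝ) ≤ (2 * M) ^ (ε / 4) + 1 := by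
    rw [hJ]
    push_cast
    have := Nat.floor_le (show 0 ≤ (2 * M) ^ (ε / 4) by positivity)
    linarith
  have hJ2 : (2 * M) ^ (ε / 4) < J := by
    rw [hJ]
    push_cast
    exact Nat.lt_floor_add_one _
  have hJpos : (0 : ℝ) < J := by
    have : 0 < (2 * M) ^ (ε / 4) := by positivity
    linarith
  set I : ℕ := 2 * J with hI
  have hIT : 1 + (I : ℝ) * T < M ^ ε := by
    refine lt_of_le_of_lt ?_ p3
    have h1 : (I : ℝ) ≤ 2 * (2 * M) ^ (ε / 4) + 2 := by
      rw [hI]
      push_cast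
      linarith
    have h2 : (I : ℝ) * T ≤ (2 * (2 * M) ^ (ε / 4) + 2) * ((8 * X) ^ (ε / 16) + 1) :=
      mul_le_mul h1 hT1.le (Nat.cast_nonneg _) (by positivity)
    linarith
  have hMεM : M ^ ε ≤ M := by
    calc M ^ ε ≤ M ^ (1 : ℝ) := Real.rpow_le_rpow_of_exponent_le hMge1 hε1
      _ = M := Real.rpow_one M
  -- constancy on a block
  set P : ℕ → Prop := fun y => ∀ n ∈ Ico y (y + T), f n = f y with hP
  have hPcount : ∀ S' : Finset ℕ, (∀ y ∈ S', X ≤ y ∧ (y : ℝ) ≤ 16 * X ∧ P y) →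
      (S'.card : ℝ) ≤ 4 * (8 * X ^ (1 - c)) := by
    intro S' hS'
    refine four_pieces P X (8 * X ^ (1 - c)) ?_ S' hS'
    intro Y hYc S'' hS''
    have hYlow : X ≤ Y := by
      rcases hYc with h | h | h | h <;> rw [h] <;> linarith
    have hYup : Y ≤ 8 * X := by
      rcases hYc with h | h | h | h <;> rw [h] <;> linarith
    have hY0 : 0 < Y := by linarith
    have hYh : M ≤ Y ^ (1 / 2 : ℝ) := by
      calc M = X ^ (1 / 2 : ℝ) := by
            rw [hX, ← Real.sqrt_eq_rpow, Real.sqrt_sq hM0.le]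
        _ ≤ Y ^ (1 / 2 : ℝ) := Real.rpow_le_rpow hX0'.le hYlow (by norm_num)
    have h1 := hA Y (by linarith) f hf (hd.mono hYh) S'' (by
      intro y hy
      obtain ⟨g1, g2, g3⟩ := hS'' y hy
      refine ⟨g1, g2, ?_⟩
      intro n hn
      apply g3
      rw [mem_Ico] at hn ⊢
      have : ⌈Y ^ (ε / 16)⌉₊ ≤ T := by
        apply Nat.ceil_le_ceil
        exact Real.rpow_le_rpow hY0.le hYup (by positivity)
      omega)
    refine h1.trans ?_
    calc Y ^ (1 - c) ≤ (8 * X) ^ (1 - c) := Real.rpow_le_rpow hY0.le hYup (by linarith)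
      _ = 8 ^ (1 - c) * X ^ (1 - c) := Real.mul_rpow (by norm_num) hX0'.le
      _ ≤ 8 * X ^ (1 - c) := by
          apply mul_le_mul_of_nonneg_right _ (by positivity)
          calc (8 : ℝ) ^ (1 - c) ≤ 8 ^ (1 : ℝ) :=
                Real.rpow_le_rpow_of_exponent_le (by norm_num) (by linarith)
            _ = 8 := Real.rpow_one 8
  have hrow : ∀ i ∈ range I, ((S.filter (fun y => P (y + 1 + i * T))).card : ℝ) ≤
      4 * (8 * X ^ (1 - c)) := by
    intro i hi
    rw [mem_range] at hi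
    have hinj : Set.InjOn (fun y : ℕ => y + 1 + i * T) (S.filter (fun y => P (y + 1 + i * T))) := by
      intro x _ y _ hxy
      simp only at hxy
      omega
    rw [← card_image_of_injOn hinj]
    apply hPcount
    intro z hz
    rw [mem_image] at hz
    obtain ⟨y, hy, rfl⟩ := hz
    rw [mem_filter] at hy
    obtain ⟨g1, g2, -⟩ := hS y hy.1
    have h1 : (i * T : ℕ) ≤ I * T := Nat.mul_le_mul_right _ hi.le
    have h2 : ((i * T : ℕ) : ℝ) ≤ I * T := by exact_mod_cast h1
    refine ⟨?_, ?_, hy.2⟩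
    · push_cast at h2 ⊢
      have : (0 : ℝ) ≤ i * T := by positivity
      linarith
    · push_cast at h2 ⊢
      linarith
  have hcol : ∀ y ∈ S, (J : ℝ) ≤ (((range I).filter (fun i => P (y + 1 + i * T))).card : ℝ) := by
    intro y hy
    obtain ⟨-, -, s, hs⟩ := hS y hy
    have hfin : Set.Finite {m : ℕ | (y : ℝ) < m ∧ (m : ℝ) < y + M ^ ε ∧ f m ≠ s} :=
      win_fin f s y _
    have hbad : ((range I).filter (fun i => ¬ P (y + 1 + i * T))).card ≤
        Set.ncard {m : ℕ | (y : ℝ) < m ∧ (m : ℝ) < y + M ^ ε ∧ f m ≠ s} := by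
      have hch : ∀ i ∈ (range I).filter (fun i => ¬ P (y + 1 + i * T)), ∃ t, t < T ∧
          f (y + 1 + i * T + t) ≠ s := by
        intro i hi
        rw [mem_filter] at hi
        have hi2 := hi.2
        by_contra hcon
        push Not at hcon
        apply hi2
        intro n hn
        rw [mem_Ico] at hn
        have e1 := hcon (n - (y + 1 + i * T)) (by omega)
        have e2 := hcon 0 hTpos
        rw [show y + 1 + i * T + (n - (y + 1 + i * T)) = n by omega] at e1
        rw [e1, ← e2, Nat.add_zero]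
      choose! t ht1 ht2 using hch
      rw [← Set.ncard_coe_finset]
      apply Set.ncard_le_ncard_of_injOn (ht := hfin) (fun i => y + 1 + i * T + t i)
      · intro i hi
        have hi' := mem_filter.mp (mem_coe.mp hi)
        have h1 := ht1 i (mem_coe.mp hi)
        have h2 := ht2 i (mem_coe.mp hi)
        have h3 := mem_range.mp hi'.1
        have h4 : (i + 1) * T ≤ I * T := Nat.mul_le_mul_right _ h3
        have h5 : (i + 1) * T = i * T + T := by ring
        have h6 : y + 1 + i * T + t i ≤ y + (1 + I * T) := by omega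
        have h7 : ((y + 1 + i * T + t i : ℕ) : ℝ) ≤ y + (1 + I * T) := by exact_mod_cast h6
        refine ⟨?_, ?_, h2⟩
        · have h8 : y < y + 1 + i * T + t i := by omega
          exact_mod_cast h8
        · exact lt_of_le_of_lt h7 (by linarith)
      · intro i hi i' hi' hii
        simp only at hii
        have h1 := ht1 i (mem_coe.mp hi)
        have h2 := ht1 i' (mem_coe.mp hi')
        by_contra hne
        rcases lt_or_gt_of_ne hne with hlt | hlt
        · have h4 : (i + 1) * T ≤ i' * T := Nat.mul_le_mul_right _ hlt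
          have h5 : (i + 1) * T = i * T + T := by ring
          omega
        · have h4 : (i' + 1) * T ≤ i * T := Nat.mul_le_mul_right _ hlt
          have h5 : (i' + 1) * T = i' * T + T := by ring
          omega
    have h5 := card_filter_add_card_filter_not (s := range I) (fun i => P (y + 1 + i * T))
    rw [card_range] at h5
    have h6 : (((range I).filter (fun i => ¬ P (y + 1 + i * T))).card : ℝ) < J := by
      calc (((range I).filter (fun i => ¬ P (y + 1 + i * T))).card : ℝ) ≤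
          (Set.ncard {m : ℕ | (y : ℝ) < m ∧ (m : ℝ) < y + M ^ ε ∧ f m ≠ s} : ℝ) := by
            exact_mod_cast hbad
        _ < (2 * M) ^ (ε / 4) := hs
        _ < J := hJ2
    have h7 : ((range I).filter (fun i => ¬ P (y + 1 + i * T))).card < J := by exact_mod_cast h6
    have h8 : J ≤ ((range I).filter (fun i => P (y + 1 + i * T))).card := by omega
    exact_mod_cast h8
  have hdc : ∑ y ∈ S, (((range I).filter (fun i => P (y + 1 + i * T))).card : ℝ)
      = ∑ i ∈ range I, ((S.filter (fun y => P (y + 1 + i * T))).card : ℝ) := by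
    have h1 : ∑ y ∈ S, ((range I).filter (fun i => P (y + 1 + i * T))).card
        = ∑ i ∈ range I, (S.filter (fun y => P (y + 1 + i * T))).card := by
      simp only [card_filter]
      exact sum_comm
    exact_mod_cast h1
  have h1 : (S.card : ℝ) * J ≤
      ∑ y ∈ S, (((range I).filter (fun i => P (y + 1 + i * T))).card : ℝ) := by
    rw [← nsmul_eq_mul, ← sum_const]
    exact sum_le_sum hcol
  have h2 : ∑ i ∈ range I, ((S.filter (fun y => P (y + 1 + i * T))).card : ℝ) ≤
      I * (4 * (8 * X ^ (1 - c))) := by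
    have := sum_le_sum hrow
    rw [sum_const, card_range, nsmul_eq_mul] at this
    exact this
  rw [hdc] at h1
  have h3 : (S.card : ℝ) * J ≤ (64 * X ^ (1 - c)) * J := by
    calc (S.card : ℝ) * J ≤ I * (4 * (8 * X ^ (1 - c))) := h1.trans h2
      _ = (64 * X ^ (1 - c)) * J := by
          rw [hI]
          push_cast
          ring
  exact le_of_mul_le_mul_right h3 hJpos

end Pool.Agent.BrE
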