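import Pool.Agent.BrE.GenC

set_option autoImplicit false

/-!
# Few bad primes: products and starting points
-/

open Finset

namespace Pool.Agent.BrE

/-- starting points between the two squares with few values different from some `s` -/
def BadY (f : ℕ → ℂ) (ε : ℝ) (i : ℕ) : Set ℕ := {y : ℕ | pr i ^ 2 < y ∧ y < pr (i + 1) ^ 2 ∧
  ∃ s : ℂ, (Set.ncard {m : ℕ | (y : ℝ) < m ∧ (m : ℝ) < y + (pr i : ℝ) ^ ε ∧ f m ≠ s} : ℝ) <
    (pr i : ℝ) ^ (ε / 4)}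

theorem BadY_finite (f : ℕ → ℂ) (ε : ℝ) (i : ℕ) : (BadY f ε i).Finite := by
  apply Set.Finite.subset (Set.finite_Icc 0 (pr (i + 1) ^ 2))
  intro y hy
  exact ⟨Nat.zero_le _, hy.2.1.le⟩

/-- primes with a small gap and many exceptional starting points -/
theorem prime_y (q : ℕ) (hq : 1 ≤ q) (ε : ℝ) (hε : 0 < ε) (hε1 : ε ≤ 1) :
    ∃ c κ : ℝ, 0 < c ∧ c ≤ 1 ∧ 0 < κ ∧ κ ≤ 1 / 8 ∧ ∃ M0 : ℝ, 16 ≤ M0 ∧
      ∀ M : ℝ, M0 ≤ M → ∀ f : ℕ → ℂ, RM q f → DensE f κ M →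
      ∀ S : Finset ℕ, (∀ i ∈ S, M ≤ pr i ∧ (pr i : ℝ) ≤ 2 * M ∧
        pr (i + 1) - pr i ≤ 2 * ⌊M ^ (ε / 8)⌋₊ ∧
        (pr i : ℝ) ^ (1 - c) < Set.ncard (BadY f ε i)) →
        (S.card : ℝ) ≤ 64 * M ^ (1 - c) := by
  classical
  obtain ⟨c, κ, hc, hc1, hκ, hκ8, M0, hM0, hy⟩ := almost_y q hq ε hε hε1
  obtain ⟨M1, hM1⟩ := Filter.eventually_atTop.mp (y_params ε 0 hε hε1)
  refine ⟨c, κ, hc, hc1, hκ, hκ8, max M0 M1, hM0.trans (le_max_left _ _), ?_⟩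
  intro M hM f hf hd S hS
  obtain ⟨p1, p2, p3, p4⟩ := hM1 M ((le_max_right _ _).trans hM)
  have hMp : 0 < M := by linarith
  set Y : ℕ → Finset ℕ := fun i => (BadY_finite f ε i).toFinset with hY
  have hYcard : ∀ i, (Y i).card = Set.ncard (BadY f ε i) := fun i =>
    (Set.ncard_eq_toFinset_card _ (BadY_finite f ε i)).symm
  have hmem : ∀ i y, y ∈ Y i ↔ y ∈ BadY f ε i := fun i y =>
    Set.Finite.mem_toFinset (BadY_finite f ε i)
  have hdisj : ∀ i ∈ S, ∀ i' ∈ S, i ≠ i' → Disjoint (Y i) (Y i') := by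
    have main : ∀ i i' : ℕ, i < i' → Disjoint (Y i) (Y i') := by
      intro i i' hii
      rw [Finset.disjoint_left]
      intro y hy1 hy2
      rw [hmem] at hy1 hy2
      have h1 : pr (i + 1) ≤ pr i' := pr_strictMono.monotone hii
      have h2 := Nat.pow_le_pow_left h1 2
      have h3 := hy1.2.1
      have h4 := hy2.1
      omega
    intro i _ i' _ hne
    rcases Nat.lt_or_gt_of_ne hne with h | h
    · exact main i i' h
    · exact (main i' i h).symm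
  have hZ := hy M ((le_max_left _ _).trans hM) f hf hd (S.biUnion Y) (by
    intro y hyy
    rw [mem_biUnion] at hyy
    obtain ⟨i, hi, hyi⟩ := hyy
    rw [hmem] at hyi
    obtain ⟨h1, h2, s, hs⟩ := hyi
    obtain ⟨g1, g2, g3, -⟩ := hS i hi
    have e1 : (pr i : ℝ) ^ 2 < y := by exact_mod_cast h1
    have e2 : (y : ℝ) < (pr (i + 1) : ℝ) ^ 2 := by exact_mod_cast h2
    have e3 : M ^ 2 ≤ (pr i : ℝ) ^ 2 := pow_le_pow_left₀ hMp.le g1 2
    have e4 : (pr (i + 1) : ℝ) ≤ 3 * M := by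
      have k1 : pr (i + 1) ≤ pr i + 2 * ⌊M ^ (ε / 8)⌋₊ := by omega
      have k2 : (pr (i + 1) : ℝ) ≤ pr i + 2 * (⌊M ^ (ε / 8)⌋₊ : ℝ) := by exact_mod_cast k1
      have k3 : (⌊M ^ (ε / 8)⌋₊ : ℝ) ≤ M ^ (ε / 8) := Nat.floor_le (by positivity)
      linarith
    have e5 : (pr (i + 1) : ℝ) ^ 2 ≤ (3 * M) ^ 2 := pow_le_pow_left₀ (Nat.cast_nonneg _) e4 2
    refine ⟨by linarith, by nlinarith, s, ?_⟩
    have e6 : M ^ ε ≤ (pr i : ℝ) ^ ε := Real.rpow_le_rpow hMp.le g1 hε.le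
    have e7 : (pr i : ℝ) ^ (ε / 4) ≤ (2 * M) ^ (ε / 4) :=
      Real.rpow_le_rpow (Nat.cast_nonneg _) g2 (by positivity)
    refine lt_of_le_of_lt ?_ (hs.trans_le e7)
    apply Nat.cast_le.mpr
    apply Set.ncard_le_ncard _ (win_fin f s _ _)
    intro m hm
    obtain ⟨k1, k2, k3⟩ := hm
    exact ⟨k1, by linarith, k3⟩)
  rw [card_biUnion hdisj] at hZ
  have hsum : (S.card : ℝ) * M ^ (1 - c) ≤ ((∑ i ∈ S, (Y i).card : ℕ) : ℝ) := by
    push_cast
    rw [← nsmul_eq_mul]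
    apply card_nsmul_le_sum
    intro i hi
    obtain ⟨g1, g2, g3, g4⟩ := hS i hi
    rw [hYcard]
    exact (Real.rpow_le_rpow hMp.le g1 (by linarith)).trans g4.le
  have hpow : 0 < M ^ (1 - c) := by positivity
  have hsq : (M ^ 2) ^ (1 - c) = M ^ (1 - c) * M ^ (1 - c) := by
    rw [sq, Real.mul_rpow hMp.le hMp.le]
  rw [hsq] at hZ
  have h5 : (S.card : ℝ) * M ^ (1 - c) ≤ (64 * M ^ (1 - c)) * M ^ (1 - c) := by
    calc (S.card : ℝ) * M ^ (1 - c) ≤ 64 * (M ^ (1 - c) * M ^ (1 - c)) := hsum.trans hZ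
      _ = _ := by ring
  exact le_of_mul_le_mul_right h5 hpow

/-- bad primes of either kind -/
def BadP (f : ℕ → ℂ) (ε c : ℝ) (D : ℕ → ℝ) (i : ℕ) : Prop :=
  BadA f ε D i ∨ (pr i : ℝ) ^ (1 - c) < Set.ncard (BadY f ε i)

/-- all bad primes at one scale -/
theorem gen_prime_scale (q : ℕ) (hq : 1 ≤ q) (ε : ℝ) (hε : 0 < ε) (hε1 : ε ≤ 1) :
    ∃ c κ : ℝ, 0 < c ∧ c ≤ 1 / 2 ∧ 0 < κ ∧ κ ≤ 1 / 8 ∧ ∃ M0 : ℝ, 16 ≤ M0 ∧
      ∀ M : ℝ, M0 ≤ M → ∀ f : ℕ → ℂ, RM q f → DensE f κ (M ^ (1 / 4 : ℝ)) →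
      ∀ D : ℕ → ℝ, Monotone D → (∀ n, 0 ≤ D n ∧ D n ≤ 2 * n) →
      ∀ S : Finset ℕ, (∀ i ∈ S, M ≤ pr i ∧ (pr i : ℝ) ≤ 2 * M ∧ BadP f ε c D i) →
        (S.card : ℝ) ≤ M ^ (1 - c) := by
  classical
  obtain ⟨c1, κ1, hc1, hc12, hκ1, hκ18, M1, hM1, hprod⟩ := prime_prod q hq ε hε hε1
  obtain ⟨c2, κ2, hc2, hc21, hκ2, hκ28, M2, hM2, hyy⟩ := prime_y q hq ε hε hε1
  set c' : ℝ := min (min c1 c2) (ε / 8) with hc'
  have hc'0 : 0 < c' := by positivity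
  have hc'1 : c' ≤ c1 := (min_le_left _ _).trans (min_le_left _ _)
  have hc'2 : c' ≤ c2 := (min_le_left _ _).trans (min_le_right _ _)
  have hc'ε : c' ≤ ε / 8 := min_le_right _ _
  set κ : ℝ := min κ1 κ2 with hκ
  have hκ0 : 0 < κ := by positivity
  have hκa : κ ≤ κ1 := min_le_left _ _
  have hκb : κ ≤ κ2 := min_le_right _ _
  obtain ⟨M3, hM3⟩ := Filter.eventually_atTop.mp ((ev_rpow (c' / 2) 82 (by positivity)).and
    (Filter.eventually_ge_atTop (16 : ℝ)))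
  refine ⟨c' / 2, κ, by positivity, by linarith, hκ0, by linarith, max (max M1 M2) M3,
    hM1.trans ((le_max_left _ _).trans (le_max_left _ _)), ?_⟩
  intro M hM f hf hd D hD hDb S hS
  have hMM1 : M1 ≤ M := ((le_max_left _ _).trans (le_max_left _ _)).trans hM
  have hMM2 : M2 ≤ M := ((le_max_right _ _).trans (le_max_left _ _)).trans hM
  obtain ⟨h82, h16⟩ := hM3 M ((le_max_right _ _).trans hM)
  have hM0 : 0 < M := by linarith
  have hMge1 : 1 ≤ M := by linarith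
  have hMq : 1 ≤ M ^ (1 / 4 : ℝ) := Real.one_le_rpow hMge1 (by norm_num)
  have hMqM : M ^ (1 / 4 : ℝ) ≤ M := by
    calc M ^ (1 / 4 : ℝ) ≤ M ^ (1 : ℝ) := Real.rpow_le_rpow_of_exponent_le hMge1 (by norm_num)
      _ = M := Real.rpow_one M
  have hdk : ∀ κ' : ℝ, κ ≤ κ' → DensE f κ' (M ^ (1 / 4 : ℝ)) := by
    intro κ' hκ' s x hx
    refine le_trans ?_ (hd s x hx)
    exact Real.rpow_le_rpow_of_exponent_le (hMq.trans hx) (by linarith)
  set G : ℕ := ⌊M ^ (ε / 8)⌋₊ with hG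
  have hG2 : M ^ (ε / 8) < G + 1 := Nat.lt_floor_add_one _
  set A1 := S.filter (fun i => pr (i + 1) - pr i ≤ 2 * G ∧ BadA f ε D i) with hA1
  set A2 := S.filter (fun i => 2 * G < pr (i + 1) - pr i) with hA2
  set A3 := S.filter (fun i => pr (i + 1) - pr i ≤ 2 * G ∧
    (pr i : ℝ) ^ (1 - c' / 2) < Set.ncard (BadY f ε i)) with hA3
  have hpow : ∀ x y : ℝ, x ≤ y → M ^ x ≤ M ^ y := fun x y hxy =>
    Real.rpow_le_rpow_of_exponent_le hMge1 hxy
  have b1 : (A1.card : ℝ) ≤ 16 * M ^ (1 - c1) := by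
    apply hprod M hMM1 f hf (hdk κ1 hκa) D hD hDb
    intro i hi
    rw [hA1, mem_filter] at hi
    exact ⟨(hS i hi.1).1, (hS i hi.1).2.1, hi.2.1, hi.2.2⟩
  have b2 : (A2.card : ℝ) ≤ M ^ (1 - ε / 8) + 1 := by
    have h1 := large_gaps M hMge1 G A2 (by
      intro i hi
      rw [hA2, mem_filter] at hi
      exact ⟨(hS i hi.1).1, (hS i hi.1).2.1, hi.2⟩)
    refine h1.trans ?_
    have h2 : M / (2 * G + 1) ≤ M ^ (1 - ε / 8) := by
      rw [Real.rpow_sub hM0, Real.rpow_one]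
      apply div_le_div_of_nonneg_left hM0.le (by positivity)
      have : 1 ≤ M ^ (ε / 8) := Real.one_le_rpow hMge1 (by positivity)
      linarith
    linarith
  have b3 : (A3.card : ℝ) ≤ 64 * M ^ (1 - c2) := by
    apply hyy M hMM2 f hf ((hdk κ2 hκb).mono hMqM)
    intro i hi
    rw [hA3, mem_filter] at hi
    refine ⟨(hS i hi.1).1, (hS i hi.1).2.1, hi.2.1, ?_⟩
    refine lt_of_le_of_lt ?_ hi.2.2
    have : (1 : ℝ) ≤ pr i := by linarith [(hS i hi.1).1]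
    exact Real.rpow_le_rpow_of_exponent_le this (by linarith)
  have hcov : S ⊆ (A1 ∪ A2) ∪ A3 := by
    intro i hi
    obtain ⟨-, -, hb⟩ := hS i hi
    rw [mem_union, mem_union]
    by_cases hg : 2 * G < pr (i + 1) - pr i
    · left; right
      rw [hA2, mem_filter]
      exact ⟨hi, hg⟩
    · rcases hb with h | h
      · left; left
        rw [hA1, mem_filter]
        exact ⟨hi, by omega, h⟩
      · right
        rw [hA3, mem_filter]
        exact ⟨hi, by omega, h⟩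
  have hle := (card_le_card hcov).trans ((card_union_le _ _).trans (Nat.add_le_add_right
    (card_union_le _ _) _))
  have hle' : (S.card : ℝ) ≤ (A1.card : ℝ) + A2.card + A3.card := by exact_mod_cast hle
  have e1 : M ^ (1 - c1) ≤ M ^ (1 - c') := hpow _ _ (by linarith)
  have e2 : M ^ (1 - ε / 8) ≤ M ^ (1 - c') := hpow _ _ (by linarith)
  have e3 : 1 ≤ M ^ (1 - c') := Real.one_le_rpow hMge1 (by linarith)
  have e4 : M ^ (1 - c2) ≤ M ^ (1 - c') := hpow _ _ (by linarith)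
  calc (S.card : ℝ) ≤ 82 * M ^ (1 - c') := by linarith
    _ ≤ M ^ (c' / 2) * M ^ (1 - c') := mul_le_mul_of_nonneg_right h82 (by positivity)
    _ = M ^ (1 - c' / 2) := by
        rw [← Real.rpow_add hM0]
        congr 1
        ring

/-- few bad primes -/
theorem gen_fin (q : ℕ) (hq : 1 ≤ q) (ε : ℝ) (hε : 0 < ε) (hε1 : ε ≤ 1) :
    ∃ c κ : ℝ, 0 < c ∧ c ≤ 1 / 2 ∧ 0 < κ ∧ κ ≤ 1 / 8 ∧ ∃ N0 : ℝ, 1 ≤ N0 ∧
      ∀ N : ℝ, N0 ≤ N → ∀ f : ℕ → ℂ, RM q f → DensE f κ (N ^ (1 / 10 : ℝ)) →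
      ∀ D : ℕ → ℝ, Monotone D → (∀ n, 0 ≤ D n ∧ D n ≤ 2 * n) →
      ∀ S : Finset ℕ, (∀ i ∈ S, (pr i : ℝ) ≤ N ∧ BadP f ε c D i) → (S.card : ℝ) ≤ N ^ (1 - c) := by
  obtain ⟨c, κ, hc, hc2, hκ, hκ8, M0, hM0, hps⟩ := gen_prime_scale q hq ε hε hε1
  refine ⟨c / 2, κ, by positivity, by linarith, hκ, hκ8, ?_⟩
  obtain ⟨N1, hN1⟩ := Filter.eventually_atTop.mp ((ev_log 1 (c / 2) 1 (by positivity)
    (by norm_num)).and (((ev_rpow (1 / 2) (2 * M0) (by norm_num)).and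
    (ev_rpow (1 / 10) 2 (by norm_num))).and (Filter.eventually_ge_atTop (1000 : ℝ))))
  refine ⟨max N1 1, le_max_right _ _, ?_⟩
  intro N hN f hf hd D hD hDb S hS
  obtain ⟨k1, ⟨k2, k3⟩, k4⟩ := hN1 N ((le_max_left _ _).trans hN)
  have hN0 : 0 < N := by linarith
  have hNge1 : 1 ≤ N := by linarith
  rw [one_mul, pow_one] at k1
  have hsq : √N = N ^ (1 / 2 : ℝ) := Real.sqrt_eq_rpow N
  have hweak : ∀ i, BadP f ε (c / 2) D i → BadP f ε c D i := by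
    intro i hi
    rcases hi with h | h
    · exact Or.inl h
    · right
      refine lt_of_le_of_lt ?_ h
      have : (1 : ℝ) ≤ pr i := by exact_mod_cast (pr_prime i).one_le
      exact Real.rpow_le_rpow_of_exponent_le this (by linarith)
  have h1 := dyad pr le_pr (BadP f ε c D) N (N ^ (1 - c)) (by linarith) (by positivity) (by
    intro M hM1 hM2 S' hS'
    have hMM0 : M0 ≤ M := by
      rw [hsq] at hM1
      linarith
    have hMp : 0 < M := by linarith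
    have hd' : DensE f κ (M ^ (1 / 4 : ℝ)) := by
      apply hd.mono
      have e1 : N ^ (2 / 5 : ℝ) ≤ M := by
        refine le_trans ?_ hM1
        rw [hsq, le_div_iff₀ (by norm_num)]
        calc N ^ (2 / 5 : ℝ) * 2 ≤ N ^ (2 / 5 : ℝ) * N ^ (1 / 10 : ℝ) := by gcongr
          _ = N ^ (1 / 2 : ℝ) := by
              rw [← Real.rpow_add hN0]
              norm_num
      calc N ^ (1 / 10 : ℝ) = (N ^ (2 / 5 : ℝ)) ^ (1 / 4 : ℝ) := by
            rw [← Real.rpow_mul hN0.le]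
            norm_num
        _ ≤ M ^ (1 / 4 : ℝ) := Real.rpow_le_rpow (by positivity) e1 (by norm_num)
    refine (hps M hMM0 f hf hd' D hD hDb S' hS').trans ?_
    exact Real.rpow_le_rpow hMp.le hM2 (by linarith)) S (fun i hi => ⟨(hS i hi).1,
      hweak i (hS i hi).2⟩)
  refine h1.trans ?_
  have e1 : √N ≤ N ^ (1 - c) := by
    rw [hsq]
    exact Real.rpow_le_rpow_of_exponent_le hNge1 (by linarith)
  have e2 : 1 ≤ N ^ (1 - c) := Real.one_le_rpow hNge1 (by linarith)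
  have e3 : (3 : ℝ) ≤ Real.log N := by
    have h2 : Real.exp 1 < 2.7182818286 := Real.exp_one_lt_d9
    have h3 : Real.exp 3 ≤ N := by
      have h4 : Real.exp 3 = Real.exp 1 ^ 3 := by
        rw [← Real.exp_nat_mul]
        norm_num
      rw [h4]
      have h5 : Real.exp 1 ^ 3 ≤ 2.7182818286 ^ 3 :=
        pow_le_pow_left₀ (Real.exp_pos 1).le h2.le 3
      have h6 : (2.7182818286 : ℝ) ^ 3 ≤ 1000 := by norm_num
      linarith
    calc (3 : ℝ) = Real.log (Real.exp 3) := (Real.log_exp 3).symm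
      _ ≤ Real.log N := Real.log_le_log (Real.exp_pos 3) h3
  calc (Real.log N + 1) * N ^ (1 - c) + √N + 1
      ≤ (Real.log N + 1) * N ^ (1 - c) + N ^ (1 - c) + N ^ (1 - c) := by linarith
    _ = (Real.log N + 3) * N ^ (1 - c) := by ring
    _ ≤ N ^ (c / 2) * N ^ (1 - c) := by
        apply mul_le_mul_of_nonneg_right _ (by positivity)
        linarith
    _ = N ^ (1 - c / 2) := by
        rw [← Real.rpow_add hN0]
        congr 1
        ring

end Pool.Agent.BrE
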