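import Pool.Agent.BrE.Cst
import Pool.Agent.MRE.Key

set_option autoImplicit false

/-!
# Symmetric products: power-saving bound for the number of bad centres
-/

open Finset

namespace Pool.Agent.BrE

open Pool.Agent.MRE (mono_count sparse_count)

theorem fixed_k (q : ℕ) (hq : 1 ≤ q) (f : ℕ → ℂ) (hf : RM q f) (N : ℝ) (T L k j : ℕ) (hk : 0 < k)
    (r : ℕ → ℕ) (hr : Monotone r) (S : Finset ℕ) (C : ℝ) (hwN : (2 * k * q : ℝ) ≤ N)
    (hTN : (T : ℝ) ≤ N / 2) (hjN : (j : ℝ) ≤ N) (hL : 2 * k * q * L ≤ T)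
    (hS : ∀ n ∈ S, N ≤ n ∧ (n : ℝ) ≤ 2 * N ∧ (r n : ℝ) ≤ N / 4 ∧ r (n + k) = r n ∧
      (∃ s, ∀ t ≤ T, f ((n - r n + t) * (n + r n + j - t)) = s) ∧
      (∃ s, ∀ t ≤ T, f ((n + k - r (n + k) + t) * (n + k + r (n + k) + j - t)) = s))
    (hY : ∀ S' : Finset ℕ, (∀ y ∈ S', N / (2 * (2 * k * q : ℝ)) ≤ y ∧
      (y : ℝ) ≤ 16 * (N / (2 * (2 * k * q : ℝ))) ∧ ∀ n ∈ Ico y (y + L), f n = f y) →
      (S'.card : ℝ) ≤ C) : (S.card : ℝ) ≤ (2 * k * q : ℝ) * C := by
  classical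
  rcases S.eq_empty_or_nonempty with hemp | ⟨n0, hn0⟩
  · subst hemp
    have h0 := hY ∅ (by simp)
    simp only [card_empty, Nat.cast_zero] at h0 ⊢
    positivity
  set w : ℕ := 2 * k * q with hw
  have hw0 : 0 < w := by positivity
  have hwr : (w : ℝ) = 2 * k * q := by rw [hw]; push_cast; ring
  have hwr0 : (0 : ℝ) < w := by exact_mod_cast hw0
  rw [← hwr] at hwN hY ⊢
  have hN0 : 0 < N := by linarith
  set φ : ℕ → ℕ := fun n => (n + r n + j - T + w - 1) / w with hφ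
  have hφ1 : ∀ n, n + r n + j - T ≤ w * φ n := by
    intro n
    have h1 := Nat.lt_mul_div_succ (n + r n + j - T + w - 1) hw0
    have h2 : w * ((n + r n + j - T + w - 1) / w + 1) = w * φ n + w := by rw [hφ]; ring
    rw [h2] at h1
    omega
  have hφ2 : ∀ n, w * φ n ≤ n + r n + j - T + w - 1 := fun n => Nat.mul_div_le _ _
  have hTn : ∀ n ∈ S, T < n + r n + j := by
    intro n hn
    obtain ⟨h1, -⟩ := hS n hn
    have h2 : (T : ℝ) < n := by linarith
    have h3 : T < n := by exact_mod_cast h2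
    omega
  have hfib : ∀ y ∈ S.image φ, (S.filter (fun n => φ n = y)).card ≤ w := by
    intro y _
    have h1 : (S.filter (fun n => φ n = y)).card ≤ (Ioc (w * y - w) (w * y)).card := by
      apply card_le_card_of_injOn (fun n => n + r n + j - T)
      · intro n hn
        rw [coe_filter, Set.mem_ofPred_eq] at hn
        have h2 := hφ1 n
        have h3 := hφ2 n
        have h4 := hTn n hn.1
        rw [hn.2] at h2 h3
        simp only [coe_Ioc, Set.mem_Ioc]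
        omega
      · intro x hx z hz hxz
        rw [coe_filter, Set.mem_ofPred_eq] at hx hz
        have h4 := hTn x hx.1
        have h5 := hTn z hz.1
        simp only at hxz
        by_contra hne
        rcases lt_or_gt_of_ne hne with h | h
        · have := hr h.le
          omega
        · have := hr h.le
          omega
    rw [Nat.card_Ioc] at h1
    omega
  have hcard := card_le_mul_card_image S w hfib
  have himg : ((S.image φ).card : ℝ) ≤ C := by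
    apply hY
    intro y hy
    rw [mem_image] at hy
    obtain ⟨n, hn, rfl⟩ := hy
    obtain ⟨h1, h2, h3, h4, ⟨s, hs⟩, ⟨s', hs'⟩⟩ := hS n hn
    have hT := hTn n hn
    have hrn : r n < n := by
      have : (r n : ℝ) < n := by linarith
      exact_mod_cast this
    have e1 : ((n + r n + j - T : ℕ) : ℝ) = n + r n + j - T := by
      rw [Nat.cast_sub hT.le]
      push_cast
      ring
    have hr0 : (0 : ℝ) ≤ r n := Nat.cast_nonneg _
    have hj0 : (0 : ℝ) ≤ j := Nat.cast_nonneg _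
    have hT0 : (0 : ℝ) ≤ T := Nat.cast_nonneg _
    refine ⟨?_, ?_, ?_⟩
    · have h5 : ((n + r n + j - T : ℕ) : ℝ) ≤ w * φ n := by exact_mod_cast hφ1 n
      rw [e1] at h5
      rw [div_le_iff₀ (by positivity)]
      linarith
    · have h6 : w * φ n ≤ n + r n + j - T + w := by
        have := hφ2 n
        omega
      have h5 : (w : ℝ) * φ n ≤ ((n + r n + j - T : ℕ) : ℝ) + w := by exact_mod_cast h6
      rw [e1] at h5
      have e2 : 16 * (N / (2 * (w : ℝ))) = 8 * N / w := by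
        field_simp
        norm_num
      rw [e2, le_div_iff₀ hwr0]
      linarith
    · rw [h4] at hs'
      apply chain_window q hq f hf (n - r n) (n + r n + j) k T L hk (by omega) hT s s'
      · intro t ht
        rw [← hf.mul _ _ (by omega) (by omega)]
        exact hs t ht
      · intro t ht
        rw [← hf.mul _ _ (by omega) (by omega)]
        have := hs' t ht
        rw [show n - r n + k + t = n + k - r n + t by omega,
          show n + r n + j + k - t = n + k + r n + j - t by omega]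
        exact this
      · exact hφ1 n
      · have h5 := hφ2 n
        have h6 : w * (φ n + L) = w * φ n + w * L := by ring
        rw [← hw, h6]
        omega
  calc (S.card : ℝ) ≤ ((w * (S.image φ).card : ℕ) : ℝ) := by exact_mod_cast hcard
    _ = w * ((S.image φ).card : ℝ) := by push_cast; ring
    _ ≤ w * C := mul_le_mul_of_nonneg_left himg hwr0.le

/-- four dyadic pieces -/
theorem four_pieces (P : ℕ → Prop) (X C : ℝ) (h : ∀ Y : ℝ, (Y = X ∨ Y = 2 * X ∨ Y = 4 * X ∨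
    Y = 8 * X) → ∀ S : Finset ℕ, (∀ y ∈ S, Y ≤ y ∧ (y : ℝ) ≤ 2 * Y ∧ P y) → (S.card : ℝ) ≤ C)
    (S : Finset ℕ) (hS : ∀ y ∈ S, X ≤ y ∧ (y : ℝ) ≤ 16 * X ∧ P y) : (S.card : ℝ) ≤ 4 * C := by
  classical
  have h1 := h X (Or.inl rfl) (S.filter (fun y : ℕ => (y : ℝ) ≤ 2 * X)) (by
    intro y hy
    rw [mem_filter] at hy
    obtain ⟨g1, g2, g3⟩ := hS y hy.1
    exact ⟨g1, hy.2, g3⟩)
  have h2 := h (2 * X) (Or.inr (Or.inl rfl))
    (S.filter (fun y : ℕ => 2 * X ≤ (y : ℝ) ∧ (y : ℝ) ≤ 4 * X)) (by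
    intro y hy
    rw [mem_filter] at hy
    obtain ⟨g1, g2, g3⟩ := hS y hy.1
    exact ⟨hy.2.1, by linarith [hy.2.2], g3⟩)
  have h3 := h (4 * X) (Or.inr (Or.inr (Or.inl rfl)))
    (S.filter (fun y : ℕ => 4 * X ≤ (y : ℝ) ∧ (y : ℝ) ≤ 8 * X)) (by
    intro y hy
    rw [mem_filter] at hy
    obtain ⟨g1, g2, g3⟩ := hS y hy.1
    exact ⟨hy.2.1, by linarith [hy.2.2], g3⟩)
  have h4 := h (8 * X) (Or.inr (Or.inr (Or.inr rfl)))
    (S.filter (fun y : ℕ => 8 * X ≤ (y : ℝ))) (by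
    intro y hy
    rw [mem_filter] at hy
    obtain ⟨g1, g2, g3⟩ := hS y hy.1
    exact ⟨hy.2, by linarith, g3⟩)
  have hcov : S ⊆ ((S.filter (fun y : ℕ => (y : ℝ) ≤ 2 * X) ∪
      S.filter (fun y : ℕ => 2 * X ≤ (y : ℝ) ∧ (y : ℝ) ≤ 4 * X)) ∪
      S.filter (fun y : ℕ => 4 * X ≤ (y : ℝ) ∧ (y : ℝ) ≤ 8 * X)) ∪
      S.filter (fun y : ℕ => 8 * X ≤ (y : ℝ)) := by
    intro y hy
    simp only [mem_union, mem_filter]
    rcases le_total (y : ℝ) (2 * X) with g1 | g1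
    · left; left; left; exact ⟨hy, g1⟩
    · rcases le_total (y : ℝ) (4 * X) with g2 | g2
      · left; left; right; exact ⟨hy, g1, g2⟩
      · rcases le_total (y : ℝ) (8 * X) with g3 | g3
        · left; right; exact ⟨hy, g2, g3⟩
        · right; exact ⟨hy, g3⟩
  have h5 := (card_le_card hcov).trans ((card_union_le _ _).trans (Nat.add_le_add_right
    ((card_union_le _ _).trans (Nat.add_le_add_right (card_union_le _ _) _)) _))
  have h6 : (S.card : ℝ) ≤ ((S.filter (fun y : ℕ => (y : ℝ) ≤ 2 * X)).card : ℝ) +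
      ((S.filter (fun y : ℕ => 2 * X ≤ (y : ℝ) ∧ (y : ℝ) ≤ 4 * X)).card : ℝ) +
      ((S.filter (fun y : ℕ => 4 * X ≤ (y : ℝ) ∧ (y : ℝ) ≤ 8 * X)).card : ℝ) +
      ((S.filter (fun y : ℕ => 8 * X ≤ (y : ℝ))).card : ℝ) := by exact_mod_cast h5
  linarith

/-- numerical conditions -/
theorem key_params (q : ℕ) (hq : 1 ≤ q) (ε c1 X0 : ℝ) (hε : 0 < ε) (hε1 : ε ≤ 1 / 2)
    (hc1 : 0 < c1) (hc1ε : c1 ≤ ε / 8) :
    ∀ᶠ N : ℝ in Filter.atTop, 64 ≤ N ∧ X0 ≤ N ^ (1 / 2 : ℝ) ∧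
      4 * (q : ℝ) ≤ N ^ (7 / 16 : ℝ) ∧ 8 * (q : ℝ) ≤ N ^ (3 * ε / 8) ∧ 4 ≤ N ^ ε ∧
      3 + 64 * (q : ℝ) ≤ N ^ (c1 / 2) ∧ 2 ≤ N ^ c1 := by
  filter_upwards [Filter.eventually_ge_atTop (64 : ℝ), ev_rpow (1 / 2) X0 (by norm_num),
    ev_rpow (7 / 16) (4 * q) (by norm_num), ev_rpow (3 * ε / 8) (8 * q) (by positivity),
    ev_rpow ε 4 hε, ev_rpow (c1 / 2) (3 + 64 * q) (by positivity), ev_rpow c1 2 hc1]
    with N g1 g2 g3 g4 g5 g6 g7
  exact ⟨g1, g2, g3, g4, g5, g6, g7⟩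

/-- power-saving bound for the number of bad centres -/
theorem keyB (q : ℕ) (hq : 1 ≤ q) (ε : ℝ) (hε : 0 < ε) (hε1 : ε ≤ 1 / 2) :
    ∃ c κ : ℝ, 0 < c ∧ c ≤ 1 / 2 ∧ 0 < κ ∧ κ ≤ 1 / 8 ∧ ∃ N0 : ℝ, 1 ≤ N0 ∧ ∀ N : ℝ, N0 ≤ N →
      ∀ f : ℕ → ℂ, RM q f → DensE f κ (N ^ (1 / 4 : ℝ)) →
      ∀ (r : ℕ → ℕ) (j : ℕ), (j : ℝ) ≤ N → Monotone r → (r ⌊3 * N⌋₊ : ℝ) ≤ N ^ (1 - ε) →
      ∀ S : Finset ℕ, (∀ n ∈ S, N ≤ n ∧ (n : ℝ) ≤ 2 * N ∧ ∃ s, ∀ t ≤ ⌊N ^ ε⌋₊,
        f ((n - r n + t) * (n + r n + j - t)) = s) →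
      (S.card : ℝ) ≤ N ^ (1 - c) := by
  classical
  obtain ⟨cA, κ, hcA, hcA1, hκ, hκ8, X0, hX0, hA⟩ := thmA' q hq (ε / 2) (by positivity)
    (by linarith)
  set c1 : ℝ := min (cA / 8) (ε / 8) with hc1
  have hc10 : 0 < c1 := by positivity
  have hc1A : c1 ≤ cA / 8 := min_le_left _ _
  have hc1ε : c1 ≤ ε / 8 := min_le_right _ _
  obtain ⟨N1, hN1⟩ := Filter.eventually_atTop.mp (key_params q hq ε c1 X0 hε hε1 hc10 hc1ε)
  refine ⟨c1 / 2, κ, by positivity, by linarith, hκ, hκ8, max N1 1, le_max_right _ _, ?_⟩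
  intro N hN f hf hd r j hj hr hrN S hS
  obtain ⟨hN64, hNX0, hNq, hNq8, hNε, hNfin, hNc1⟩ := hN1 N ((le_max_left _ _).trans hN)
  have hN0 : 0 < N := by linarith
  have hNge1 : 1 ≤ N := by linarith
  set K : ℕ := ⌊N ^ c1⌋₊ with hK
  set T : ℕ := ⌊N ^ ε⌋₊ with hT
  set L : ℕ := ⌈(8 * N) ^ (ε / 2)⌉₊ with hL
  have hK1 : (K : ℝ) ≤ N ^ c1 := Nat.floor_le (by positivity)
  have hK2 : N ^ c1 < K + 1 := Nat.lt_floor_add_one _
  have hT1 : (T : ℝ) ≤ N ^ ε := Nat.floor_le (by positivity)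
  have hT2 : N ^ ε < T + 1 := Nat.lt_floor_add_one _
  have hqr : (1 : ℝ) ≤ q := by exact_mod_cast hq
  have hq0 : (0 : ℝ) < q := by linarith
  have hKpos : (1 : ℝ) < K + 1 := by linarith
  have hpow : ∀ x y : ℝ, x ≤ y → N ^ x ≤ N ^ y := fun x y hxy =>
    Real.rpow_le_rpow_of_exponent_le hNge1 hxy
  -- T small
  have hTN : (T : ℝ) ≤ N / 2 := by
    have h1 : N ^ ε ≤ N ^ (1 / 2 : ℝ) := hpow _ _ hε1
    have h2 : N ^ (1 / 2 : ℝ) * N ^ (1 / 2 : ℝ) = N := by
      rw [← Real.rpow_add hN0]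
      norm_num
    have h3 : 0 < N ^ (1 / 2 : ℝ) := by positivity
    have h4 : 2 ≤ N ^ (1 / 2 : ℝ) := by
      by_contra hcon
      rw [not_le] at hcon
      nlinarith
    nlinarith
  -- r small
  have hrN4 : (r ⌊3 * N⌋₊ : ℝ) ≤ N / 4 := by
    refine hrN.trans ?_
    rw [Real.rpow_sub hN0, Real.rpow_one]
    exact div_le_div_of_nonneg_left hN0.le (by norm_num) hNε
  -- L small
  have hLle : (L : ℝ) ≤ 3 * N ^ (ε / 2) := by
    have h1 : (L : ℝ) < (8 * N) ^ (ε / 2) + 1 := Nat.ceil_lt_add_one (by positivity)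
    have h2 : (8 * N) ^ (ε / 2) ≤ 2 * N ^ (ε / 2) := by
      rw [Real.mul_rpow (by norm_num) hN0.le]
      apply mul_le_mul_of_nonneg_right _ (by positivity)
      calc (8 : ℝ) ^ (ε / 2) ≤ 8 ^ (1 / 3 : ℝ) :=
            Real.rpow_le_rpow_of_exponent_le (by norm_num) (by linarith)
        _ = 2 := by
            rw [show (8 : ℝ) = 2 ^ (3 : ℝ) by norm_num, ← Real.rpow_mul (by norm_num)]
            norm_num
    have h3 : 1 ≤ N ^ (ε / 2) := Real.one_le_rpow hNge1 (by positivity)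
    linarith
  have hKwL : ∀ k : ℕ, k ≤ K → 2 * k * q * L ≤ T := by
    intro k hk
    have hkK : (k : ℝ) ≤ N ^ c1 := le_trans (by exact_mod_cast hk) hK1
    have h1 : (2 * k * q * L : ℝ) ≤ N ^ ε - 1 := by
      have h2 : (2 * k * q * L : ℝ) ≤ 2 * N ^ c1 * q * (3 * N ^ (ε / 2)) := by gcongr
      have h3 : 2 * N ^ c1 * q * (3 * N ^ (ε / 2)) ≤ (8 * q - 1) * N ^ (5 * ε / 8) := by
        have h4 : N ^ c1 * N ^ (ε / 2) ≤ N ^ (5 * ε / 8) := by
          rw [← Real.rpow_add hN0]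
          apply hpow
          linarith
        have h5 : 0 < N ^ (5 * ε / 8) := by positivity
        calc 2 * N ^ c1 * q * (3 * N ^ (ε / 2)) = 6 * q * (N ^ c1 * N ^ (ε / 2)) := by ring
          _ ≤ 6 * q * N ^ (5 * ε / 8) := mul_le_mul_of_nonneg_left h4 (by positivity)
          _ ≤ _ := by
              apply mul_le_mul_of_nonneg_right _ h5.le
              linarith
      have h6 : 1 ≤ N ^ (5 * ε / 8) := Real.one_le_rpow hNge1 (by positivity)
      have h7 : 8 * q * N ^ (5 * ε / 8) ≤ N ^ ε := by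
        calc 8 * q * N ^ (5 * ε / 8) ≤ N ^ (3 * ε / 8) * N ^ (5 * ε / 8) := by gcongr
          _ = N ^ ε := by
              rw [← Real.rpow_add hN0]
              congr 1
              ring
      nlinarith
    have h2 : (2 * k * q * L : ℝ) < T := by linarith
    have h3 : ((2 * k * q * L : ℕ) : ℝ) < T := by push_cast; exact h2
    exact (by exact_mod_cast h3 : 2 * k * q * L < T).le
  -- parameters a, b
  set a : ℕ := ⌈N⌉₊ with ha
  set b : ℕ := ⌊2 * N⌋₊ with hb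
  have haN : N ≤ a := Nat.le_ceil _
  have hbN : (b : ℝ) ≤ 2 * N := Nat.floor_le (by positivity)
  have hab : a ≤ b := by
    have h1 : (a : ℝ) < N + 1 := Nat.ceil_lt_add_one hN0.le
    have h2 : 2 * N < b + 1 := Nat.lt_floor_add_one _
    have : (a : ℝ) < b + 1 := by linarith
    exact Nat.lt_succ_iff.mp (by exact_mod_cast this)
  have hSab : ∀ n ∈ S, a ≤ n ∧ n ≤ b := by
    intro n hn
    obtain ⟨h1, h2, -⟩ := hS n hn
    exact ⟨Nat.ceil_le.mpr h1, Nat.le_floor h2⟩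
  have hKN4 : (K : ℝ) ≤ N / 4 := by
    have h1 : N ^ c1 ≤ N ^ (1 / 16 : ℝ) := hpow _ _ (by linarith)
    have h2 : N ^ (1 / 16 : ℝ) ≤ N ^ (1 / 2 : ℝ) := hpow _ _ (by norm_num)
    have h3 : N ^ (1 / 2 : ℝ) * N ^ (1 / 2 : ℝ) = N := by
      rw [← Real.rpow_add hN0]
      norm_num
    have h4 : 0 < N ^ (1 / 2 : ℝ) := by positivity
    have h5 : 8 ≤ N ^ (1 / 2 : ℝ) := by
      by_contra hcon
      rw [not_le] at hcon
      nlinarith
    nlinarith
  have hb3 : b + 1 + K ≤ ⌊3 * N⌋₊ := by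
    apply Nat.le_floor
    push_cast
    linarith
  have hrb : ∀ n, n ≤ b + 1 + K → (r n : ℝ) ≤ N / 4 := by
    intro n hn
    have : r n ≤ r ⌊3 * N⌋₊ := hr (hn.trans hb3)
    exact le_trans (by exact_mod_cast this) hrN4
  set S1 : Finset ℕ := S.filter (fun n => r (n + K) = r n) with hS1
  set S2 : Finset ℕ := S1.filter (fun n => ∃ k, 1 ≤ k ∧ k ≤ K ∧ n + k ∈ S) with hS2
  have hNc1' : 0 < N ^ (1 - c1) := by positivity
  have hc1b : ((S \ S1).card : ℝ) ≤ N ^ (1 - c1) := by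
    have h1 := mono_count r hr a (b + 1 - a) K (S \ S1) (by
      intro n hn
      rw [mem_sdiff, hS1, mem_filter, not_and] at hn
      have := hSab n hn.1
      exact ⟨this.1, by omega, hn.2 hn.1⟩)
    rw [show a + (b + 1 - a) + K = b + 1 + K by omega] at h1
    have h2 : r (b + 1 + K) ≤ r ⌊3 * N⌋₊ := hr hb3
    have h3 : ((S \ S1).card : ℝ) ≤ K * (r ⌊3 * N⌋₊ : ℝ) := by
      exact_mod_cast h1.trans (Nat.mul_le_mul_left K h2)
    calc ((S \ S1).card : ℝ) ≤ K * (r ⌊3 * N⌋₊ : ℝ) := h3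
      _ ≤ N ^ c1 * N ^ (1 - ε) := by
          apply mul_le_mul hK1 hrN (Nat.cast_nonneg _) (by positivity)
      _ = N ^ (c1 + (1 - ε)) := by rw [← Real.rpow_add hN0]
      _ ≤ N ^ (1 - c1) := hpow _ _ (by linarith)
  have hc2b : ((S1 \ S2).card : ℝ) ≤ 2 * N ^ (1 - c1) := by
    have h1 := sparse_count (S1 \ S2) a b K (by
      intro n hn
      exact hSab n (mem_filter.mp (mem_sdiff.mp hn).1).1) (by
      intro n hn k hk1 hk2 hcon
      have hn' := mem_sdiff.mp hn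
      apply hn'.2
      rw [hS2, mem_filter]
      exact ⟨hn'.1, k, hk1, hk2, (mem_filter.mp (mem_sdiff.mp hcon).1).1⟩)
    have h2 : ((K : ℝ) + 1) * ((S1 \ S2).card : ℝ) ≤ b + K + 1 - a := by
      have h3 : (K + 1) * (S1 \ S2).card + a ≤ b + K + 1 := by omega
      have h4 : (((K + 1) * (S1 \ S2).card + a : ℕ) : ℝ) ≤ ((b + K + 1 : ℕ) : ℝ) := by
        exact_mod_cast h3
      push_cast at h4
      linarith
    have h5 : ((S1 \ S2).card : ℝ) ≤ (N + K + 1) / (K + 1) := by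
      rw [le_div_iff₀ (by positivity)]
      linarith
    have h6 : (N + K + 1) / (K + 1) = N / (K + 1) + 1 := by
      field_simp
      ring
    have h7 : N / (K + 1) ≤ N ^ (1 - c1) := by
      rw [Real.rpow_sub hN0, Real.rpow_one]
      exact div_le_div_of_nonneg_left hN0.le (by positivity) hK2.le
    have h8 : 1 ≤ N ^ (1 - c1) := Real.one_le_rpow hNge1 (by linarith)
    linarith
  -- the main part
  have hone : ∀ k ∈ Icc 1 K, (((S1.filter (fun n => n + k ∈ S)).card : ℕ) : ℝ) ≤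
      (2 * N ^ c1 * q) * (4 * (8 * N ^ (1 - cA))) := by
    intro k hk
    rw [mem_Icc] at hk
    have hk0 : (0 : ℝ) < k := by exact_mod_cast hk.1
    have hk1r : (1 : ℝ) ≤ k := by exact_mod_cast hk.1
    have hkK : (k : ℝ) ≤ N ^ c1 := le_trans (by exact_mod_cast hk.2) hK1
    have hwN : (2 * k * q : ℝ) * 2 ≤ N ^ (1 / 2 : ℝ) := by
      have h1 : N ^ c1 ≤ N ^ (1 / 16 : ℝ) := hpow _ _ (by linarith)
      calc (2 * k * q : ℝ) * 2 = k * (4 * q) := by ring
        _ ≤ N ^ (1 / 16 : ℝ) * N ^ (7 / 16 : ℝ) := by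
            apply mul_le_mul (hkK.trans h1) hNq (by positivity) (by positivity)
        _ = N ^ (1 / 2 : ℝ) := by
            rw [← Real.rpow_add hN0]
            norm_num
    have hhalf : N ^ (1 / 2 : ℝ) * N ^ (1 / 2 : ℝ) = N := by
      rw [← Real.rpow_add hN0]
      norm_num
    have hhalf0 : 0 < N ^ (1 / 2 : ℝ) := by positivity
    have hhalf1 : 1 ≤ N ^ (1 / 2 : ℝ) := Real.one_le_rpow hNge1 (by norm_num)
    have hw0 : 0 < (2 * k * q : ℝ) := by positivity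
    have hbd := fixed_k q hq f hf N T L k j hk.1 r hr (S1.filter (fun n => n + k ∈ S))
      (4 * (8 * N ^ (1 - cA))) (by nlinarith) hTN hj (hKwL k hk.2) (by
      intro n hn
      rw [mem_filter] at hn
      obtain ⟨hnS1, hnk⟩ := hn
      rw [hS1, mem_filter] at hnS1
      obtain ⟨hnS, hrn⟩ := hnS1
      obtain ⟨g1, g2, g3⟩ := hS n hnS
      obtain ⟨-, -, g4⟩ := hS (n + k) hnk
      have hnb := (hSab n hnS).2
      refine ⟨g1, g2, hrb n (by omega), ?_, g3, g4⟩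
      have e1 := hr (Nat.le_add_right n k)
      have e2 := hr (show n + k ≤ n + K by omega)
      omega) (by
      intro S' hS'
      apply four_pieces (fun y => ∀ n ∈ Ico y (y + L), f n = f y) (N / (2 * (2 * k * q : ℝ)))
        (8 * N ^ (1 - cA)) _ S' hS'
      intro Y hYc S'' hS''
      set X := N / (2 * (2 * k * q : ℝ)) with hX
      have hXlow : N ^ (1 / 2 : ℝ) ≤ X := by
        rw [hX, le_div_iff₀ (by positivity)]
        calc N ^ (1 / 2 : ℝ) * (2 * (2 * k * q : ℝ)) = N ^ (1 / 2 : ℝ) * ((2 * k * q : ℝ) * 2) := by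
              ring
          _ ≤ N ^ (1 / 2 : ℝ) * N ^ (1 / 2 : ℝ) := by gcongr
          _ = N := hhalf
      have hXup : X ≤ N := by
        rw [hX]
        apply div_le_self hN0.le
        nlinarith
      have hX0' : 0 < X := by linarith
      have hYlow : X ≤ Y := by
        rcases hYc with h | h | h | h <;> rw [h] <;> linarith
      have hYup : Y ≤ 8 * N := by
        rcases hYc with h | h | h | h <;> rw [h] <;> linarith
      have hY0 : 0 < Y := by linarith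
      have hYh : N ^ (1 / 4 : ℝ) ≤ Y ^ (1 / 2 : ℝ) := by
        calc N ^ (1 / 4 : ℝ) = (N ^ (1 / 2 : ℝ)) ^ (1 / 2 : ℝ) := by
              rw [← Real.rpow_mul hN0.le]
              norm_num
          _ ≤ Y ^ (1 / 2 : ℝ) := Real.rpow_le_rpow hhalf0.le (hXlow.trans hYlow) (by norm_num)
      have h1 := hA Y (hNX0.trans (hXlow.trans hYlow)) f hf (hd.mono hYh) S'' (by
        intro y hy
        obtain ⟨g1, g2, g3⟩ := hS'' y hy
        refine ⟨g1, g2, fun n hn => g3 n ?_⟩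
        have hle : ⌈Y ^ (ε / 2)⌉₊ ≤ L := by
          apply Nat.ceil_le_ceil
          exact Real.rpow_le_rpow hY0.le hYup (by positivity)
        rw [mem_Ico] at hn ⊢
        omega)
      refine h1.trans ?_
      calc Y ^ (1 - cA) ≤ (8 * N) ^ (1 - cA) := Real.rpow_le_rpow hY0.le hYup (by linarith)
        _ = 8 ^ (1 - cA) * N ^ (1 - cA) := Real.mul_rpow (by norm_num) hN0.le
        _ ≤ 8 * N ^ (1 - cA) := by
            apply mul_le_mul_of_nonneg_right _ (by positivity)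
            calc (8 : ℝ) ^ (1 - cA) ≤ 8 ^ (1 : ℝ) :=
                  Real.rpow_le_rpow_of_exponent_le (by norm_num) (by linarith)
              _ = 8 := Real.rpow_one 8)
    refine hbd.trans ?_
    gcongr
  have hc3b : (S2.card : ℝ) ≤ 64 * q * N ^ (1 - c1) := by
    have hsub : S2 ⊆ (Icc 1 K).biUnion (fun k => S1.filter (fun n => n + k ∈ S)) := by
      intro n hn
      rw [hS2, mem_filter] at hn
      obtain ⟨h1, k, h2, h3, h4⟩ := hn
      rw [mem_biUnion]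
      exact ⟨k, mem_Icc.mpr ⟨h2, h3⟩, mem_filter.mpr ⟨h1, h4⟩⟩
    have h1 := (card_le_card hsub).trans card_biUnion_le
    have h2 : (S2.card : ℝ) ≤ ∑ k ∈ Icc 1 K, (((S1.filter (fun n => n + k ∈ S)).card : ℕ) : ℝ) := by
      exact_mod_cast h1
    refine h2.trans ((sum_le_sum hone).trans ?_)
    rw [sum_const, Nat.card_Icc, Nat.add_sub_cancel, nsmul_eq_mul]
    calc (K : ℝ) * ((2 * N ^ c1 * q) * (4 * (8 * N ^ (1 - cA))))
        ≤ N ^ c1 * ((2 * N ^ c1 * q) * (4 * (8 * N ^ (1 - cA)))) := by gcongr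
      _ = 64 * q * (N ^ c1 * N ^ c1 * N ^ (1 - cA)) := by ring
      _ = 64 * q * N ^ (c1 + c1 + (1 - cA)) := by
          rw [← Real.rpow_add hN0, ← Real.rpow_add hN0]
      _ ≤ 64 * q * N ^ (1 - c1) := by
          apply mul_le_mul_of_nonneg_left _ (by positivity)
          apply hpow
          linarith
  have hsum : S.card = (S \ S1).card + (S1 \ S2).card + S2.card := by
    have e1 := card_sdiff_add_card_eq_card (filter_subset (fun n => r (n + K) = r n) S)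
    have e2 := card_sdiff_add_card_eq_card
      (filter_subset (fun n => ∃ k, 1 ≤ k ∧ k ≤ K ∧ n + k ∈ S) S1)
    rw [← hS1] at e1
    rw [← hS2] at e2
    omega
  have hsum' : (S.card : ℝ) = ((S \ S1).card : ℝ) + ((S1 \ S2).card : ℝ) + (S2.card : ℝ) := by
    exact_mod_cast hsum
  rw [hsum']
  calc ((S \ S1).card : ℝ) + ((S1 \ S2).card : ℝ) + (S2.card : ℝ)
      ≤ (3 + 64 * q) * N ^ (1 - c1) := by linarith
    _ ≤ N ^ (c1 / 2) * N ^ (1 - c1) := by gcongr
    _ = N ^ (1 - c1 / 2) := by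
        rw [← Real.rpow_add hN0]
        congr 1
        ring

end Pool.Agent.BrE
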