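import Pool.Agent.BrE.Pars

set_option autoImplicit false

/-!
# Lower bound for the difference of the averages
-/

open Finset MeasureTheory

namespace Pool.Agent.BrE

/-- indicator function -/
noncomputable def ind (B : ℕ → Prop) (k : ℕ) : ℝ := by
  classical
  exact if B k then 1 else 0

theorem ind_nonneg (B : ℕ → Prop) (k : ℕ) : 0 ≤ ind B k := by
  unfold ind
  split_ifs <;> norm_num

theorem ind_le (B : ℕ → Prop) (k : ℕ) : ind B k ≤ 1 := by
  unfold ind
  split_ifs <;> norm_num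

theorem ind_pos (B : ℕ → Prop) (k : ℕ) (h : B k) : ind B k = 1 := by
  unfold ind
  rw [if_pos h]

theorem ind_neg (B : ℕ → Prop) (k : ℕ) (h : ¬ B k) : ind B k = 0 := by
  unfold ind
  rw [if_neg h]

theorem dd_lower {ι : Type*} (S : Finset ι) (l : ι → ℝ) (c : ι → ℝ) (a b u : ℝ) :
    (∑ i ∈ S, c i * gg b (u - l i)) - (∑ i ∈ S, c i * gg a (u - l i)) ≤
      ‖DD S l (fun i => (c i : ℂ)) a b u‖ := by
  have h1 : DD S l (fun i => (c i : ℂ)) a b u =
      (((∑ i ∈ S, c i * gg a (u - l i)) - (∑ i ∈ S, c i * gg b (u - l i)) : ℝ) : ℂ) := by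
    unfold DD
    rw [← Finset.sum_sub_distrib]
    push_cast
    refine Finset.sum_congr rfl fun i _ => ?_
    ring
  rw [h1, Complex.norm_real, Real.norm_eq_abs, abs_sub_comm]
  exact le_abs_self _

/-- the short average -/
theorem short_le {ι : Type*} (S : Finset ι) (l : ι → ℝ) (c : ι → ℝ) (θ u ρ : ℝ) (hθ : 0 < θ)
    (hρ : 0 ≤ ρ) (hc1 : ∀ i ∈ S, c i ≤ 1)
    (hfar : ∀ i ∈ S, c i ≠ 0 → ρ ≤ |u - l i|) :
    ∑ i ∈ S, c i * gg θ (u - l i) ≤ S.card * ((1 / θ) * Real.exp (-(ρ / θ) ^ 2 / 2)) := by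
  rw [← nsmul_eq_mul, ← Finset.sum_const]
  apply Finset.sum_le_sum
  intro i hi
  have hE : 0 < (1 / θ) * Real.exp (-(ρ / θ) ^ 2 / 2) := by positivity
  by_cases h0 : c i = 0
  · rw [h0, zero_mul]
    exact hE.le
  · have h1 := hfar i hi h0
    have h2 : gg θ (u - l i) ≤ (1 / θ) * Real.exp (-(ρ / θ) ^ 2 / 2) := by
      unfold gg
      apply mul_le_mul_of_nonneg_left _ (by positivity)
      apply Real.exp_le_exp.mpr
      have h3 : ρ ^ 2 ≤ (u - l i) ^ 2 := by
        rw [← sq_abs (u - l i)]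
        exact pow_le_pow_left₀ hρ h1 2
      have h4 : -(ρ / θ) ^ 2 / 2 = -(ρ ^ 2 / (2 * θ ^ 2)) := by
        rw [div_pow]
        field_simp
      rw [h4, neg_div]
      apply neg_le_neg
      exact div_le_div_of_nonneg_right h3 (by positivity)
    calc c i * gg θ (u - l i) ≤ 1 * gg θ (u - l i) :=
          mul_le_mul_of_nonneg_right (hc1 i hi) (gg_nonneg θ _ hθ)
      _ ≤ _ := by rw [one_mul]; exact h2

/-- the long average, for one `m` -/
theorem long_one (q K m : ℕ) (B : ℕ → Prop) (θ u Y D : ℝ) (hθ : 0 < θ) (hm : 0 < m)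
    (hY : Y = Real.exp u / (m : ℝ) ^ q) (hY1 : 16 ≤ Y) (hYK : 2 * Y ≤ K) (hYθ : 4 / √Y ≤ θ)
    (hD : D ≤ Set.ncard {k : ℕ | Y < k ∧ (k : ℝ) ≤ Y + 4 * √Y ∧ B k}) :
    D * ((1 / θ) * Real.exp (-1 / 2)) ≤ ∑ k ∈ Icc 1 K, ind B k * gg θ (u - lf q (m, k)) := by
  classical
  have hm0 : (0 : ℝ) < m := by exact_mod_cast hm
  have hY0 : 0 < Y := by linarith
  have hsY : 4 * √Y ≤ Y := by
    have h1 : √Y * √Y = Y := Real.mul_self_sqrt hY0.le
    have h2 : 4 ≤ √Y := by
      apply Real.le_sqrt_of_sq_le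
      linarith
    nlinarith
  have hsY0 : 0 < √Y := Real.sqrt_pos.mpr hY0
  have hset : {k : ℕ | Y < k ∧ (k : ℝ) ≤ Y + 4 * √Y ∧ B k} =
      (((Icc 1 K).filter (fun k : ℕ => Y < k ∧ (k : ℝ) ≤ Y + 4 * √Y ∧ B k) : Finset ℕ) : Set ℕ) := by
    ext k
    simp only [Set.mem_ofPred_eq, coe_filter, mem_Icc]
    constructor
    · rintro ⟨h1, h2, h3⟩
      have h4 : (0 : ℝ) < k := by linarith
      have h5 : (k : ℝ) ≤ K := by linarith
      refine ⟨⟨?_, ?_⟩, h1, h2, h3⟩
      · have : 0 < k := by exact_mod_cast h4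
        omega
      · exact_mod_cast h5
    · rintro ⟨-, h⟩
      exact h
  rw [hset, Set.ncard_coe_finset] at hD
  have hE : 0 < (1 / θ) * Real.exp (-1 / 2) := by positivity
  calc D * ((1 / θ) * Real.exp (-1 / 2))
      ≤ (((Icc 1 K).filter (fun k : ℕ => Y < k ∧ (k : ℝ) ≤ Y + 4 * √Y ∧ B k)).card : ℝ) *
        ((1 / θ) * Real.exp (-1 / 2)) := mul_le_mul_of_nonneg_right hD hE.le
    _ = ∑ k ∈ (Icc 1 K).filter (fun k : ℕ => Y < k ∧ (k : ℝ) ≤ Y + 4 * √Y ∧ B k),
        (1 / θ) * Real.exp (-1 / 2) := by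
        rw [Finset.sum_const, nsmul_eq_mul]
    _ ≤ ∑ k ∈ (Icc 1 K).filter (fun k : ℕ => Y < k ∧ (k : ℝ) ≤ Y + 4 * √Y ∧ B k),
        ind B k * gg θ (u - lf q (m, k)) := by
        apply Finset.sum_le_sum
        intro k hk
        rw [mem_filter] at hk
        obtain ⟨hk1, hk2, hk3, hk4⟩ := hk
        rw [ind_pos B k hk4, one_mul]
        unfold gg
        apply mul_le_mul_of_nonneg_left _ (by positivity)
        apply Real.exp_le_exp.mpr
        have hk0 : (0 : ℝ) < k := by linarith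
        have e1 : u - lf q (m, k) = -(Real.log k - Real.log Y) := by
          unfold lf
          simp only
          rw [hY, Real.log_div (Real.exp_ne_zero _) (by positivity), Real.log_exp, Real.log_pow]
          ring
        have h1 : 0 ≤ Real.log k - Real.log Y := by
          rw [sub_nonneg]
          exact Real.log_le_log hY0 hk2.le
        have h2 : Real.log k - Real.log Y ≤ θ := by
          rw [← Real.log_div hk0.ne' hY0.ne']
          have h3 := Real.log_le_sub_one_of_pos (show 0 < (k : ℝ) / Y by positivity)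
          have h4 : (k : ℝ) / Y - 1 ≤ 4 / √Y := by
            rw [div_sub_one hY0.ne', div_le_div_iff₀ hY0 hsY0]
            have h5 : √Y * √Y = Y := Real.mul_self_sqrt hY0.le
            nlinarith
          linarith
        rw [e1, neg_sq, neg_div, neg_div]
        apply neg_le_neg
        rw [div_le_div_iff₀ (by positivity) (by norm_num)]
        nlinarith
    _ ≤ _ := by
        apply Finset.sum_le_sum_of_subset_of_nonneg (filter_subset _ _)
        intro k _ _
        exact mul_nonneg (ind_nonneg B k) (gg_nonneg θ _ hθ)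

end Pool.Agent.BrE
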