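import Pool.Agent.BrE.ThmA

set_option autoImplicit false

/-!
# Power-saving exceptional set
-/

open Finset MeasureTheory

namespace Pool.Agent.BrE

open Pool.Agent.MR

/-- Let `B` be a set of integers invariant under multiplication by `q`-th powers and with at least
`x^(1/2-κ)` elements in `(x, x+4√x]` for all `x ≥ √X`. Then all but `X^{1-c}` of the windows
`[y, y + X^ε)`, `X ≤ y ≤ 2X`, meet `B`. -/
theorem thmA (q : ℕ) (hq : 1 ≤ q) (ε : ℝ) (hε : 0 < ε) (hε1 : ε ≤ 1 / 4) :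
    ∃ c κ : ℝ, 0 < c ∧ 0 < κ ∧ κ ≤ 1 / 8 ∧ ∃ X0 : ℝ, 1 ≤ X0 ∧ ∀ X : ℝ, X0 ≤ X → ∀ B : ℕ → Prop,
      (∀ m k : ℕ, 0 < m → 0 < k → (B (m ^ q * k) ↔ B k)) →
      (∀ x : ℝ, X ^ (1 / 2 : ℝ) ≤ x → x ^ (1 / 2 - κ) ≤
        Set.ncard {k : ℕ | x < k ∧ (k : ℝ) ≤ x + 4 * √x ∧ B k}) →
      ∀ S : Finset ℕ, (∀ y ∈ S, X ≤ y ∧ (y : ℝ) ≤ 2 * X ∧
        ∀ n ∈ Ico y (y + ⌈X ^ ε⌉₊), ¬ B n) → (S.card : ℝ) ≤ X ^ (1 - c) := by
  have hqr : (1 : ℝ) ≤ q := by exact_mod_cast hq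
  set δ : ℝ := ε / (8 * q) with hδ
  have hδ0 : 0 < δ := by positivity
  have hδ1 : δ ≤ 1 := by
    rw [hδ, div_le_one (by positivity)]
    linarith
  obtain ⟨η, hη, hη8, X2, hX2, hspec⟩ := spec q hq δ hδ0 hδ1
  have hηδ : 0 < η * δ := by positivity
  obtain ⟨X3, hX3⟩ := Filter.eventually_atTop.mp (params q hq ε η hε hε1 hη)
  set κ : ℝ := min (1 / 8) (η * δ / 8) with hκ
  have hκ0 : 0 < κ := by positivity
  have hκ8 : κ ≤ 1 / 8 := min_le_left _ _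
  have hκη : κ ≤ η * δ / 8 := min_le_right _ _
  refine ⟨η * δ, κ, hηδ, hκ0, hκ8, max X2 X3, hX2.trans (le_max_left _ _),
    fun X hX B hinv hdens S hS => ?_⟩
  obtain ⟨hX4, hM2, hXε, hMq, hexp, hfinal⟩ := hX3 X ((le_max_right _ _).trans hX)
  rw [← hδ] at hM2 hMq hfinal
  have hX0 : 0 < X := by linarith
  have hXge1 : 1 ≤ X := by linarith
  set M := X ^ δ with hM
  have hM0 : 0 < M := by linarith
  have hM1 : 1 ≤ M := by linarith
  set a := ⌈M⌉₊ with ha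
  set K := ⌊16 * X / M ^ q⌋₊ with hK
  set θ₁ := X ^ (ε / 2 - 1) with hθ1
  set θ := √((4 * M) ^ q / X) with hθ
  have ha1 : M ≤ a := Nat.le_ceil _
  have ha2 : (a : ℝ) ≤ 2 * M := by
    have := Nat.ceil_lt_add_one hM0.le
    rw [← ha] at this
    linarith
  have hXh : X ^ (1 / 2 : ℝ) * X ^ (1 / 2 : ℝ) = X := by
    rw [← Real.rpow_add hX0]
    norm_num
  have hXq : X ^ (1 / 4 : ℝ) * X ^ (1 / 4 : ℝ) = X ^ (1 / 2 : ℝ) := by
    rw [← Real.rpow_add hX0]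
    norm_num
  have hXh0 : 0 < X ^ (1 / 2 : ℝ) := by positivity
  have hXq0 : 0 < X ^ (1 / 4 : ℝ) := by positivity
  have hXh2 : 256 ≤ X ^ (1 / 2 : ℝ) := by
    by_contra hcon
    rw [not_le] at hcon
    nlinarith
  have hXq2 : 16 ≤ X ^ (1 / 4 : ℝ) := by
    by_contra hcon
    rw [not_le] at hcon
    nlinarith
  have hXhX : X ^ (1 / 2 : ℝ) ≤ X := by nlinarith
  have hMq1 : 1 ≤ M ^ q := one_le_pow₀ hM1
  have h4M1 : 1 ≤ (4 * M) ^ q := one_le_pow₀ (by linarith)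
  have h4M0 : 0 < (4 * M) ^ q := by positivity
  have hMqe : M ^ q = X ^ (ε / 8) := by
    rw [hM, ← Real.rpow_natCast (X ^ δ) q, ← Real.rpow_mul hX0.le]
    congr 1
    rw [hδ]
    field_simp
  have hKle : (K : ℝ) ≤ 16 * X / M ^ q := Nat.floor_le (by positivity)
  have hKlt : 16 * X / M ^ q < K + 1 := Nat.lt_floor_add_one _
  have hθ10 : 0 < θ₁ := by positivity
  have hθ0 : 0 < θ := Real.sqrt_pos.mpr (by positivity)
  -- conditions on theta
  have c1 : 1 / X ≤ θ₁ := by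
    rw [one_div, ← Real.rpow_neg_one]
    apply Real.rpow_le_rpow_of_exponent_le hXge1
    linarith
  have c2 : θ₁ ≤ 4 * θ := by
    have : θ₁ ≤ θ := by
      apply Real.le_sqrt_of_sq_le
      rw [hθ1, ← Real.rpow_natCast, ← Real.rpow_mul hX0.le, le_div_iff₀ hX0]
      calc X ^ ((ε / 2 - 1) * ((2 : ℕ) : ℝ)) * X = X ^ (ε - 1) := by
            rw [← Real.rpow_add_one hX0.ne']
            congr 1
            push_cast
            ring
        _ ≤ 1 := Real.rpow_le_one_of_one_le_of_nonpos hXge1 (by linarith)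
        _ ≤ _ := h4M1
    linarith
  have c3 : 4 * θ ≤ M ^ (-(1 / 8) : ℝ) := by
    have h1 : θ ≤ X ^ (-(1 / 4) : ℝ) := by
      have e5 : (X ^ (-(1 / 4) : ℝ)) ^ 2 = X ^ (-(1 / 2) : ℝ) := by
        rw [← Real.rpow_natCast (X ^ (-(1 / 4) : ℝ)) 2, ← Real.rpow_mul hX0.le]
        norm_num
      rw [hθ, Real.sqrt_le_left (by positivity), e5, div_le_iff₀ hX0]
      refine hMq.trans (le_of_eq ?_)
      rw [← Real.rpow_add_one hX0.ne']
      norm_num
    have h2 : X ^ (1 / 8 : ℝ) * X ^ (1 / 8 : ℝ) = X ^ (1 / 4 : ℝ) := by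
      rw [← Real.rpow_add hX0]
      norm_num
    have h3 : 4 ≤ X ^ (1 / 8 : ℝ) := by
      by_contra hcon
      rw [not_le] at hcon
      have : 0 < X ^ (1 / 8 : ℝ) := by positivity
      nlinarith
    calc 4 * θ ≤ X ^ (1 / 8 : ℝ) * X ^ (-(1 / 4) : ℝ) := by
          apply mul_le_mul h3 h1 hθ0.le (by positivity)
      _ = X ^ (-(1 / 8) : ℝ) := by
          rw [← Real.rpow_add hX0]
          norm_num
      _ ≤ _ := by
          rw [hM, ← Real.rpow_mul hX0.le]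
          apply Real.rpow_le_rpow_of_exponent_le hXge1
          linarith
  have c4 : ((2 * a : ℕ) : ℝ) ≤ 4 * M := by
    push_cast
    linarith
  have hinvθ : 1 / θ₁ ≤ K := by
    have h2 : 1 / θ₁ = X ^ (1 - ε / 2) := by
      rw [hθ1, one_div, ← Real.rpow_neg hX0.le]
      congr 1
      ring
    have h3 : 16 * X / M ^ q = 16 * X ^ (1 - ε / 8) := by
      rw [hMqe, mul_div_assoc]
      congr 1
      rw [div_eq_mul_inv, ← Real.rpow_neg hX0.le, mul_comm, ← Real.rpow_add_one hX0.ne']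
      congr 1
      ring
    rw [h2]
    rw [h3] at hKlt
    have h4 : X ^ (1 - ε / 2) ≤ X ^ (1 - ε / 8) :=
      Real.rpow_le_rpow_of_exponent_le hXge1 (by linarith)
    have h5 : 1 ≤ X ^ (1 - ε / 8) := Real.one_le_rpow hXge1 (by linarith)
    linarith
  obtain ⟨hint, hbound⟩ := hspec X ((le_max_left _ _).trans hX) θ₁ (4 * θ) c1 c2 c3 a (2 * a) ha1
    c4 K (fun k => ((ind B k : ℝ) : ℂ)) (by
      intro k
      rw [Complex.norm_real, Real.norm_of_nonneg (ind_nonneg B k)]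
      exact ind_le B k)
  set g : ℝ → ℝ := fun u => ‖DD (Ico a (2 * a) ×ˢ Icc 1 K) (lf q)
    (fun p => ((ind B p.2 : ℝ) : ℂ)) θ₁ (4 * θ) u‖ ^ 2 with hg
  set LB : ℝ := (1 / 8) * M * (X / (4 * M) ^ q) * X ^ (-(2 * κ)) with hLBd
  have hXκ : 0 < X ^ (-(2 * κ)) := by positivity
  have hLB0 : 0 < LB := by positivity
  set h := ⌈X ^ ε⌉₊ / 2 with hh
  have hXεX : X ^ ε ≤ X := by
    calc X ^ ε ≤ X ^ (1 : ℝ) := Real.rpow_le_rpow_of_exponent_le hXge1 (by linarith)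
      _ = X := Real.rpow_one X
  have hcol := collect g hint (fun u => by simp only [hg]; positivity) S h X ((LB / 2) ^ 2)
    (by positivity) (by
      intro y hy
      obtain ⟨h1, h2, -⟩ := hS y hy
      have h3 : (0 : ℝ) < y := by linarith
      have h4 : 0 < y := by exact_mod_cast h3
      have h5 : ((h : ℕ) : ℝ) ≤ (⌈X ^ ε⌉₊ : ℝ) / 2 := by
        rw [hh]
        exact Nat.cast_div_le
      have h6 : (⌈X ^ ε⌉₊ : ℝ) < X ^ ε + 1 := Nat.ceil_lt_add_one (by positivity)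
      refine ⟨h4, ?_⟩
      linarith) (by
      intro y hy u hu1 hu2
      obtain ⟨h1, h2, h3⟩ := hS y hy
      have h4 := point q hq ε κ X hε hε1 hκ0 hκ8 M (by linarith) hM2 hXε hMq hexp B hinv hdens y
        h1 h2 h3 u hu1 hu2
      simp only [hg]
      exact pow_le_pow_left₀ (by positivity) h4 2)
  have hK0 : (0 : ℝ) ≤ K := Nat.cast_nonneg K
  have hb2 : ∫ u, g u ≤ 640 * M ^ (2 - 2 * η) * (16 * X / M ^ q) ^ 2 := by
    refine hbound.trans ?_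
    have h1 : (1 / θ₁ + K) * K ≤ 2 * (16 * X / M ^ q) ^ 2 := by
      have h2 : (1 / θ₁ + K) * K ≤ (2 * K) * K := by
        apply mul_le_mul_of_nonneg_right _ hK0
        linarith
      have h3 : (K : ℝ) ^ 2 ≤ (16 * X / M ^ q) ^ 2 := pow_le_pow_left₀ hK0 hKle 2
      nlinarith
    calc 320 * M ^ (2 - 2 * η) * (1 / θ₁ + K) * K
        = 320 * M ^ (2 - 2 * η) * ((1 / θ₁ + K) * K) := by ring
      _ ≤ 320 * M ^ (2 - 2 * η) * (2 * (16 * X / M ^ q) ^ 2) :=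
          mul_le_mul_of_nonneg_left h1 (by positivity)
      _ = _ := by ring
  have hmain := hcol.trans hb2
  -- extract the bound for the cardinality
  have hMpow : M ^ (2 - 2 * η) = M ^ 2 * M ^ (-(2 * η)) := by
    rw [← Real.rpow_natCast M 2, ← Real.rpow_add hM0]
    congr 1
  have hfac : (LB / 2) ^ 2 / (8 * X) = (1 / (8 * 4 * 64 * X)) *
      (M ^ 2 * X ^ 2 / (16 ^ q * (M ^ q) ^ 2)) * (X ^ (-(2 * κ))) ^ 2 := by
    have e2 : (16 : ℝ) ^ q = (4 ^ q) ^ 2 := by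
      rw [← pow_mul, mul_comm, pow_mul]
      norm_num
    rw [hLBd, e2, mul_pow 4 M q]
    field_simp
    norm_num
  have hlow0 : 0 < (LB / 2) ^ 2 / (8 * X) := by positivity
  have h1 : (S.card : ℝ) ≤ (640 * M ^ (2 - 2 * η) * (16 * X / M ^ q) ^ 2) /
      ((LB / 2) ^ 2 / (8 * X)) := by
    rw [le_div_iff₀ hlow0]
    exact hmain
  have h2 : (640 * M ^ (2 - 2 * η) * (16 * X / M ^ q) ^ 2) / ((LB / 2) ^ 2 / (8 * X)) =
      (8 * 4 * 64 * 640 * 256 * 16 ^ q) * ((M ^ (-(2 * η)) * X) / (X ^ (-(2 * κ))) ^ 2) := by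
    rw [hfac, hMpow]
    field_simp
    ring
  rw [h2] at h1
  refine h1.trans ?_
  have h3 : (M ^ (-(2 * η)) * X) / (X ^ (-(2 * κ))) ^ 2 = X ^ (1 - 2 * (η * δ) + 4 * κ) := by
    rw [hM, ← Real.rpow_mul hX0.le, ← Real.rpow_add_one hX0.ne', ← Real.rpow_natCast,
      ← Real.rpow_mul hX0.le, ← Real.rpow_sub hX0]
    congr 1
    push_cast
    ring
  rw [h3]
  calc (8 * 4 * 64 * 640 * 256 * 16 ^ q) * X ^ (1 - 2 * (η * δ) + 4 * κ)
      ≤ X ^ (η * δ / 2) * X ^ (1 - 2 * (η * δ) + 4 * κ) :=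
        mul_le_mul_of_nonneg_right hfinal (by positivity)
    _ = X ^ (η * δ / 2 + (1 - 2 * (η * δ) + 4 * κ)) := by
        rw [← Real.rpow_add hX0]
    _ ≤ X ^ (1 - η * δ) := by
        apply Real.rpow_le_rpow_of_exponent_le hXge1
        linarith

end Pool.Agent.BrE
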