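import Pool.Agent.MR.AMvt

set_option autoImplicit false

/-!
# Parseval for the difference of two Gaussian averages on the logarithmic scale
-/

open Finset MeasureTheory

namespace Pool.Agent.BrE

open Pool.Agent.MR

/-- normalised Gaussian -/
noncomputable def gg (θ v : ℝ) : ℝ := (1 / θ) * Real.exp (-v ^ 2 / (2 * θ ^ 2))

theorem gg_nonneg (θ v : ℝ) (hθ : 0 < θ) : 0 ≤ gg θ v := by
  unfold gg
  positivity

/-- frequencies -/
noncomputable def lf (q : ℕ) (p : ℕ × ℕ) : ℝ := q * Real.log p.1 + Real.log p.2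

/-- completing the square -/
theorem gg_mul (a b : ℝ) (ha : 0 < a) (hb : 0 < b) (x y u : ℝ) :
    gg a (u - x) * gg b (u - y) = (1 / (a * b) * Real.exp (-(x - y) ^ 2 / (2 * (a ^ 2 + b ^ 2)))) *
      Real.exp (-((a ^ 2 + b ^ 2) / (2 * a ^ 2 * b ^ 2)) *
        (u - (b ^ 2 * x + a ^ 2 * y) / (a ^ 2 + b ^ 2)) ^ 2) := by
  unfold gg
  have hab : a ^ 2 + b ^ 2 ≠ 0 := by positivity
  have e1 : 1 / a * Real.exp (-(u - x) ^ 2 / (2 * a ^ 2)) *
      (1 / b * Real.exp (-(u - y) ^ 2 / (2 * b ^ 2))) = 1 / (a * b) *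
      (Real.exp (-(u - x) ^ 2 / (2 * a ^ 2)) * Real.exp (-(u - y) ^ 2 / (2 * b ^ 2))) := by
    field_simp
  rw [e1, mul_assoc (1 / (a * b)), ← Real.exp_add, ← Real.exp_add]
  congr 2
  field_simp
  ring

theorem gg_int (a b : ℝ) (ha : 0 < a) (hb : 0 < b) (x y : ℝ) :
    Integrable (fun u : ℝ => gg a (u - x) * gg b (u - y)) := by
  have h := ((integrable_exp_neg_mul_sq (b := (a ^ 2 + b ^ 2) / (2 * a ^ 2 * b ^ 2))
    (by positivity)).comp_sub_right ((b ^ 2 * x + a ^ 2 * y) / (a ^ 2 + b ^ 2))).const_mul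
    (1 / (a * b) * Real.exp (-(x - y) ^ 2 / (2 * (a ^ 2 + b ^ 2))))
  refine h.congr (Filter.Eventually.of_forall fun u => ?_)
  simp only
  rw [gg_mul a b ha hb]

/-- the width of the product -/
noncomputable def TT (a b : ℝ) : ℝ := √(2 / (a ^ 2 + b ^ 2))

theorem TT_pos (a b : ℝ) (ha : 0 < a) : 0 < TT a b := by
  unfold TT
  apply Real.sqrt_pos.mpr
  positivity

theorem gg_integral (a b : ℝ) (ha : 0 < a) (hb : 0 < b) (x y : ℝ) :
    ∫ u : ℝ, gg a (u - x) * gg b (u - y)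
      = √Real.pi * TT a b * Real.exp (-(TT a b * (x - y) / 2) ^ 2) := by
  simp_rw [gg_mul a b ha hb]
  rw [integral_const_mul, integral_sub_right_eq_self
    (fun u => Real.exp (-((a ^ 2 + b ^ 2) / (2 * a ^ 2 * b ^ 2)) * u ^ 2)), integral_gaussian]
  have hT2 : TT a b ^ 2 = 2 / (a ^ 2 + b ^ 2) := by
    unfold TT
    exact Real.sq_sqrt (by positivity)
  have e1 : -(TT a b * (x - y) / 2) ^ 2 = -(x - y) ^ 2 / (2 * (a ^ 2 + b ^ 2)) := by
    rw [div_pow, mul_pow, hT2]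
    field_simp
  rw [e1]
  have e2 : √(Real.pi / ((a ^ 2 + b ^ 2) / (2 * a ^ 2 * b ^ 2))) = √Real.pi * (TT a b * (a * b)) := by
    have h1 : Real.pi / ((a ^ 2 + b ^ 2) / (2 * a ^ 2 * b ^ 2))
        = Real.pi * (2 / (a ^ 2 + b ^ 2) * (a * b) ^ 2) := by
      field_simp
    rw [h1, Real.sqrt_mul Real.pi_pos.le, Real.sqrt_mul (by positivity), Real.sqrt_sq (by positivity)]
    rfl
  rw [e2]
  field_simp

/-- the kernel on the Fourier side -/
noncomputable def KK (a b t : ℝ) : ℝ :=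
  (Real.exp (-(a * t) ^ 2 / 2) - Real.exp (-(b * t) ^ 2 / 2)) ^ 2

theorem exp_TT (a b t : ℝ) (ha : 0 < a) :
    Real.exp (-(t / TT a b) ^ 2) = Real.exp (-(a * t) ^ 2 / 2) * Real.exp (-(b * t) ^ 2 / 2) := by
  have hT2 : TT a b ^ 2 = 2 / (a ^ 2 + b ^ 2) := by
    unfold TT
    exact Real.sq_sqrt (by positivity)
  rw [← Real.exp_add]
  congr 1
  rw [div_pow, hT2]
  field_simp
  ring

theorem KK_eq (a b t : ℝ) (ha : 0 < a) (hb : 0 < b) :
    KK a b t = Real.exp (-(t / TT a a) ^ 2) - 2 * Real.exp (-(t / TT a b) ^ 2)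
      + Real.exp (-(t / TT b b) ^ 2) := by
  rw [exp_TT a a t ha, exp_TT a b t ha, exp_TT b b t hb]
  unfold KK
  ring

/-- the difference of the averages -/
noncomputable def DD {ι : Type*} (S : Finset ι) (l : ι → ℝ) (c : ι → ℂ) (a b u : ℝ) : ℂ :=
  ∑ i ∈ S, c i * ((gg a (u - l i) - gg b (u - l i) : ℝ) : ℂ)

/-- the exponential polynomial -/
noncomputable def PP {ι : Type*} (S : Finset ι) (l : ι → ℝ) (c : ι → ℂ) (t : ℝ) : ℂ :=
  ∑ i ∈ S, c i * Complex.exp (-(t * l i : ℝ) * Complex.I)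

theorem pars {ι : Type*} (S : Finset ι) (l : ι → ℝ) (c : ι → ℂ) (a b : ℝ) (ha : 0 < a)
    (hb : 0 < b) :
    Integrable (fun u : ℝ => ‖DD S l c a b u‖ ^ 2) ∧
    Integrable (fun t : ℝ => ‖PP S l c t‖ ^ 2 * KK a b t) ∧
    ∫ u : ℝ, ‖DD S l c a b u‖ ^ 2 = ∫ t : ℝ, ‖PP S l c t‖ ^ 2 * KK a b t := by
  obtain ⟨i1, q1⟩ := amvt_quad S l c (TT a a) (TT_pos a a ha)
  obtain ⟨i2, q2⟩ := amvt_quad S l c (TT a b) (TT_pos a b ha)
  obtain ⟨i3, q3⟩ := amvt_quad S l c (TT b b) (TT_pos b b hb)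
  replace i1 : Integrable (fun t : ℝ => ‖PP S l c t‖ ^ 2 * Real.exp (-(t / TT a a) ^ 2)) := i1
  replace i2 : Integrable (fun t : ℝ => ‖PP S l c t‖ ^ 2 * Real.exp (-(t / TT a b) ^ 2)) := i2
  replace i3 : Integrable (fun t : ℝ => ‖PP S l c t‖ ^ 2 * Real.exp (-(t / TT b b) ^ 2)) := i3
  have hK : ∀ t : ℝ, ‖PP S l c t‖ ^ 2 * KK a b t =
      ‖PP S l c t‖ ^ 2 * Real.exp (-(t / TT a a) ^ 2)
      - 2 * (‖PP S l c t‖ ^ 2 * Real.exp (-(t / TT a b) ^ 2))
      + ‖PP S l c t‖ ^ 2 * Real.exp (-(t / TT b b) ^ 2) := by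
    intro t
    rw [KK_eq a b t ha hb]
    ring
  have hint2 : Integrable (fun t : ℝ => ‖PP S l c t‖ ^ 2 * KK a b t) := by
    simp_rw [hK]
    exact (i1.sub (i2.const_mul 2)).add i3
  -- the left-hand side
  set Φ : ι → ι → ℝ → ℝ := fun i j u =>
    (gg a (u - l i) - gg b (u - l i)) * (gg a (u - l j) - gg b (u - l j)) with hΦ
  have hΦe : ∀ i j u, Φ i j u = gg a (u - l i) * gg a (u - l j) - gg a (u - l i) * gg b (u - l j)
      - gg a (u - l j) * gg b (u - l i) + gg b (u - l i) * gg b (u - l j) := by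
    intro i j u
    simp only [hΦ]
    ring
  have hΦi : ∀ i j, Integrable (Φ i j) := by
    intro i j
    have := (((gg_int a a ha ha (l i) (l j)).sub (gg_int a b ha hb (l i) (l j))).sub
      (gg_int a b ha hb (l j) (l i))).add (gg_int b b hb hb (l i) (l j))
    refine this.congr (Filter.Eventually.of_forall fun u => ?_)
    simp only [Pi.add_apply, Pi.sub_apply]
    rw [hΦe]
  have hΦv : ∀ i j, ∫ u, Φ i j u = √Real.pi * TT a a * Real.exp (-(TT a a * (l i - l j) / 2) ^ 2)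
      - 2 * (√Real.pi * TT a b * Real.exp (-(TT a b * (l i - l j) / 2) ^ 2))
      + √Real.pi * TT b b * Real.exp (-(TT b b * (l i - l j) / 2) ^ 2) := by
    intro i j
    simp_rw [hΦe]
    rw [integral_add, integral_sub, integral_sub, gg_integral a a ha ha, gg_integral a b ha hb,
      gg_integral a b ha hb, gg_integral b b hb hb]
    · have : (TT a b * (l j - l i) / 2) ^ 2 = (TT a b * (l i - l j) / 2) ^ 2 := by ring
      rw [this]
      ring
    · exact gg_int a a ha ha _ _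
    · exact gg_int a b ha hb _ _
    · exact (gg_int a a ha ha _ _).sub (gg_int a b ha hb _ _)
    · exact gg_int a b ha hb _ _
    · exact ((gg_int a a ha ha _ _).sub (gg_int a b ha hb _ _)).sub (gg_int a b ha hb _ _)
    · exact gg_int b b hb hb _ _
  have hexp : ∀ u : ℝ, ((‖DD S l c a b u‖ ^ 2 : ℝ) : ℂ)
      = ∑ i ∈ S, ∑ j ∈ S, (c i * (starRingEnd ℂ) (c j)) * ((Φ i j u : ℝ) : ℂ) := by
    intro u
    unfold DD
    rw [Complex.ofReal_pow, ← Complex.mul_conj', map_sum, Finset.sum_mul_sum]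
    refine Finset.sum_congr rfl fun i _ => Finset.sum_congr rfl fun j _ => ?_
    rw [map_mul, Complex.conj_ofReal]
    simp only [hΦ]
    push_cast
    ring
  have hintS : Integrable fun u : ℝ => ∑ i ∈ S, ∑ j ∈ S,
      (c i * (starRingEnd ℂ) (c j)) * ((Φ i j u : ℝ) : ℂ) :=
    integrable_finsetSum _ fun i _ => integrable_finsetSum _ fun j _ =>
      (hΦi i j).ofReal.const_mul _
  have hint1 : Integrable (fun u : ℝ => ‖DD S l c a b u‖ ^ 2) := by
    refine hintS.re.congr (Filter.Eventually.of_forall fun u => ?_)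
    simp only
    rw [← hexp]
    exact Complex.ofReal_re _
  refine ⟨hint1, hint2, ?_⟩
  apply Complex.ofReal_injective
  have hR : ((∫ t : ℝ, ‖PP S l c t‖ ^ 2 * KK a b t : ℝ) : ℂ) =
      ((∫ t : ℝ, ‖PP S l c t‖ ^ 2 * Real.exp (-(t / TT a a) ^ 2) : ℝ) : ℂ)
      - 2 * ((∫ t : ℝ, ‖PP S l c t‖ ^ 2 * Real.exp (-(t / TT a b) ^ 2) : ℝ) : ℂ)
      + ((∫ t : ℝ, ‖PP S l c t‖ ^ 2 * Real.exp (-(t / TT b b) ^ 2) : ℝ) : ℂ) := by
    simp_rw [hK]
    have e1 : ∫ t : ℝ, (‖PP S l c t‖ ^ 2 * Real.exp (-(t / TT a a) ^ 2)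
        - 2 * (‖PP S l c t‖ ^ 2 * Real.exp (-(t / TT a b) ^ 2))
        + ‖PP S l c t‖ ^ 2 * Real.exp (-(t / TT b b) ^ 2))
        = (∫ t : ℝ, (‖PP S l c t‖ ^ 2 * Real.exp (-(t / TT a a) ^ 2)
        - 2 * (‖PP S l c t‖ ^ 2 * Real.exp (-(t / TT a b) ^ 2))))
        + ∫ t : ℝ, ‖PP S l c t‖ ^ 2 * Real.exp (-(t / TT b b) ^ 2) :=
      integral_add (i1.sub (i2.const_mul 2)) i3
    rw [e1, integral_sub i1 (i2.const_mul 2), integral_const_mul]
    push_cast
    ring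
  rw [hR]
  unfold PP
  rw [q1, q2, q3, ← integral_complex_ofReal]
  simp_rw [hexp]
  rw [integral_finsetSum _ fun i _ => integrable_finsetSum _ fun j _ =>
      (hΦi i j).ofReal.const_mul _, Finset.mul_sum, ← Finset.sum_sub_distrib,
      ← Finset.sum_add_distrib]
  refine Finset.sum_congr rfl fun i _ => ?_
  rw [integral_finsetSum _ fun j _ => (hΦi i j).ofReal.const_mul _, Finset.mul_sum,
    ← Finset.sum_sub_distrib, ← Finset.sum_add_distrib]
  refine Finset.sum_congr rfl fun j _ => ?_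
  rw [integral_const_mul, integral_complex_ofReal, hΦv]
  push_cast
  ring

end Pool.Agent.BrE
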