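import Pool.Agent.BrE.Blocks

set_option autoImplicit false

/-!
# Short intervals near squares at one scale
-/

open Finset

namespace Pool.Agent.BrE

/-- products `(n-u)(n+u)` in a window below `x`. -/
theorem right_inj (f : ℕ → ℂ) (s : ℂ) (n v U : ℕ) (x R : ℝ) (hv : 1 ≤ v) (hvU : v + U ≤ n)
    (hx1 : (n : ℝ) ^ 2 - ((v : ℝ) - 1) ^ 2 ≤ x) (hx2 : x ≤ (n : ℝ) ^ 2)
    (hR : ((v : ℝ) + U) ^ 2 ≤ R) :
    ((Ico v (v + U)).filter (fun u => f ((n - u) * (n + u + 0)) ≠ s)).card ≤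
    Set.ncard {m : ℕ | x - R < m ∧ (m : ℝ) < x ∧ f m ≠ s} := by
  classical
  have hfin : Set.Finite {m : ℕ | x - R < m ∧ (m : ℝ) < x ∧ f m ≠ s} := by
    apply Set.Finite.subset (Set.finite_Icc 0 ⌈x⌉₊)
    intro m hm
    obtain ⟨-, h2, -⟩ := hm
    refine ⟨Nat.zero_le _, ?_⟩
    have := Nat.le_ceil x
    have h3 : (m : ℝ) ≤ (⌈x⌉₊ : ℝ) := by linarith
    exact_mod_cast h3
  rw [← Set.ncard_coe_finset]
  apply Set.ncard_le_ncard_of_injOn (ht := hfin) (fun u => (n - u) * (n + u + 0))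
  · intro u hu
    rw [coe_filter, Set.mem_ofPred_eq, mem_Ico] at hu
    obtain ⟨⟨h1, h2⟩, h3⟩ := hu
    have hun : u ≤ n := by omega
    have hcast : (((n - u) * (n + u + 0) : ℕ) : ℝ) = (n : ℝ) ^ 2 - u ^ 2 := by
      push_cast [Nat.cast_sub hun]
      ring
    have hu1 : (v : ℝ) ≤ u := by exact_mod_cast h1
    have hu2 : (u : ℝ) < v + U := by exact_mod_cast h2
    have hv1 : (1 : ℝ) ≤ v := by exact_mod_cast hv
    refine ⟨?_, ?_, h3⟩
    · rw [hcast]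
      have : (u : ℝ) ^ 2 < ((v : ℝ) + U) ^ 2 := by
        apply pow_lt_pow_left₀ hu2 (by linarith) (by norm_num)
      linarith
    · rw [hcast]
      have : ((v : ℝ) - 1) ^ 2 < (u : ℝ) ^ 2 := by
        apply pow_lt_pow_left₀ (by linarith) (by linarith) (by norm_num)
      linarith
  · intro u hu u' hu' huu
    rw [coe_filter, Set.mem_ofPred_eq, mem_Ico] at hu hu'
    simp only at huu
    have e1 : (((n - u) * (n + u + 0) : ℕ) : ℝ) = (n : ℝ) ^ 2 - u ^ 2 := by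
      push_cast [Nat.cast_sub (by omega : u ≤ n)]
      ring
    have e2 : (((n - u') * (n + u' + 0) : ℕ) : ℝ) = (n : ℝ) ^ 2 - u' ^ 2 := by
      push_cast [Nat.cast_sub (by omega : u' ≤ n)]
      ring
    rw [huu, e2] at e1
    have hu1 : (1 : ℝ) ≤ u := by exact_mod_cast hv.trans hu.1.1
    have hu1' : (1 : ℝ) ≤ u' := by exact_mod_cast hv.trans hu'.1.1
    have e3 : ((u : ℝ) - u') * (u + u') = 0 := by linarith
    rcases mul_eq_zero.mp e3 with h | h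
    · have : (u : ℝ) = u' := by linarith
      exact_mod_cast this
    · linarith

/-- products `(n-u)(n+u+j)` in a window above `n² + βn`. -/
theorem left_inj (f : ℕ → ℂ) (s : ℂ) (n j U : ℕ) (β R : ℝ) (hβ : β < j) (hβ0 : 0 ≤ β)
    (hn : 1 ≤ n) (hUn : ⌊√((j - β) * n)⌋₊ ≤ n) (hU : U + j ≤ ⌊√((j - β) * n)⌋₊)
    (hR : 2 * √((j - β) * n) * (U + j + 1) < R) :
    ((Ico (⌊√((j - β) * n)⌋₊ - (U + j)) (⌊√((j - β) * n)⌋₊ - (U + j) + U)).filter (fun u =>
      f ((n - u) * (n + u + j)) ≠ s)).card ≤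
    Set.ncard {m : ℕ | (n : ℝ) ^ 2 + β * n < m ∧ (m : ℝ) < (n : ℝ) ^ 2 + β * n + R ∧ f m ≠ s} := by
  classical
  have hnr : (1 : ℝ) ≤ n := by exact_mod_cast hn
  have hnr0 : (0 : ℝ) < n := by linarith
  have hjβ : 0 < (j : ℝ) - β := by linarith
  set σ : ℝ := √((j - β) * n) with hσ
  have hσ2 : σ ^ 2 = (j - β) * n := by
    rw [hσ, Real.sq_sqrt]
    positivity
  have hσ0 : 0 ≤ σ := Real.sqrt_nonneg _
  set w : ℕ := ⌊σ⌋₊ with hw
  have hw1 : (w : ℝ) ≤ σ := Nat.floor_le hσ0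
  have hw2 : σ < w + 1 := Nat.lt_floor_add_one _
  have hj1 : 1 ≤ j := by
    have h1 : (0 : ℝ) < j := by linarith
    have h2 : 0 < j := by exact_mod_cast h1
    omega
  have hj1r : (1 : ℝ) ≤ j := by exact_mod_cast hj1
  have hfin : Set.Finite {m : ℕ | (n : ℝ) ^ 2 + β * n < m ∧ (m : ℝ) < (n : ℝ) ^ 2 + β * n + R ∧
      f m ≠ s} := by
    apply Set.Finite.subset (Set.finite_Icc 0 ⌈(n : ℝ) ^ 2 + β * n + R⌉₊)
    intro m hm
    obtain ⟨-, h2, -⟩ := hm
    refine ⟨Nat.zero_le _, ?_⟩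
    have := Nat.le_ceil ((n : ℝ) ^ 2 + β * n + R)
    have h3 : (m : ℝ) ≤ (⌈(n : ℝ) ^ 2 + β * n + R⌉₊ : ℝ) := by linarith
    exact_mod_cast h3
  rw [← Set.ncard_coe_finset]
  apply Set.ncard_le_ncard_of_injOn (ht := hfin) (fun u => (n - u) * (n + u + j))
  · intro u hu
    rw [coe_filter, Set.mem_ofPred_eq, mem_Ico] at hu
    obtain ⟨⟨h1, h2⟩, h3⟩ := hu
    have hun : u ≤ n := by omega
    have hcast : (((n - u) * (n + u + j) : ℕ) : ℝ) = (n : ℝ) ^ 2 + j * n - u * (u + j) := by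
      push_cast [Nat.cast_sub hun]
      ring
    have hu1 : (w : ℝ) ≤ u + (U + j) := by
      have : w ≤ u + (U + j) := by omega
      exact_mod_cast this
    have hu2 : (u : ℝ) + j + 1 ≤ w := by
      have : u + j + 1 ≤ w := by omega
      exact_mod_cast this
    have hu0 : (0 : ℝ) ≤ u := Nat.cast_nonneg u
    have hU0 : (0 : ℝ) ≤ U := Nat.cast_nonneg U
    refine ⟨?_, ?_, h3⟩
    · rw [hcast]
      have : (u : ℝ) * (u + j) < σ ^ 2 := by nlinarith
      rw [hσ2] at this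
      nlinarith
    · rw [hcast]
      have h5 : σ - (U + j + 1) ≤ u := by linarith
      have h6 : σ ^ 2 - 2 * σ * (U + j + 1) ≤ u * (u + j) := by
        rcases le_total 0 (σ - (U + j + 1)) with h8 | h8
        · nlinarith
        · have h9 : (0 : ℝ) ≤ u * (u + j) := by positivity
          nlinarith
      rw [hσ2] at h6
      nlinarith
  · intro u hu u' hu' huu
    rw [coe_filter, Set.mem_ofPred_eq, mem_Ico] at hu hu'
    simp only at huu
    have e1 : (((n - u) * (n + u + j) : ℕ) : ℝ) = (n : ℝ) ^ 2 + j * n - u * (u + j) := by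
      push_cast [Nat.cast_sub (by omega : u ≤ n)]
      ring
    have e2 : (((n - u') * (n + u' + j) : ℕ) : ℝ) = (n : ℝ) ^ 2 + j * n - u' * (u' + j) := by
      push_cast [Nat.cast_sub (by omega : u' ≤ n)]
      ring
    rw [huu, e2] at e1
    have e3 : ((u : ℝ) - u') * (u + u' + j) = 0 := by linarith
    have hu1 : (0 : ℝ) ≤ u := Nat.cast_nonneg u
    have hu1' : (0 : ℝ) ≤ u' := Nat.cast_nonneg u'
    rcases mul_eq_zero.mp e3 with h | h
    · have : (u : ℝ) = u' := by linarith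
      exact_mod_cast this
    · linarith

/-- parameters at one scale -/
theorem scale_params (ε : ℝ) (hε : 0 < ε) (hε1 : ε ≤ 1) (J : ℝ) (hJ : 0 ≤ J) :
    ∀ᶠ N : ℝ in Filter.atTop, 16 ≤ N ∧ 4 ≤ N ^ (ε / 3) ∧
      -- U small
      (N ^ (ε / 8) + 1 + N ^ (ε / 3) * (N ^ (ε / 16) + 1)) ^ 2 ≤ (N / 2) ^ ε ∧
      N ^ (ε / 8) + 1 + N ^ (ε / 3) * (N ^ (ε / 16) + 1) ≤ N ^ (1 - ε / 16) ∧
      8 * (2 * N) ^ (ε / 4) ≤ N ^ (ε / 3) ∧
      -- left
      J * (N ^ (ε / 3) * (N ^ (ε / 16) + 1) + J) < N ^ ε ∧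
      J * N ^ (1 / 2 : ℝ) + N ^ (ε / 3) * (N ^ (ε / 16) + 1) ≤ N ^ (1 - ε / 16) := by
  have key : ∀ a b C : ℝ, 0 ≤ C → a < b → ∀ᶠ N : ℝ in Filter.atTop, C * N ^ a ≤ N ^ b := by
    intro a b C hC hab
    filter_upwards [ev_rpow (b - a) C (by linarith), Filter.eventually_gt_atTop (0 : ℝ)]
      with N h1 h2
    calc C * N ^ a ≤ N ^ (b - a) * N ^ a := by gcongr
      _ = N ^ b := by
          rw [← Real.rpow_add h2]
          congr 1
          ring
  filter_upwards [Filter.eventually_ge_atTop (16 : ℝ), ev_rpow (ε / 3) 4 (by positivity),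
    key (19 * ε / 48 * 2) ε (16 * 2 ^ ε) (by positivity) (by linarith),
    key (19 * ε / 48) (1 - ε / 16) 8 (by norm_num) (by linarith),
    key (ε / 4) (ε / 3) (8 * 2 ^ (ε / 4)) (by positivity) (by linarith),
    key (19 * ε / 48) ε (J * (2 + J) + 1) (by positivity) (by linarith),
    key (1 / 2) (1 - ε / 16) (2 * J) (by positivity) (by linarith)]
    with N g1 g2 g3 g4 g5 g6 g7
  have hN0 : 0 < N := by linarith
  have hN1 : 1 ≤ N := by linarith
  have hp : ∀ x y : ℝ, x ≤ y → N ^ x ≤ N ^ y := fun x y hxy =>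
    Real.rpow_le_rpow_of_exponent_le hN1 hxy
  have h1 : N ^ (ε / 3) * (N ^ (ε / 16) + 1) ≤ 2 * N ^ (19 * ε / 48) := by
    have e1 : N ^ (ε / 3) * N ^ (ε / 16) = N ^ (19 * ε / 48) := by
      rw [← Real.rpow_add hN0]
      congr 1
      ring
    have e2 : N ^ (ε / 3) ≤ N ^ (19 * ε / 48) := hp _ _ (by linarith)
    linarith
  have h2 : N ^ (ε / 8) ≤ N ^ (19 * ε / 48) := hp _ _ (by linarith)
  have h3 : 1 ≤ N ^ (19 * ε / 48) := Real.one_le_rpow hN1 (by positivity)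
  have h4 : N ^ (ε / 8) + 1 + N ^ (ε / 3) * (N ^ (ε / 16) + 1) ≤ 4 * N ^ (19 * ε / 48) := by linarith
  have h0 : 0 ≤ N ^ (ε / 3) * (N ^ (ε / 16) + 1) := by positivity
  have h00 : 0 < N ^ (19 * ε / 48) := by positivity
  refine ⟨g1, g2, ?_, ?_, ?_, ?_, ?_⟩
  · calc (N ^ (ε / 8) + 1 + N ^ (ε / 3) * (N ^ (ε / 16) + 1)) ^ 2
        ≤ (4 * N ^ (19 * ε / 48)) ^ 2 := by
          apply pow_le_pow_left₀ (by positivity) h4
      _ = 16 * N ^ (19 * ε / 48 * 2) := by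
          rw [mul_pow, ← Real.rpow_natCast (N ^ (19 * ε / 48)) 2, ← Real.rpow_mul hN0.le]
          norm_num
      _ ≤ (N / 2) ^ ε := by
          rw [Real.div_rpow hN0.le (by norm_num), le_div_iff₀ (by positivity)]
          calc 16 * N ^ (19 * ε / 48 * 2) * 2 ^ ε = 16 * 2 ^ ε * N ^ (19 * ε / 48 * 2) := by ring
            _ ≤ _ := g3
  · linarith
  · calc 8 * (2 * N) ^ (ε / 4) = 8 * 2 ^ (ε / 4) * N ^ (ε / 4) := by
          rw [Real.mul_rpow (by norm_num) hN0.le]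
          ring
      _ ≤ _ := g5
  · calc J * (N ^ (ε / 3) * (N ^ (ε / 16) + 1) + J) ≤ J * (2 * N ^ (19 * ε / 48) + J) := by gcongr
      _ ≤ J * (2 * N ^ (19 * ε / 48) + J * N ^ (19 * ε / 48)) := by
          apply mul_le_mul_of_nonneg_left _ hJ
          nlinarith
      _ < (J * (2 + J) + 1) * N ^ (19 * ε / 48) := by nlinarith
      _ ≤ _ := g6
  · have e1 : J * N ^ (1 / 2 : ℝ) ≤ N ^ (1 - ε / 16) / 2 := by linarith
    linarith

end Pool.Agent.BrE
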