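import Pool.Agent.BrE.Scale

set_option autoImplicit false

/-!
# Both kinds of windows at one scale
-/

open Finset

namespace Pool.Agent.BrE

/-- both kinds of windows at one scale -/
theorem scale_both (q : ℕ) (hq : 1 ≤ q) (ε : ℝ) (hε : 0 < ε) (hε1 : ε ≤ 1) :
    ∃ c κ : ℝ, 0 < c ∧ c ≤ 1 / 2 ∧ 0 < κ ∧ κ ≤ 1 / 8 ∧ ∀ β : ℝ, 0 ≤ β → ∃ N0 : ℝ, 1 ≤ N0 ∧
      ∀ N : ℝ, N0 ≤ N → ∀ f : ℕ → ℂ, RM q f → DensE f κ (N ^ (1 / 4 : ℝ)) →
      (∀ S : Finset ℕ, (∀ n ∈ S, N ≤ n ∧ (n : ℝ) ≤ 2 * N ∧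
        ∃ x : ℝ, (n : ℝ) ^ 2 - (⌊N ^ (ε / 8)⌋₊ : ℝ) ^ 2 ≤ x ∧ x ≤ (n : ℝ) ^ 2 ∧ ∃ s : ℂ,
          (Set.ncard {m : ℕ | x - (N / 2) ^ ε < m ∧ (m : ℝ) < x ∧ f m ≠ s} : ℝ) <
            (2 * N) ^ (ε / 4)) → (S.card : ℝ) ≤ 2 * N ^ (1 - c)) ∧
      (∀ S : Finset ℕ, (∀ n ∈ S, N ≤ n ∧ (n : ℝ) ≤ 2 * N ∧ ∃ s : ℂ,
          (Set.ncard {m : ℕ | (n : ℝ) ^ 2 + β * n < m ∧
            (m : ℝ) < (n : ℝ) ^ 2 + β * n + (n : ℝ) ^ (1 / 2 + ε) ∧ f m ≠ s} : ℝ) <
            (2 * N) ^ (ε / 4)) → (S.card : ℝ) ≤ 2 * N ^ (1 - c)) := by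
  classical
  obtain ⟨c, κ, hc, hc2, hκ, hκ8, N1, hN1, hwin⟩ := windowB q hq (ε / 16) (by positivity)
    (by linarith)
  refine ⟨c, κ, hc, hc2, hκ, hκ8, fun β hβ => ?_⟩
  set j : ℕ := ⌊β⌋₊ + 1 with hj
  have hβj : β < j := by
    rw [hj]
    push_cast
    exact Nat.lt_floor_add_one β
  have hj1 : (1 : ℝ) ≤ j := by
    rw [hj]
    push_cast
    have : (0 : ℝ) ≤ (⌊β⌋₊ : ℝ) := Nat.cast_nonneg _
    linarith
  have hjβ : 0 < (j : ℝ) - β := by linarith
  set J : ℝ := 2 * j + 2 with hJ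
  have hJ0 : 0 ≤ J := by positivity
  have hev2 : ∀ᶠ N : ℝ in Filter.atTop, (4 + j) / √((j : ℝ) - β) ≤ N ^ (1 / 2 - 19 * ε / 48) :=
    ev_rpow _ _ (by linarith)
  obtain ⟨N2, hN2⟩ := Filter.eventually_atTop.mp ((scale_params ε hε hε1 J hJ0).and
    (hev2.and (Filter.eventually_ge_atTop (j : ℝ))))
  refine ⟨max N1 N2, hN1.trans (le_max_left _ _), fun N hN f hf hd => ?_⟩
  have hNN1 : N1 ≤ N := (le_max_left _ _).trans hN
  obtain ⟨⟨p1, p2, p3, p4, p5, p6, p7⟩, p8, p9⟩ := hN2 N ((le_max_right _ _).trans hN)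
  have hN0 : 0 < N := by linarith
  have hNge1 : 1 ≤ N := by linarith
  set T : ℕ := ⌊N ^ (ε / 16)⌋₊ with hT
  set L : ℕ := ⌊N ^ (ε / 3)⌋₊ with hL
  set G : ℕ := ⌊N ^ (ε / 8)⌋₊ with hG
  have hT1 : (T : ℝ) ≤ N ^ (ε / 16) := Nat.floor_le (by positivity)
  have hL1 : (L : ℝ) ≤ N ^ (ε / 3) := Nat.floor_le (by positivity)
  have hL2 : N ^ (ε / 3) < L + 1 := Nat.lt_floor_add_one _
  have hG1 : (G : ℝ) ≤ N ^ (ε / 8) := Nat.floor_le (by positivity)
  have hLpos : 0 < L := by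
    have : (0 : ℝ) < L := by linarith
    exact_mod_cast this
  have hL0 : (0 : ℝ) ≤ L := Nat.cast_nonneg L
  have hT0 : (0 : ℝ) ≤ T := Nat.cast_nonneg T
  have hU : (L : ℝ) * (T + 1) ≤ N ^ (ε / 3) * (N ^ (ε / 16) + 1) := by gcongr
  have hUc : ((L * (T + 1) : ℕ) : ℝ) = L * (T + 1) := by push_cast; ring
  have hNpow : N ^ (1 - ε / 16) ≤ N := by
    calc N ^ (1 - ε / 16) ≤ N ^ (1 : ℝ) := Real.rpow_le_rpow_of_exponent_le hNge1 (by linarith)
      _ = N := Real.rpow_one N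
  have hsmall : ∀ x : ℕ, (x : ℝ) < (2 * N) ^ (ε / 4) → 2 * x < L := by
    intro x hx
    have h1 : (0 : ℝ) < (2 * N) ^ (ε / 4) := by positivity
    have h2 : 2 * (x : ℝ) < L := by linarith
    exact_mod_cast h2
  constructor
  · intro S hS
    have hvN : ((fun _ : ℕ => G + 1) ⌊3 * N⌋₊ : ℝ) + L * (⌊N ^ (ε / 16)⌋₊ + 1) ≤
        N ^ (1 - ε / 16) := by
      push_cast
      rw [← hT]
      linarith
    apply hwin N hNN1 f hf hd (fun _ => G + 1) 0 (by push_cast; linarith) monotone_const L hLpos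
      (by
        push_cast
        rw [← hT]
        linarith)
    intro n hn
    obtain ⟨h1, h2, x, h3, h4, s, h5⟩ := hS n hn
    refine ⟨h1, h2, s, ?_⟩
    apply hsmall
    refine lt_of_le_of_lt ?_ h5
    rw [← hT]
    have hvUn : G + 1 + L * (T + 1) ≤ n := by
      have : ((G + 1 + L * (T + 1) : ℕ) : ℝ) ≤ n := by
        push_cast
        linarith
      exact_mod_cast this
    have h6 := right_inj f s n (G + 1) (L * (T + 1)) x ((N / 2) ^ ε) (by omega) hvUn (by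
      push_cast
      rw [add_sub_cancel_right]
      exact h3) h4 (by
      refine le_trans ?_ p3
      rw [hUc]
      push_cast
      apply pow_le_pow_left₀ (by positivity)
      linarith)
    exact_mod_cast h6
  · intro S hS
    -- the offset
    set w : ℕ → ℕ := fun n => ⌊√((j - β) * n)⌋₊ - (L * (T + 1) + j) with hw
    have hwmono : Monotone w := by
      intro x y hxy
      simp only [hw]
      apply Nat.sub_le_sub_right
      apply Nat.floor_le_floor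
      apply Real.sqrt_le_sqrt
      have : (x : ℝ) ≤ y := by exact_mod_cast hxy
      exact mul_le_mul_of_nonneg_left this hjβ.le
    have hjsq : ∀ y : ℝ, 0 ≤ y → √((j - β) * y) ≤ j * √y := by
      intro y hy
      rw [Real.sqrt_le_left (by positivity), mul_pow, Real.sq_sqrt hy]
      apply mul_le_mul_of_nonneg_right _ hy
      nlinarith
    have hsqN : √N = N ^ (1 / 2 : ℝ) := Real.sqrt_eq_rpow N
    apply hwin N hNN1 f hf hd w j p9 hwmono L hLpos
    · have h1 : ((w ⌊3 * N⌋₊ : ℕ) : ℝ) ≤ √((j - β) * (⌊3 * N⌋₊ : ℕ)) := by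
        have h2 : w ⌊3 * N⌋₊ ≤ ⌊√((j - β) * (⌊3 * N⌋₊ : ℕ))⌋₊ := Nat.sub_le _ _
        refine le_trans (by exact_mod_cast h2) (Nat.floor_le (Real.sqrt_nonneg _))
      have h3 : ((⌊3 * N⌋₊ : ℕ) : ℝ) ≤ 4 * N := by
        have := Nat.floor_le (show 0 ≤ 3 * N by positivity)
        linarith
      have h4 : √((⌊3 * N⌋₊ : ℕ) : ℝ) ≤ 2 * √N := by
        rw [Real.sqrt_le_left (by positivity), mul_pow, Real.sq_sqrt hN0.le]
        linarith
      have h5 := hjsq ((⌊3 * N⌋₊ : ℕ) : ℝ) (Nat.cast_nonneg _)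
      have h6 : (j : ℝ) * √((⌊3 * N⌋₊ : ℕ) : ℝ) ≤ j * (2 * √N) := by gcongr
      have h7 : (j : ℝ) * (2 * √N) ≤ J * N ^ (1 / 2 : ℝ) := by
        rw [hsqN, hJ]
        have : 0 < N ^ (1 / 2 : ℝ) := by positivity
        nlinarith
      rw [← hT]
      linarith
    · intro n hn
      obtain ⟨h1, h2, s, h5⟩ := hS n hn
      refine ⟨h1, h2, s, ?_⟩
      apply hsmall
      refine lt_of_le_of_lt ?_ h5
      rw [← hT]
      have hn0 : (0 : ℝ) < n := by linarith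
      have hn1 : 1 ≤ n := by
        have : 0 < n := by exact_mod_cast hn0
        omega
      have hfl : (⌊√((j - β) * n)⌋₊ : ℝ) ≤ √((j - β) * n) := Nat.floor_le (Real.sqrt_nonneg _)
      have hfl2 : √((j - β) * n) < ⌊√((j - β) * n)⌋₊ + 1 := Nat.lt_floor_add_one _
      have hUj : L * (T + 1) + j ≤ ⌊√((j - β) * n)⌋₊ := by
        have hb1 : N ^ (ε / 3) * (N ^ (ε / 16) + 1) ≤ 2 * N ^ (19 * ε / 48) := by
          have e1 : N ^ (ε / 3) * N ^ (ε / 16) = N ^ (19 * ε / 48) := by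
            rw [← Real.rpow_add hN0]
            congr 1
            ring
          have e2 : N ^ (ε / 3) ≤ N ^ (19 * ε / 48) :=
            Real.rpow_le_rpow_of_exponent_le hNge1 (by linarith)
          linarith
        have hb2 : 1 ≤ N ^ (19 * ε / 48) := Real.one_le_rpow hNge1 (by positivity)
        have hsj : 0 < √((j : ℝ) - β) := Real.sqrt_pos.mpr hjβ
        rw [div_le_iff₀ hsj] at p8
        have hb3 : (4 + (j : ℝ)) * N ^ (19 * ε / 48) ≤ √((j - β) * n) := by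
          have e3 : √((j - β) * n) = √((j : ℝ) - β) * √n := Real.sqrt_mul hjβ.le _
          have e4 : N ^ (1 / 2 : ℝ) ≤ √(n : ℝ) := by
            rw [← hsqN]
            exact Real.sqrt_le_sqrt h1
          rw [e3]
          calc (4 + (j : ℝ)) * N ^ (19 * ε / 48)
              ≤ (N ^ (1 / 2 - 19 * ε / 48) * √((j : ℝ) - β)) * N ^ (19 * ε / 48) := by gcongr
            _ = √((j : ℝ) - β) * (N ^ (1 / 2 - 19 * ε / 48) * N ^ (19 * ε / 48)) := by ring
            _ = √((j : ℝ) - β) * N ^ (1 / 2 : ℝ) := by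
                rw [← Real.rpow_add hN0]
                congr 2
                ring
            _ ≤ _ := by gcongr
        have hb4 : ((L * (T + 1) + j : ℕ) : ℝ) < ⌊√((j - β) * n)⌋₊ + 1 := by
          push_cast
          nlinarith
        have hb5 : L * (T + 1) + j < ⌊√((j - β) * n)⌋₊ + 1 := by exact_mod_cast hb4
        omega
      have hle : ⌊√((j - β) * n)⌋₊ ≤ n := by
        have : √((j - β) * n) ≤ n := by
          rw [Real.sqrt_le_left hn0.le]
          nlinarith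
        have h7 : (⌊√((j - β) * n)⌋₊ : ℝ) ≤ n := hfl.trans this
        exact_mod_cast h7
      have hR : 2 * √((j - β) * n) * (((L * (T + 1) : ℕ) : ℝ) + j + 1) < (n : ℝ) ^ (1 / 2 + ε) := by
        rw [hUc]
        have e1 := hjsq n hn0.le
        have e2 : (n : ℝ) ^ (1 / 2 + ε) = √n * (n : ℝ) ^ ε := by
          rw [Real.rpow_add hn0, Real.sqrt_eq_rpow]
        have e3 : N ^ ε ≤ (n : ℝ) ^ ε := Real.rpow_le_rpow hN0.le h1 hε.le
        have hsn : 0 < √(n : ℝ) := Real.sqrt_pos.mpr hn0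
        have hU0 : 0 ≤ (L : ℝ) * (T + 1) := by positivity
        rw [e2]
        calc 2 * √((j - β) * n) * ((L : ℝ) * (T + 1) + j + 1)
            ≤ 2 * (j * √n) * ((L : ℝ) * (T + 1) + j + 1) := by gcongr
          _ = √n * (2 * j * ((L : ℝ) * (T + 1) + j + 1)) := by ring
          _ ≤ √n * (J * (N ^ (ε / 3) * (N ^ (ε / 16) + 1) + J)) := by
              apply mul_le_mul_of_nonneg_left _ hsn.le
              apply mul_le_mul _ _ (by positivity) hJ0
              · rw [hJ]; linarith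
              · rw [hJ]; linarith
          _ < √n * N ^ ε := mul_lt_mul_of_pos_left p6 hsn
          _ ≤ _ := mul_le_mul_of_nonneg_left e3 hsn.le
      have h6 := left_inj f s n j (L * (T + 1)) β ((n : ℝ) ^ (1 / 2 + ε)) hβj hβ hn1 hle hUj hR
      exact_mod_cast h6

end Pool.Agent.BrE
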