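import Pool.Agent.BrE.Pars
import Pool.Agent.MR.AExp

set_option autoImplicit false

/-!
# Mean square of the difference of the averages over multiples of `m^q`
-/

open Finset MeasureTheory

namespace Pool.Agent.BrE

open Pool.Agent.MR

/-- the sum over `m` -/
noncomputable def Dm (q a b : ℕ) (t : ℝ) : ℂ := ∑ m ∈ Ico a b, ni m (q * t)

theorem pp_factor (q a b K : ℕ) (F : ℕ → ℂ) (t : ℝ) :
    PP (Ico a b ×ˢ Icc 1 K) (lf q) (fun p => F p.2) t = Dm q a b t * dp (Icc 1 K) F t := by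
  unfold PP Dm dp
  rw [Finset.sum_product, Finset.sum_mul_sum]
  refine Finset.sum_congr rfl fun m _ => Finset.sum_congr rfl fun k _ => ?_
  unfold lf ni
  simp only
  rw [mul_left_comm, ← Complex.exp_add]
  congr 2
  push_cast
  ring

theorem Dm_le (q a b : ℕ) (t : ℝ) : ‖Dm q a b t‖ ≤ b := by
  unfold Dm
  refine (norm_sum_le _ _).trans ?_
  calc ∑ m ∈ Ico a b, ‖ni m (q * t)‖ = ∑ m ∈ Ico a b, (1 : ℝ) := by
        refine Finset.sum_congr rfl fun m _ => ?_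
        rw [norm_ni]
    _ = ((b - a : ℕ) : ℝ) := by simp
    _ ≤ b := by
        have : b - a ≤ b := Nat.sub_le _ _
        exact_mod_cast this

theorem KK_nonneg (a b t : ℝ) : 0 ≤ KK a b t := sq_nonneg _

theorem KK_le (a b t : ℝ) (ha : 0 < a) (hab : a ≤ b) :
    KK a b t ≤ Real.exp (-(a * t) ^ 2 / 2) ^ 2 ∧ KK a b t ≤ ((b * t) ^ 2 / 2) ^ 2 := by
  have h1 : (a * t) ^ 2 ≤ (b * t) ^ 2 := by
    rw [mul_pow, mul_pow]
    have : a ^ 2 ≤ b ^ 2 := pow_le_pow_left₀ ha.le hab 2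
    exact mul_le_mul_of_nonneg_right this (sq_nonneg t)
  have h2 : Real.exp (-(b * t) ^ 2 / 2) ≤ Real.exp (-(a * t) ^ 2 / 2) := by
    apply Real.exp_le_exp.mpr
    linarith
  have h3 : 0 < Real.exp (-(b * t) ^ 2 / 2) := Real.exp_pos _
  have h4 : Real.exp (-(a * t) ^ 2 / 2) ≤ 1 := by
    apply Real.exp_le_one_iff.mpr
    have : 0 ≤ (a * t) ^ 2 := sq_nonneg _
    linarith
  have h5 : 1 - (b * t) ^ 2 / 2 ≤ Real.exp (-(b * t) ^ 2 / 2) := by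
    have := Real.add_one_le_exp (-(b * t) ^ 2 / 2)
    linarith
  unfold KK
  constructor
  · apply pow_le_pow_left₀ (by linarith)
    linarith
  · apply pow_le_pow_left₀ (by linarith)
    linarith

/-- pointwise bound -/
theorem kernel (q : ℕ) (hq : 1 ≤ q) (δ : ℝ) (hδ : 0 < δ) (hδ1 : δ ≤ 1) :
    ∃ η : ℝ, 0 < η ∧ η ≤ 1 / 8 ∧ ∃ X0 : ℝ, 1 ≤ X0 ∧ ∀ X : ℝ, X0 ≤ X → ∀ θ₁ θ₂ : ℝ, 1 / X ≤ θ₁ →
      θ₁ ≤ θ₂ → θ₂ ≤ (X ^ δ) ^ (-(1 / 8) : ℝ) → ∀ a b : ℕ, X ^ δ ≤ a → (b : ℝ) ≤ 4 * X ^ δ →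
      ∀ t : ℝ, ‖Dm q a b t‖ ^ 2 * KK θ₁ θ₂ t ≤
        16 * (X ^ δ) ^ (2 - 2 * η) * Real.exp (-(θ₁ * t) ^ 2 / 2) := by
  obtain ⟨ηw, Xw, hηw, hηw1, hXw, hw⟩ := log_weyl (4 / δ)
  have hqr : (1 : ℝ) ≤ q := by exact_mod_cast hq
  have hq0 : (0 : ℝ) < q := by linarith
  refine ⟨min ηw (1 / 8), by positivity, min_le_right _ _,
    max (Xw ^ (1 / δ)) (2 * q ^ 2), ?_, ?_⟩
  · refine le_trans ?_ (le_max_right _ _)
    nlinarith
  intro X hX θ₁ θ₂ hθ1 hθ12 hθ2 a b ha hb t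
  set η := min ηw (1 / 8) with hη
  have hη0 : 0 < η := by positivity
  have hη8 : η ≤ 1 / 8 := min_le_right _ _
  have hηle : η ≤ ηw := min_le_left _ _
  have hX1 : Xw ^ (1 / δ) ≤ X := (le_max_left _ _).trans hX
  have hX2 : 2 * (q : ℝ) ^ 2 ≤ X := (le_max_right _ _).trans hX
  have hX2' : 2 ≤ X := by nlinarith
  have hX0 : 0 < X := by linarith
  set M := X ^ δ with hM
  have hM1 : Xw ≤ M := by
    have h1 : (Xw ^ (1 / δ)) ^ δ ≤ X ^ δ := Real.rpow_le_rpow (by positivity) hX1 hδ.le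
    rw [← Real.rpow_mul (by linarith), one_div_mul_cancel hδ.ne', Real.rpow_one] at h1
    exact h1
  have hM0 : 0 < M := by linarith
  have hMge1 : 1 ≤ M := hXw.trans hM1
  have hMX : M ≤ X := by
    rw [hM]
    calc X ^ δ ≤ X ^ (1 : ℝ) := Real.rpow_le_rpow_of_exponent_le (by linarith) hδ1
      _ = X := Real.rpow_one _
  have hθ10 : 0 < θ₁ := lt_of_lt_of_le (by positivity) hθ1
  obtain ⟨hK1, hK2⟩ := KK_le θ₁ θ₂ t hθ10 hθ12
  have hE0 := Real.exp_pos (-(θ₁ * t) ^ 2 / 2)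
  have hE1 : Real.exp (-(θ₁ * t) ^ 2 / 2) ≤ 1 := by
    apply Real.exp_le_one_iff.mpr
    have : 0 ≤ (θ₁ * t) ^ 2 := sq_nonneg _
    linarith
  have hDb : ‖Dm q a b t‖ ≤ 4 * M := (Dm_le q a b t).trans hb
  have hD0 := norm_nonneg (Dm q a b t)
  have hD2 : ‖Dm q a b t‖ ^ 2 ≤ 16 * M ^ 2 := by nlinarith
  have hMpow : M ^ (2 - 2 * η) = M ^ 2 * M ^ (-(2 * η)) := by
    rw [← Real.rpow_natCast M 2, ← Real.rpow_add hM0]
    congr 1
  have hKnn := KK_nonneg θ₁ θ₂ t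
  rcases le_or_gt |(q : ℝ) * t| (M ^ (1 / 16 : ℝ)) with hc | hc
  · -- small t
    have ht : |t| ≤ M ^ (1 / 16 : ℝ) := by
      refine le_trans ?_ hc
      rw [abs_mul, abs_of_pos hq0]
      nlinarith [abs_nonneg t]
    have hB : (θ₂ * t) ^ 2 ≤ M ^ (-(1 / 8) : ℝ) := by
      have h1 : |θ₂ * t| ≤ M ^ (-(1 / 8) : ℝ) * M ^ (1 / 16 : ℝ) := by
        rw [abs_mul, abs_of_pos (lt_of_lt_of_le hθ10 hθ12)]
        apply mul_le_mul hθ2 ht (abs_nonneg _) (by positivity)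
      have h2 : (θ₂ * t) ^ 2 = |θ₂ * t| ^ 2 := (sq_abs _).symm
      rw [h2]
      refine (pow_le_pow_left₀ (abs_nonneg _) h1 2).trans (le_of_eq ?_)
      rw [← Real.rpow_add hM0, ← Real.rpow_natCast, ← Real.rpow_mul hM0.le]
      norm_num
    have hBle1 : M ^ (-(1 / 8) : ℝ) ≤ 1 := Real.rpow_le_one_of_one_le_of_nonpos hMge1 (by norm_num)
    have hKs : KK θ₁ θ₂ t ≤ M ^ (-(1 / 4) : ℝ) / 4 := by
      refine hK2.trans ?_
      have h1 : ((θ₂ * t) ^ 2 / 2) ^ 2 ≤ (M ^ (-(1 / 8) : ℝ) / 2) ^ 2 := by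
        apply pow_le_pow_left₀ (by positivity)
        linarith
      refine h1.trans (le_of_eq ?_)
      rw [div_pow, ← Real.rpow_natCast (M ^ (-(1 / 8) : ℝ)) 2, ← Real.rpow_mul hM0.le]
      norm_num
    have hEs : 1 / 2 ≤ Real.exp (-(θ₁ * t) ^ 2 / 2) := by
      have h1 : (θ₁ * t) ^ 2 ≤ (θ₂ * t) ^ 2 := by
        rw [mul_pow, mul_pow]
        have : θ₁ ^ 2 ≤ θ₂ ^ 2 := pow_le_pow_left₀ hθ10.le hθ12 2
        exact mul_le_mul_of_nonneg_right this (sq_nonneg t)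
      have := Real.add_one_le_exp (-(θ₁ * t) ^ 2 / 2)
      linarith
    have hM4 : M ^ (-(1 / 4) : ℝ) ≤ M ^ (-(2 * η)) := by
      apply Real.rpow_le_rpow_of_exponent_le hMge1
      linarith
    have hp0 : 0 < M ^ (-(2 * η)) := by positivity
    calc ‖Dm q a b t‖ ^ 2 * KK θ₁ θ₂ t ≤ (16 * M ^ 2) * (M ^ (-(2 * η)) / 4) := by
          apply mul_le_mul hD2 _ hKnn (by positivity)
          linarith
      _ ≤ 16 * (M ^ 2 * M ^ (-(2 * η))) * (1 / 2) := by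
          have : 0 < M ^ 2 * M ^ (-(2 * η)) := by positivity
          nlinarith
      _ ≤ 16 * (M ^ 2 * M ^ (-(2 * η))) * Real.exp (-(θ₁ * t) ^ 2 / 2) := by
          apply mul_le_mul_of_nonneg_left hEs (by positivity)
      _ = _ := by rw [hMpow]
  · rcases le_or_gt |(q : ℝ) * t| (M ^ (4 / δ)) with hc2 | hc2
    · -- Weyl range
      have h1 := hw M hM1 0 le_rfl (by norm_num) (-(q * t)) (by rw [abs_neg]; exact hc.le)
        (by rw [abs_neg]; exact hc2) a b ha hb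
      have h2 : ∑ n ∈ Ico a b, Complex.exp ((-(q * t) * Real.log (n + 0) : ℝ) * Complex.I)
          = Dm q a b t := by
        unfold Dm ni
        refine Finset.sum_congr rfl fun n _ => ?_
        congr 1
        rw [add_zero]
        push_cast
        ring
      rw [h2] at h1
      have h3 : ‖Dm q a b t‖ ^ 2 ≤ M ^ (2 - 2 * η) := by
        calc ‖Dm q a b t‖ ^ 2 ≤ (M ^ (1 - ηw)) ^ 2 := pow_le_pow_left₀ hD0 h1 2
          _ = M ^ (2 - 2 * ηw) := by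
              rw [← Real.rpow_natCast, ← Real.rpow_mul hM0.le]
              congr 1
              push_cast
              ring
          _ ≤ _ := by
              apply Real.rpow_le_rpow_of_exponent_le hMge1
              linarith
      have h4 : KK θ₁ θ₂ t ≤ Real.exp (-(θ₁ * t) ^ 2 / 2) := by
        refine hK1.trans ?_
        nlinarith
      have h5 : 0 < M ^ (2 - 2 * η) := by positivity
      calc ‖Dm q a b t‖ ^ 2 * KK θ₁ θ₂ t ≤ M ^ (2 - 2 * η) * Real.exp (-(θ₁ * t) ^ 2 / 2) :=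
            mul_le_mul h3 h4 hKnn h5.le
        _ ≤ _ := by
            apply mul_le_mul_of_nonneg_right _ hE0.le
            linarith
    · -- tail
      have h1 : X ^ (4 : ℕ) < |(q : ℝ) * t| := by
        have e1 : M ^ (4 / δ) = X ^ (4 : ℕ) := by
          rw [hM, ← Real.rpow_mul hX0.le, ← Real.rpow_natCast]
          congr 1
          field_simp
          norm_num
        rw [e1] at hc2
        exact hc2
      have h2 : X ≤ (θ₁ * t) ^ 2 / 2 := by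
        have h3 : X ^ 3 ≤ q * |θ₁ * t| := by
          rw [abs_mul, abs_of_pos hq0] at h1
          rw [abs_mul, abs_of_pos hθ10]
          have h4 : 1 ≤ X * θ₁ := by
            rw [div_le_iff₀ hX0] at hθ1
            linarith
          have h5 : 0 ≤ (q : ℝ) * |t| := by positivity
          have h6 : X ^ 4 * 1 ≤ (q * |t|) * (X * θ₁) := by
            apply mul_le_mul h1.le h4 (by norm_num) h5
          have h7 : X * X ^ 3 ≤ X * (q * (θ₁ * |t|)) := by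
            calc X * X ^ 3 = X ^ 4 * 1 := by ring
              _ ≤ _ := h6
              _ = _ := by ring
          exact le_of_mul_le_mul_left h7 hX0
        have h4 : X ^ 6 ≤ q ^ 2 * (θ₁ * t) ^ 2 := by
          have h5 : (X ^ 3) ^ 2 ≤ (q * |θ₁ * t|) ^ 2 := pow_le_pow_left₀ (by positivity) h3 2
          rw [mul_pow, sq_abs] at h5
          calc X ^ 6 = (X ^ 3) ^ 2 := by ring
            _ ≤ _ := h5
        -- X^6 >= 2 q^2 X
        have h5 : 2 * (q : ℝ) ^ 2 * X ≤ X ^ 6 := by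
          have h6 : (1 : ℝ) ≤ X ^ 4 := one_le_pow₀ (by linarith)
          calc 2 * (q : ℝ) ^ 2 * X ≤ X * X := by gcongr
            _ ≤ X * X * X ^ 4 := by
                have : 0 ≤ X * X := by positivity
                nlinarith
            _ = X ^ 6 := by ring
        have h6 : (q : ℝ) ^ 2 * (2 * X) ≤ q ^ 2 * (θ₁ * t) ^ 2 := by linarith
        have h7 : 2 * X ≤ (θ₁ * t) ^ 2 := le_of_mul_le_mul_left h6 (by positivity)
        linarith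
      have h3 : Real.exp (-(θ₁ * t) ^ 2 / 2) ≤ M ^ (-(2 * η)) := by
        have h4 : Real.exp (-(θ₁ * t) ^ 2 / 2) ≤ Real.exp (-X) := by
          apply Real.exp_le_exp.mpr
          linarith
        have h5 : Real.exp (-X) ≤ X⁻¹ := by
          rw [Real.exp_neg]
          apply inv_anti₀ hX0
          linarith [Real.add_one_le_exp X]
        have h6 : X⁻¹ ≤ M⁻¹ := inv_anti₀ hM0 hMX
        have h7 : M⁻¹ ≤ M ^ (-(2 * η)) := by
          rw [← Real.rpow_neg_one]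
          apply Real.rpow_le_rpow_of_exponent_le hMge1
          linarith
        exact h4.trans (h5.trans (h6.trans h7))
      calc ‖Dm q a b t‖ ^ 2 * KK θ₁ θ₂ t ≤ (16 * M ^ 2) * Real.exp (-(θ₁ * t) ^ 2 / 2) ^ 2 :=
            mul_le_mul hD2 hK1 hKnn (by positivity)
        _ = (16 * M ^ 2) * Real.exp (-(θ₁ * t) ^ 2 / 2) * Real.exp (-(θ₁ * t) ^ 2 / 2) := by ring
        _ ≤ (16 * M ^ 2) * M ^ (-(2 * η)) * Real.exp (-(θ₁ * t) ^ 2 / 2) := by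
            apply mul_le_mul_of_nonneg_right _ hE0.le
            apply mul_le_mul_of_nonneg_left h3 (by positivity)
        _ = _ := by rw [hMpow]; ring

/-- the spectral bound -/
theorem spec (q : ℕ) (hq : 1 ≤ q) (δ : ℝ) (hδ : 0 < δ) (hδ1 : δ ≤ 1) :
    ∃ η : ℝ, 0 < η ∧ η ≤ 1 / 8 ∧ ∃ X0 : ℝ, 1 ≤ X0 ∧ ∀ X : ℝ, X0 ≤ X → ∀ θ₁ θ₂ : ℝ, 1 / X ≤ θ₁ →
      θ₁ ≤ θ₂ → θ₂ ≤ (X ^ δ) ^ (-(1 / 8) : ℝ) → ∀ a b : ℕ, X ^ δ ≤ a → (b : ℝ) ≤ 4 * X ^ δ →
      ∀ (K : ℕ) (F : ℕ → ℂ), (∀ k, ‖F k‖ ≤ 1) →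
      Integrable (fun u : ℝ => ‖DD (Ico a b ×ˢ Icc 1 K) (lf q) (fun p => F p.2) θ₁ θ₂ u‖ ^ 2) ∧
      ∫ u : ℝ, ‖DD (Ico a b ×ˢ Icc 1 K) (lf q) (fun p => F p.2) θ₁ θ₂ u‖ ^ 2 ≤
        320 * (X ^ δ) ^ (2 - 2 * η) * (1 / θ₁ + K) * K := by
  obtain ⟨η, hη, hη8, X0, hX0, hk⟩ := kernel q hq δ hδ hδ1
  refine ⟨η, hη, hη8, X0, hX0, ?_⟩
  intro X hX θ₁ θ₂ h1 h12 h2 a b ha hb K F hF
  have hXp : 0 < X := by linarith
  have hθ1 : 0 < θ₁ := lt_of_lt_of_le (by positivity) h1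
  have hθ2 : 0 < θ₂ := lt_of_lt_of_le hθ1 h12
  obtain ⟨i1, i2, heq⟩ := pars (Ico a b ×ˢ Icc 1 K) (lf q) (fun p => F p.2) θ₁ θ₂ hθ1 hθ2
  refine ⟨i1, ?_⟩
  rw [heq]
  set T : ℝ := √2 / θ₁ with hT
  have hT0 : 0 < T := by positivity
  have hgw : ∀ t : ℝ, gw T t = Real.exp (-(θ₁ * t) ^ 2 / 2) := by
    intro t
    unfold gw
    congr 1
    rw [hT]
    have h3 : √(2 : ℝ) ^ 2 = 2 := Real.sq_sqrt (by norm_num)
    rw [div_div_eq_mul_div, div_pow, mul_pow, mul_pow, h3]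
    ring
  have hmono : ∫ t : ℝ, ‖PP (Ico a b ×ˢ Icc 1 K) (lf q) (fun p => F p.2) t‖ ^ 2 * KK θ₁ θ₂ t ≤
      ∫ t : ℝ, 16 * (X ^ δ) ^ (2 - 2 * η) * (‖dp (Icc 1 K) F t‖ ^ 2 * gw T t) := by
    apply integral_mono i2 ((integrable_dp (Icc 1 K) F T hT0).const_mul _)
    intro t
    simp only
    rw [pp_factor, norm_mul, mul_pow, hgw]
    have h3 := hk X hX θ₁ θ₂ h1 h12 h2 a b ha hb t
    have h4 : 0 ≤ ‖dp (Icc 1 K) F t‖ ^ 2 := sq_nonneg _
    calc ‖Dm q a b t‖ ^ 2 * ‖dp (Icc 1 K) F t‖ ^ 2 * KK θ₁ θ₂ t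
        = ‖dp (Icc 1 K) F t‖ ^ 2 * (‖Dm q a b t‖ ^ 2 * KK θ₁ θ₂ t) := by ring
      _ ≤ ‖dp (Icc 1 K) F t‖ ^ 2 *
          (16 * (X ^ δ) ^ (2 - 2 * η) * Real.exp (-(θ₁ * t) ^ 2 / 2)) :=
          mul_le_mul_of_nonneg_left h3 h4
      _ = _ := by ring
  refine hmono.trans ?_
  rw [integral_const_mul]
  have h3 := mvt T hT0 K F
  have h4 : ∑ n ∈ Icc 1 K, ‖F n‖ ^ 2 ≤ K := by
    calc ∑ n ∈ Icc 1 K, ‖F n‖ ^ 2 ≤ ∑ n ∈ Icc 1 K, (1 : ℝ) := by
          apply Finset.sum_le_sum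
          intro n _
          have := hF n
          have h5 := norm_nonneg (F n)
          nlinarith
      _ = K := by simp
  have h5 : T ≤ 2 * (1 / θ₁) := by
    have h6 : √(2 : ℝ) ≤ 2 := by
      rw [Real.sqrt_le_left (by norm_num)]
      norm_num
    rw [hT, mul_one_div]
    exact div_le_div_of_nonneg_right h6 hθ1.le
  have hK0 : (0 : ℝ) ≤ K := Nat.cast_nonneg K
  have hi0 : 0 < 1 / θ₁ := by positivity
  have h6 : 10 * (T + K) * ∑ n ∈ Icc 1 K, ‖F n‖ ^ 2 ≤ 20 * (1 / θ₁ + K) * K := by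
    apply mul_le_mul _ h4 (Finset.sum_nonneg fun n _ => by positivity) (by positivity)
    linarith
  have h7 : 0 ≤ 16 * (X ^ δ) ^ (2 - 2 * η) := by positivity
  calc 16 * (X ^ δ) ^ (2 - 2 * η) * ∫ t, ‖dp (Icc 1 K) F t‖ ^ 2 * gw T t
      ≤ 16 * (X ^ δ) ^ (2 - 2 * η) * (20 * (1 / θ₁ + K) * K) :=
        mul_le_mul_of_nonneg_left (h3.trans h6) h7
    _ = _ := by ring

end Pool.Agent.BrE
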