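import Pool.Agent.BrE.Spec
import Pool.Agent.BrE.Low
import Pool.Agent.BrE.Ev

set_option autoImplicit false

/-!
# Power-saving exceptional set for sets invariant under multiplication by `q`-th powers
-/

open Finset MeasureTheory

namespace Pool.Agent.BrE

open Pool.Agent.MR

/-- disjoint short intervals on the logarithmic scale carry the square integral -/
theorem collect (g : ℝ → ℝ) (hg : Integrable g) (hg0 : ∀ u, 0 ≤ g u) (S : Finset ℕ) (h : ℕ)
    (X L : ℝ) (hL : 0 ≤ L) (hS : ∀ y ∈ S, 1 ≤ y ∧ (y : ℝ) + h + 1 ≤ 8 * X)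
    (hlow : ∀ y ∈ S, ∀ u : ℝ, Real.log (y + h) ≤ u → u ≤ Real.log (y + h + 1) → L ≤ g u) :
    S.card * (L / (8 * X)) ≤ ∫ u, g u := by
  classical
  set I : ℕ → Set ℝ := fun y => Set.Ioc (Real.log (y + h)) (Real.log (y + h + 1)) with hI
  have hdisj : Set.PairwiseDisjoint (↑S : Set ℕ) I := by
    intro x hx y hy hxy
    have key : ∀ x ∈ S, ∀ y ∈ S, x < y → Disjoint (I x) (I y) := by
      intro x hx y hy hlt
      rw [Set.disjoint_left]
      intro u hu1 hu2
      simp only [hI, Set.mem_Ioc] at hu1 hu2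
      have h1 : (x : ℝ) + h + 1 ≤ y + h := by
        have : (x : ℝ) + 1 ≤ y := by exact_mod_cast hlt
        linarith
      have h2 : Real.log (x + h + 1) ≤ Real.log (y + h) :=
        Real.log_le_log (by positivity) h1
      linarith [hu1.2, hu2.1]
    rcases lt_or_gt_of_ne hxy with hlt | hlt
    · exact key x hx y hy hlt
    · exact (key y hy x hx hlt).symm
  have h1 : ∫ u in ⋃ y ∈ S, I y, g u = ∑ y ∈ S, ∫ u in I y, g u :=
    integral_biUnion_finset S (fun _ _ => measurableSet_Ioc) hdisj (fun _ _ => hg.integrableOn)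
  have h2 : ∫ u in ⋃ y ∈ S, I y, g u ≤ ∫ u, g u :=
    setIntegral_le_integral hg (Filter.Eventually.of_forall hg0)
  rw [h1] at h2
  refine le_trans ?_ h2
  rw [← nsmul_eq_mul, ← Finset.sum_const]
  apply Finset.sum_le_sum
  intro y hy
  obtain ⟨hy1, hy2⟩ := hS y hy
  have hy1r : (1 : ℝ) ≤ y := by exact_mod_cast hy1
  have hh0 : (0 : ℝ) ≤ h := Nat.cast_nonneg h
  have hle : Real.log ((y : ℝ) + h) ≤ Real.log ((y : ℝ) + h + 1) :=
    Real.log_le_log (by linarith) (by linarith)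
  have hlen : 1 / (8 * X) ≤ Real.log ((y : ℝ) + h + 1) - Real.log ((y : ℝ) + h) := by
    rw [← Real.log_div (by positivity) (by positivity)]
    have h3 := Real.one_sub_inv_le_log_of_pos
      (show 0 < ((y : ℝ) + h + 1) / ((y : ℝ) + h) by positivity)
    have h4 : 1 - (((y : ℝ) + h + 1) / ((y : ℝ) + h))⁻¹ = 1 / ((y : ℝ) + h + 1) := by
      rw [inv_div]
      have : (y : ℝ) + h + 1 ≠ 0 := by positivity
      field_simp
      ring
    rw [h4] at h3
    have h5 : 1 / (8 * X) ≤ 1 / ((y : ℝ) + h + 1) :=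
      one_div_le_one_div_of_le (by positivity) hy2
    linarith
  have h6 : ∫ u in I y, L ≤ ∫ u in I y, g u := by
    apply setIntegral_mono_on
    · exact integrableOn_const (by rw [hI, Real.volume_Ioc]; exact ENNReal.ofReal_ne_top)
    · exact hg.integrableOn
    · exact measurableSet_Ioc
    · intro u hu
      exact hlow y hy u hu.1.le hu.2
  refine le_trans ?_ h6
  rw [setIntegral_const, Measure.real, hI, Real.volume_Ioc, smul_eq_mul,
    ENNReal.toReal_ofReal (by linarith)]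
  calc L / (8 * X) = 1 / (8 * X) * L := by ring
    _ ≤ _ := mul_le_mul_of_nonneg_right hlen hL

/-- distance from the middle of the window -/
theorem far (X : ℝ) (H h y n : ℕ) (u r : ℝ) (hr : 0 < r) (hy1 : 1 ≤ y) (hn : 1 ≤ n)
    (hy2 : (y : ℝ) + H ≤ 4 * X) (hh1 : r ≤ h) (hh2 : r ≤ (H : ℝ) - h - 1)
    (hu1 : Real.log (y + h) ≤ u) (hu2 : u ≤ Real.log (y + h + 1))
    (hnI : n ∉ Ico y (y + H)) : r / (4 * X) ≤ |u - Real.log n| := by
  have hy1r : (1 : ℝ) ≤ y := by exact_mod_cast hy1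
  have hn1r : (1 : ℝ) ≤ n := by exact_mod_cast hn
  have hh0 : (0 : ℝ) ≤ h := Nat.cast_nonneg h
  rw [mem_Ico, not_and_or, not_le, not_lt] at hnI
  rcases hnI with hlt | hge
  · have hlt' : (n : ℝ) ≤ y := by exact_mod_cast hlt.le
    refine le_trans ?_ (le_abs_self _)
    have h1 : Real.log n ≤ Real.log y := Real.log_le_log (by linarith) hlt'
    have h2 : r / (4 * X) ≤ Real.log (y + h) - Real.log y := by
      rw [← Real.log_div (by positivity) (by positivity)]
      have h3 := Real.one_sub_inv_le_log_of_pos (show 0 < ((y : ℝ) + h) / y by positivity)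
      have h4 : 1 - (((y : ℝ) + h) / y)⁻¹ = h / ((y : ℝ) + h) := by
        rw [inv_div]
        have : (y : ℝ) + h ≠ 0 := by positivity
        field_simp
        ring
      rw [h4] at h3
      have h5 : r / (4 * X) ≤ h / ((y : ℝ) + h) := by
        apply div_le_div₀ hh0 hh1 (by positivity)
        linarith
      linarith
    linarith
  · have hge' : (y : ℝ) + H ≤ n := by exact_mod_cast hge
    rw [abs_sub_comm]
    refine le_trans ?_ (le_abs_self _)
    have h1 : Real.log ((y : ℝ) + H) ≤ Real.log n := Real.log_le_log (by positivity) hge'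
    have h2 : r / (4 * X) ≤ Real.log ((y : ℝ) + H) - Real.log (y + h + 1) := by
      have hpos : 0 < (y : ℝ) + h + 1 := by positivity
      have hpos2 : 0 < (y : ℝ) + H := by linarith
      rw [← Real.log_div hpos2.ne' hpos.ne']
      have h3 := Real.one_sub_inv_le_log_of_pos
        (show 0 < ((y : ℝ) + H) / ((y : ℝ) + h + 1) by positivity)
      have h4 : 1 - (((y : ℝ) + H) / ((y : ℝ) + h + 1))⁻¹ = ((H : ℝ) - h - 1) / ((y : ℝ) + H) := by
        rw [inv_div]
        field_simp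
        ring
      rw [h4] at h3
      have h5 : r / (4 * X) ≤ ((H : ℝ) - h - 1) / ((y : ℝ) + H) := by
        apply div_le_div₀ (by linarith) hh2 (by positivity) hy2
      linarith
    linarith

/-- pointwise lower bound -/
theorem point (q : ℕ) (hq : 1 ≤ q) (ε κ X : ℝ) (hε : 0 < ε) (hε1 : ε ≤ 1 / 4) (hκ : 0 < κ)
    (hκ1 : κ ≤ 1 / 8) (M : ℝ) (hX4 : 256 ≤ X) (hM2 : 8 ≤ M) (hXε : 100 ≤ X ^ ε)
    (hMq : (4 * M) ^ q ≤ X ^ (1 / 2 : ℝ))
    (hexp : 32 * X ^ 3 * Real.exp (-X ^ ε / 288) ≤ 1 / 2)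
    (B : ℕ → Prop) (hinv : ∀ m k : ℕ, 0 < m → 0 < k → (B (m ^ q * k) ↔ B k))
    (hdens : ∀ x : ℝ, X ^ (1 / 2 : ℝ) ≤ x → x ^ (1 / 2 - κ) ≤
      Set.ncard {k : ℕ | x < k ∧ (k : ℝ) ≤ x + 4 * √x ∧ B k})
    (y : ℕ) (hy1 : X ≤ y) (hy2 : (y : ℝ) ≤ 2 * X)
    (hfree : ∀ n ∈ Ico y (y + ⌈X ^ ε⌉₊), ¬ B n) (u : ℝ)
    (hu1 : Real.log (y + (⌈X ^ ε⌉₊ / 2 : ℕ)) ≤ u)
    (hu2 : u ≤ Real.log (y + (⌈X ^ ε⌉₊ / 2 : ℕ) + 1)) :
    ((1 / 8) * M * (X / (4 * M) ^ q) * X ^ (-(2 * κ))) / 2 ≤
      ‖DD (Ico ⌈M⌉₊ (2 * ⌈M⌉₊) ×ˢ Icc 1 ⌊16 * X / M ^ q⌋₊) (lf q)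
        (fun p => ((ind B p.2 : ℝ) : ℂ)) (X ^ (ε / 2 - 1)) (4 * √((4 * M) ^ q / X)) u‖ := by
  have hX0 : 0 < X := by linarith
  have hX1' : 1 ≤ X := by linarith
  have hM0 : 0 < M := by linarith
  have hM1 : 1 ≤ M := by linarith
  set a := ⌈M⌉₊ with ha
  set K := ⌊16 * X / M ^ q⌋₊ with hK
  set H := ⌈X ^ ε⌉₊ with hH
  set h := H / 2 with hh
  set θ₁ := X ^ (ε / 2 - 1) with hθ1
  set θ := √((4 * M) ^ q / X) with hθ
  have hXh : X ^ (1 / 2 : ℝ) * X ^ (1 / 2 : ℝ) = X := by
    rw [← Real.rpow_add hX0]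
    norm_num
  have hXh0 : 0 < X ^ (1 / 2 : ℝ) := by positivity
  have hXh2 : 16 ≤ X ^ (1 / 2 : ℝ) := by
    by_contra hcon
    rw [not_le] at hcon
    nlinarith
  have hXhX : X ^ (1 / 2 : ℝ) ≤ X := by nlinarith
  -- a
  have ha1 : M ≤ a := Nat.le_ceil _
  have ha2 : (a : ℝ) ≤ 2 * M := by
    have := Nat.ceil_lt_add_one hM0.le
    rw [← ha] at this
    linarith
  -- powers of M
  have hMq1 : 1 ≤ M ^ q := one_le_pow₀ hM1
  have hMM : M ≤ M ^ q := by
    calc M = M ^ 1 := (pow_one M).symm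
      _ ≤ M ^ q := pow_le_pow_right₀ hM1 hq
  have h4M0 : 0 < (4 * M) ^ q := by positivity
  have hMq4 : M ^ q ≤ (4 * M) ^ q := pow_le_pow_left₀ hM0.le (by linarith) q
  have hMqX : M ^ q ≤ X := hMq4.trans (hMq.trans hXhX)
  -- H
  have hH1 : X ^ ε ≤ H := Nat.le_ceil _
  have hH2 : (H : ℝ) < X ^ ε + 1 := Nat.ceil_lt_add_one (by positivity)
  have hXεX : X ^ ε ≤ X := by
    calc X ^ ε ≤ X ^ (1 : ℝ) := Real.rpow_le_rpow_of_exponent_le hX1' (by linarith)
      _ = X := Real.rpow_one X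
  have hh1 : (h : ℝ) ≤ H / 2 := by
    rw [hh]
    exact Nat.cast_div_le
  have hh2 : ((H : ℝ) - 1) / 2 ≤ h := by
    have h1 : H ≤ 2 * h + 1 := by omega
    have h2 : (H : ℝ) ≤ 2 * h + 1 := by exact_mod_cast h1
    linarith
  have hyH : (y : ℝ) + H ≤ 4 * X := by linarith
  have hy0 : (0 : ℝ) < y := by linarith
  have hyn : 1 ≤ y := by
    have : 0 < y := by exact_mod_cast hy0
    omega
  -- exp u
  have hh0 : (0 : ℝ) ≤ h := Nat.cast_nonneg h
  have hE1 : X ≤ Real.exp u := by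
    have h1 : Real.log X ≤ u := by
      refine le_trans ?_ hu1
      apply Real.log_le_log hX0
      linarith
    calc X = Real.exp (Real.log X) := (Real.exp_log hX0).symm
      _ ≤ Real.exp u := Real.exp_le_exp.mpr h1
  have hE2 : Real.exp u ≤ 4 * X := by
    have h1 : u ≤ Real.log (4 * X) := by
      refine hu2.trans ?_
      apply Real.log_le_log (by positivity)
      linarith
    calc Real.exp u ≤ Real.exp (Real.log (4 * X)) := Real.exp_le_exp.mpr h1
      _ = 4 * X := Real.exp_log (by positivity)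
  -- theta
  have hθ10 : 0 < θ₁ := by positivity
  have hθ0 : 0 < θ := Real.sqrt_pos.mpr (by positivity)
  have hθsq : θ ^ 2 = (4 * M) ^ q / X := Real.sq_sqrt (by positivity)
  have hXκ : 0 < X ^ (-(2 * κ)) := by positivity
  set D : ℝ := (1 / θ) * X ^ (-(2 * κ)) with hD
  have hD0 : 0 < D := by positivity
  -- the long average
  have hlong : (1 / 8) * M * (X / (4 * M) ^ q) * X ^ (-(2 * κ)) ≤
      ∑ p ∈ Ico a (2 * a) ×ˢ Icc 1 K, ind B p.2 * gg (4 * θ) (u - lf q p) := by
    rw [Finset.sum_product]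
    have hone : ∀ m ∈ Ico a (2 * a), D * ((1 / (4 * θ)) * Real.exp (-1 / 2)) ≤
        ∑ k ∈ Icc 1 K, ind B (m, k).2 * gg (4 * θ) (u - lf q (m, k)) := by
      intro m hm
      rw [mem_Ico] at hm
      have hm1 : M ≤ m := ha1.trans (by exact_mod_cast hm.1)
      have hm2 : (m : ℝ) ≤ 4 * M := by
        have : (m : ℝ) ≤ 2 * a := by exact_mod_cast hm.2.le
        linarith
      have hm0 : (0 : ℝ) < m := by linarith
      have hmn : 0 < m := by exact_mod_cast hm0
      have hmq0 : 0 < (m : ℝ) ^ q := by positivity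
      have hmq1 : (m : ℝ) ^ q ≤ (4 * M) ^ q := pow_le_pow_left₀ hm0.le hm2 q
      have hmq2 : M ^ q ≤ (m : ℝ) ^ q := pow_le_pow_left₀ hM0.le hm1 q
      set Y : ℝ := Real.exp u / (m : ℝ) ^ q with hY
      have hYlow : X / (4 * M) ^ q ≤ Y := by
        apply div_le_div₀ (Real.exp_pos _).le hE1 hmq0 hmq1
      have hYh : X ^ (1 / 2 : ℝ) ≤ Y := by
        refine le_trans ?_ hYlow
        rw [le_div_iff₀ h4M0]
        calc X ^ (1 / 2 : ℝ) * (4 * M) ^ q ≤ X ^ (1 / 2 : ℝ) * X ^ (1 / 2 : ℝ) := by gcongr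
          _ = X := hXh
      have hYup : Y ≤ 4 * X / M ^ q := div_le_div₀ (by positivity) hE2 (by positivity) hmq2
      have hY4X : Y ≤ 4 * X := by
        refine hYup.trans ?_
        exact div_le_self (by positivity) hMq1
      have hY0 : 0 < Y := by linarith
      have hsY : 1 / θ ≤ √Y := by
        apply Real.le_sqrt_of_sq_le
        rw [div_pow, one_pow, hθsq, one_div_div]
        exact hYlow
      have hsY0 : 0 < √Y := Real.sqrt_pos.mpr hY0
      apply long_one q K m B (4 * θ) u Y D (by positivity) hmn rfl (by linarith) ?_ ?_ ?_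
      · have h1 : 16 * X / M ^ q < K + 1 := Nat.lt_floor_add_one _
        have h2 : 2 * (4 * X / M ^ q) + 1 ≤ 16 * X / M ^ q := by
          have h3 : 1 ≤ X / M ^ q := by
            rw [le_div_iff₀ (by positivity)]
            linarith
          have e1 : 2 * (4 * X / M ^ q) = 8 * (X / M ^ q) := by ring
          have e2 : 16 * X / M ^ q = 16 * (X / M ^ q) := by ring
          rw [e1, e2]
          linarith
        linarith
      · rw [div_le_iff₀ hsY0]
        rw [div_le_iff₀ hθ0] at hsY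
        linarith
      · refine le_trans ?_ (hdens Y hYh)
        have e1 : Y ^ (1 / 2 - κ) = √Y * Y ^ (-κ) := by
          rw [Real.sqrt_eq_rpow, ← Real.rpow_add hY0]
          congr 1
        rw [e1, hD]
        apply mul_le_mul hsY _ hXκ.le hsY0.le
        have h1 : Y ≤ X ^ 2 := by nlinarith
        have h2 : (X ^ 2) ^ (-κ) ≤ Y ^ (-κ) :=
          Real.rpow_le_rpow_of_nonpos hY0 h1 (by linarith)
        refine le_trans (le_of_eq ?_) h2
        rw [← Real.rpow_natCast X 2, ← Real.rpow_mul hX0.le]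
        congr 1
        push_cast
        ring
    refine le_trans ?_ (Finset.sum_le_sum hone)
    rw [Finset.sum_const, Nat.card_Ico, nsmul_eq_mul]
    have hcard : ((2 * a - a : ℕ) : ℝ) = a := by
      rw [show 2 * a - a = a by omega]
    rw [hcard]
    have hexp2 : (1 : ℝ) / 2 ≤ Real.exp (-1 / 2) := by
      have := Real.add_one_le_exp (-1 / 2 : ℝ)
      linarith
    have e1 : (1 : ℝ) / 8 * M * (X / (4 * M) ^ q) * X ^ (-(2 * κ)) =
        M * (D * ((1 / (4 * θ)) * (1 / 2))) := by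
      have h2 : X / (4 * M) ^ q = 1 / θ ^ 2 := by
        rw [hθsq, one_div_div]
      rw [h2, hD]
      field_simp
      norm_num
    rw [e1]
    apply mul_le_mul ha1 _ (by positivity) (by positivity)
    apply mul_le_mul_of_nonneg_left _ hD0.le
    exact mul_le_mul_of_nonneg_left hexp2 (by positivity)
  -- LB is large
  have hLB : 1 ≤ (1 / 8) * M * (X / (4 * M) ^ q) * X ^ (-(2 * κ)) := by
    have h1 : X ^ (1 / 2 : ℝ) ≤ X / (4 * M) ^ q := by
      rw [le_div_iff₀ h4M0]
      calc X ^ (1 / 2 : ℝ) * (4 * M) ^ q ≤ X ^ (1 / 2 : ℝ) * X ^ (1 / 2 : ℝ) := by gcongr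
        _ = X := hXh
    have h2 : X ^ (-(1 / 2) : ℝ) ≤ X ^ (-(2 * κ)) :=
      Real.rpow_le_rpow_of_exponent_le hX1' (by linarith)
    have h3 : X ^ (1 / 2 : ℝ) * X ^ (-(1 / 2) : ℝ) = 1 := by
      rw [← Real.rpow_add hX0]
      norm_num
    have h4 : (1 : ℝ) ≤ 1 / 8 * M := by linarith
    have h5 : 0 < X ^ (-(1 / 2) : ℝ) := by positivity
    calc (1 : ℝ) = 1 * (X ^ (1 / 2 : ℝ) * X ^ (-(1 / 2) : ℝ)) := by rw [h3, one_mul]
      _ ≤ (1 / 8 * M) * ((X / (4 * M) ^ q) * X ^ (-(2 * κ))) := by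
          apply mul_le_mul h4 _ (by positivity) (by linarith)
          exact mul_le_mul h1 h2 h5.le (by positivity)
      _ = _ := by ring
  -- the short average
  have hshort : ∑ p ∈ Ico a (2 * a) ×ˢ Icc 1 K, ind B p.2 * gg θ₁ (u - lf q p) ≤ 1 / 2 := by
    have hfar : ∀ p ∈ Ico a (2 * a) ×ˢ Icc 1 K, ind B p.2 ≠ 0 →
        (X ^ ε / 3) / (4 * X) ≤ |u - lf q p| := by
      rintro ⟨m, k⟩ hp hne
      rw [mem_product, mem_Ico, mem_Icc] at hp
      obtain ⟨⟨hm1, hm2⟩, hk1, hk2⟩ := hp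
      simp only at hm1 hm2 hk1 hk2 hne
      have hBk : B k := by
        by_contra hcon
        exact hne (ind_neg B k hcon)
      have hm0 : 0 < m := by omega
      have hk0 : 0 < k := by omega
      have hBn : B (m ^ q * k) := (hinv m k hm0 hk0).mpr hBk
      have hn0 : 0 < m ^ q * k := by positivity
      have hlog : lf q (m, k) = Real.log ((m ^ q * k : ℕ) : ℝ) := by
        unfold lf
        simp only
        have hmr : (0 : ℝ) < m := by exact_mod_cast hm0
        have hkr : (0 : ℝ) < k := by exact_mod_cast hk0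
        push_cast
        rw [Real.log_mul (by positivity) hkr.ne', Real.log_pow]
      rw [hlog]
      apply far X H h y (m ^ q * k) u (X ^ ε / 3) (by positivity) hyn (by omega) hyH
        (by linarith) (by linarith) hu1 hu2
      intro hcon
      exact hfree _ hcon hBn
    have h1 := short_le (Ico a (2 * a) ×ˢ Icc 1 K) (lf q) (fun p => ind B p.2) θ₁ u
      ((X ^ ε / 3) / (4 * X)) hθ10 (by positivity) (fun p _ => ind_le B p.2) hfar
    refine h1.trans ?_
    have e1 : (X ^ ε / 3) / (4 * X) / θ₁ = X ^ (ε / 2) / 12 := by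
      have h2 : X ^ ε = X ^ (ε / 2) * (X * θ₁) := by
        rw [hθ1]
        have h3 : X * X ^ (ε / 2 - 1) = X ^ (ε / 2) := by
          rw [mul_comm, ← Real.rpow_add_one hX0.ne']
          congr 1
          ring
        rw [h3, ← Real.rpow_add hX0]
        congr 1
        ring
      rw [h2]
      field_simp
      norm_num
    have e2 : -(X ^ ε / 3 / (4 * X) / θ₁) ^ 2 / 2 = -X ^ ε / 288 := by
      rw [e1, div_pow, ← Real.rpow_natCast (X ^ (ε / 2)) 2, ← Real.rpow_mul hX0.le]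
      have : ε / 2 * ((2 : ℕ) : ℝ) = ε := by push_cast; ring
      rw [this]
      ring
    rw [e2]
    have hcard : ((Ico a (2 * a) ×ˢ Icc 1 K).card : ℝ) ≤ 32 * X := by
      rw [card_product, Nat.card_Ico, Nat.card_Icc, show 2 * a - a = a by omega,
        Nat.add_sub_cancel]
      push_cast
      have hKle : (K : ℝ) ≤ 16 * X / M ^ q := Nat.floor_le (by positivity)
      calc (a : ℝ) * K ≤ (2 * M) * (16 * X / M ^ q) :=
            mul_le_mul ha2 hKle (Nat.cast_nonneg K) (by positivity)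
        _ = 32 * X * (M / M ^ q) := by ring
        _ ≤ 32 * X * 1 := by
            apply mul_le_mul_of_nonneg_left _ (by positivity)
            rw [div_le_one (by positivity)]
            exact hMM
        _ = 32 * X := by ring
    have hinvθ : 1 / θ₁ ≤ X ^ 2 := by
      have h2 : 1 / θ₁ = X ^ (1 - ε / 2) := by
        rw [hθ1, one_div, ← Real.rpow_neg hX0.le]
        congr 1
        ring
      rw [h2]
      calc X ^ (1 - ε / 2) ≤ X ^ (2 : ℝ) :=
            Real.rpow_le_rpow_of_exponent_le hX1' (by linarith)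
        _ = X ^ 2 := Real.rpow_natCast X 2
    have hE0 := Real.exp_pos (-X ^ ε / 288)
    calc ((Ico a (2 * a) ×ˢ Icc 1 K).card : ℝ) * (1 / θ₁ * Real.exp (-X ^ ε / 288))
        ≤ (32 * X) * (X ^ 2 * Real.exp (-X ^ ε / 288)) := by
          apply mul_le_mul hcard _ (by positivity) (by positivity)
          exact mul_le_mul_of_nonneg_right hinvθ hE0.le
      _ = 32 * X ^ 3 * Real.exp (-X ^ ε / 288) := by ring
      _ ≤ 1 / 2 := hexp
  have hfin := dd_lower (Ico a (2 * a) ×ˢ Icc 1 K) (lf q) (fun p => ind B p.2) θ₁ (4 * θ) u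
  linarith

end Pool.Agent.BrE
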